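import Pool.Agent.T9h44.LG.Spec4

/-!
# Sharp local smoothing in the mean over SOME dilations (helper44): gain `min (|I|) (n-1)`

In Spec4 the gain is `|I| - 1`. If `I` is not everything the gain is `|I|`: for `j ∉ I` this is in
(SMI); for `j ∈ I` one uses that the kernel is homogeneous,
`KM M n (y/μ) (w/μ) (g/μ) = μ^((n-1)/2+M+1) KM M n y w g`, and takes the mean over `μ ∈ [1, 2]`: then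
also the `g_i`, `i ∉ I`, move (together, with `μ`), and (GEN) can be used for one of them.
-/

set_option autoImplicit false

namespace Pool.Agent.T9h44.LG

open MeasureTheory Real Pool.Agent.N303.LS Pool.Agent.T9h44.LS4 Pool.Agent.T9h44.LS5
open scoped ENNReal ComplexConjugate

variable {n : ℕ}

/-- (TRJ) = (TR) for `1/8 ≤ b ≤ 1/2` -/
def S_trJ (n : ℕ) : Prop :=
  ∀ M K : ℕ, 2 ≤ M → ∃ C : ℝ, 0 < C ∧ ∀ (j : Fin n) (b R : ℝ) (l : ℤ),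
    b ∈ Set.Icc (1 / 8 : ℝ) (1 / 2) → 1 ≤ R → ∀ G H : (Fin n → ℝ) → ℂ, NiceV G → NiceV H →
    (∀ ξ, G ξ = 2 * π * Complex.I * ξ j * H ξ) →
    ∫⁻ p : ℝ × (Fin n → ℝ), ‖ExtN (UN (Function.update 0 j b) fun ζ =>
        ((bet (ζ.1 / 2 ^ l) * am M R ζ.1 : ℝ) : ℂ) * G ζ.2) p‖ₑ ^ 4 ≤
      ENNReal.ofReal (C * (((2 : ℝ) ^ l) ^ (M - 1) * (1 + 2 ^ l / R) ^ (-(K : ℤ)) * R) ^ 4) *
        ((∫⁻ x : Fin n → ℝ, ‖ExV G x‖ₑ ^ 4) +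
          ENNReal.ofReal (R ^ 4) * ∫⁻ x : Fin n → ℝ, ‖ExV H x‖ₑ ^ 4)

/-- (KFJ) = (KF) for `g ∈ [1/2, 2]^n` -/
def S_kfJ (n : ℕ) : Prop :=
  1 ≤ n → ∀ M : ℕ, ∃ C : ℝ, 0 < C ∧ ∀ g : Fin n → ℝ, (∀ i, g i ∈ Set.Icc (1 / 2 : ℝ) 2) →
    ∀ (w R : ℝ) (x : Fin n → ℝ), 1 ≤ R → ∀ G : (Fin n → ℝ) → ℂ, NiceV G →
      ‖∫ u : Fin n → ℝ, KM M n R⁻¹ w g (x - u) * ExV G u‖ₑ ≤
        ENNReal.ofReal C * ∑' l : ℤ, ‖ExtN (UN (fun i => 1 / (4 * g i)) fun ζ =>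
          ((bet (ζ.1 / 2 ^ l) * am M R ζ.1 : ℝ) : ℂ) * G ζ.2) (w, x)‖ₑ

/-- (PO) the Poisson kernel in the variable `w` is a contraction -/
def S_po (n : ℕ) : Prop :=
  ∀ (c : Fin n → ℝ) (τ : ℝ), 0 ≤ τ → ∀ G : ℝ × (Fin n → ℝ) → ℂ, NiceN G →
    (∀ ζ, G ζ ≠ 0 → 0 < ζ.1) →
    ∫⁻ p : ℝ × (Fin n → ℝ), ‖ExtN (UN c fun ζ =>
        ((Real.exp (-(2 * π * τ * ζ.1)) : ℝ) : ℂ) * G ζ) p‖ₑ ^ 4 ≤
      ∫⁻ p : ℝ × (Fin n → ℝ), ‖ExtN (UN c G) p‖ₑ ^ 4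

/-- (ITJ) iteration: (GEN) in the variables of `I.erase j` (for `c_i`) and in `i₁` (for `μ`, change of
variables `c = μ c₀_{i₁}`), (FX) for the other variables off `I` (for each `μ`) -/
def S_itJ (n : ℕ) : Prop :=
  ∀ ε : ℝ, 0 < ε → ∃ C N : ℝ, 0 < C ∧ 0 < N ∧ ∀ (I : Finset (Fin n)) (j i₁ : Fin n), j ∈ I →
    i₁ ∉ I → ∀ c₀ : Fin n → ℝ, (∀ i, c₀ i ∈ Set.Icc (1 / 8 : ℝ) (1 / 4)) →
    ∀ b ∈ Set.Icc (1 / 8 : ℝ) (1 / 2), ∀ s₀ A : ℝ, 0 < s₀ → 1 ≤ A →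
    ∀ G : ℝ × (Fin n → ℝ) → ℂ, NiceN G →
    (∀ ζ, G ζ ≠ 0 → s₀ ≤ ζ.1 ∧ ζ.1 ≤ 4 * s₀ ∧ ∀ i, |ζ.2 i| ≤ A * ζ.1) →
    ∫⁻ μ in Set.Icc (1 : ℝ) 2, ∫⁻ c in cubeC n, ∫⁻ p : ℝ × (Fin n → ℝ),
        ‖ExtN (UN (Function.update (mix I (μ • c₀) c) j b) G) p‖ₑ ^ 4 ≤
      ENNReal.ofReal (C * (1 + s₀) ^ (ε + ((n : ℝ) - 1 - I.card)) * A ^ N) *
        ∫⁻ p : ℝ × (Fin n → ℝ), ‖ExtN (UN (Function.update 0 j b) G) p‖ₑ ^ 4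

/-- (SMJ). `I = univ`: (ITI) with `I.erase j` (`|I.erase j| = n - 1`). `I ≠ univ`, `j ∉ I`: (ITI).
`I ≠ univ`, `j ∈ I`: the left side is at most `2 ∫_{μ ∈ [1,2]}` of the same with `R⁻¹/μ`, `g/μ` for
`R⁻¹`, `g`; (KFJ); `c_i = μ/(4 g_i)` for `i ∈ I` (Jacobian at most `32`), `c_i = μ c₀_i` for `i ∉ I`;
(PO) replaces `R μ` in the amplitude by `2 R`; (ITJ) for fixed `c_j = b`; (TRJ). -/
def S_smJ (n : ℕ) : Prop :=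
  1 ≤ n → ∀ ε : ℝ, 0 < ε → ∃ M₀ : ℕ, ∀ M : ℕ, M₀ ≤ M → ∃ C : ℝ, 0 < C ∧
    ∀ (I : Finset (Fin n)) (j : Fin n), ∀ g₀ ∈ box n, ∀ R : ℝ, 1 ≤ R →
    ∀ G H : (Fin n → ℝ) → ℂ, NiceV G → NiceV H →
    (∀ ξ, G ξ = 2 * π * Complex.I * ξ j * H ξ) → (∀ ξ, G ξ ≠ 0 → ∀ i, |ξ i| ≤ 4 * R) →
    ∫⁻ g in box n, ∫⁻ w : ℝ, ∫⁻ x : Fin n → ℝ,
        ‖∫ u : Fin n → ℝ, KM M n R⁻¹ w (mix I g₀ g) (x - u) * ExV G u‖ₑ ^ 4 ≤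
      ENNReal.ofReal (C * R ^ (4 * M + (ε + ((n : ℝ) - 1 - (min I.card (n - 1) : ℕ))))) *
        ((∫⁻ x : Fin n → ℝ, ‖ExV G x‖ₑ ^ 4) +
          ENNReal.ofReal (R ^ 4) * ∫⁻ x : Fin n → ℝ, ‖ExV H x‖ₑ ^ 4)

/-- (R4J) from (SMJ), as (R4) -/
def S_r4J (n : ℕ) : Prop :=
  1 ≤ n → ∀ ε : ℝ, 0 < ε → ∃ M₀ : ℕ, ∀ M : ℕ, M₀ ≤ M → ∀ I : Finset (Fin n),
    RSI n M I 4 (ε + ((n : ℝ) - 1 - (min I.card (n - 1) : ℕ)))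

lemma exJ_lt (n k : ℕ) (p σ : ℝ) (hp : 2 ≤ p)
    (hσ : σ < (k : ℝ) * min (1 / 2 - 1 / p) (1 / p)) : ∃ ε : ℝ, 0 < ε ∧
    (if p ≤ 4 then (ε + ((n : ℝ) - 1 - k)) * ((p - 2) / 2) else
      (ε + ((n : ℝ) - 1 - k)) + (p - 4) * (((n : ℝ) - 1) / 2)) <
      (((n : ℝ) - 1) / 2 - ((n : ℝ) - 1) / p - σ) * p := by
  have h := exI_lt n (k + 1) p σ hp (by push_cast; simpa using hσ)
  push_cast at h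
  have e : ∀ ε : ℝ, ε + ((n : ℝ) - (k + 1)) = ε + ((n : ℝ) - 1 - k) := fun ε => by ring
  simpa only [e] using h

/-- the theorem in the mean over the dilations of the variables of `I` -/
theorem finalM (hn : 1 ≤ n) (h4 : S_r4J n) (hrp : S_rpI n) (hhp : S_hpI n) (I : Finset (Fin n))
    (p : ℝ) (hp : 2 ≤ p) (σ : ℝ)
    (hσ : σ < ((min I.card (n - 1) : ℕ) : ℝ) * min (1 / 2 - 1 / p) (1 / p)) :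
    ∃ C : ℝ, 0 < C ∧ ∀ g₀ ∈ box n, ∀ u₀ u₁ : SchwartzMap (E n) ℂ,
      ∫⁻ g in box n, ∫⁻ t in Set.Icc (1 : ℝ) 2, ∫⁻ x : E n,
        ‖LS5.wave (FourierTransform.fourier fun x => u₀ (dilm (mix I g₀ g) x))
          (FourierTransform.fourier fun x => u₁ (dilm (mix I g₀ g) x)) t x‖ₑ ^ p ≤
      ENNReal.ofReal C *
        ((∫⁻ x : E n, ‖inv (fun ξ => bes (((n : ℝ) - 1) / 2 - ((n : ℝ) - 1) / p - σ) ξ *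
          FourierTransform.fourier (u₀ : E n → ℂ) ξ) x‖ₑ ^ p) +
        ∫⁻ x : E n, ‖inv (fun ξ => bes (((n : ℝ) - 1) / 2 - ((n : ℝ) - 1) / p - σ - 1) ξ *
          FourierTransform.fourier (u₁ : E n → ℂ) ξ) x‖ₑ ^ p) := by
  obtain ⟨ε, hε, he⟩ := exJ_lt n (min I.card (n - 1)) p σ hp hσ
  obtain ⟨M₀, hM₀⟩ := h4 hn ε hε
  have h1 := hM₀ (M₀ + 1) (by omega) I
  have h2 := hrp hn (M₀ + 1) I _ (by omega) h1 p hp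
  have h3 := hhp hn (M₀ + 1) I p _ hp h2
  exact finalJ I p hp σ _ he h3

end Pool.Agent.T9h44.LG
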