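import Pool.Agent.T9h44.LG.Defs

/-!
# Sharp local smoothing in 2+1 dimensions for exact solutions (helper44): the pieces

Each piece is a `def ... : Prop`; prove it as a theorem in a file of your own.
`V(γ) = Ext (Uo γ G)` is the solution at the time `γ`, frequencies `ζ = (w, ξ)`, slope `α = ξ/w`.
-/

set_option autoImplicit false

namespace Pool.Agent.T9h44.LG

open MeasureTheory Real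
open scoped ENNReal ComplexConjugate

/-- (K0) Take a smooth even bump `b ≥ 0`, `b = 1` on `[-1/4, 1/4]`, support in `[-1/2, 1/2]`,
`κ = (𝓕 b)^2` (real, Schwartz, `κ(0) > 0`), `κh = b ⋆ b` (autocorrelation; Fourier inversion). -/
def S_kap : Prop := ∃ κ κh : ℝ → ℝ, Kap κ κh

/-- (ORT) Expand the square; `∫ κ(γ/R) ee(γ(φ ζ - φ ζ')) dγ = R κh(-R(φ ζ - φ ζ'))` vanishes if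
`|φ ζ - φ ζ'| ≥ 1/R`; the Gram matrix is sparse, `|D_pp'| ≤ (D_pp + D_p'p')/2`, and the relation is
symmetric. -/
def S_ort : Prop :=
  ∀ κ κh : ℝ → ℝ, Kap κ κh → ∀ (ι : Type) [Fintype ι] (a : ι → ℝ × ℝ → ℂ) (φ : ℝ × ℝ → ℝ)
    (R : ℝ) (M : ℕ), 0 < R → Measurable φ → (∀ p, Integrable (a p)) →
    (∀ p, Set.ncard {p' | ∃ ζ ζ', a p ζ ≠ 0 ∧ a p' ζ' ≠ 0 ∧ |φ ζ - φ ζ'| < 1 / R} ≤ M) →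
    ∫⁻ γ : ℝ, ENNReal.ofReal (κ (γ / R)) * ‖∑ p, ∫ ζ, ee (γ * φ ζ) * a p ζ‖ₑ ^ 2 ≤
      M * ∑ p, ∫⁻ γ : ℝ, ENNReal.ofReal (κ (γ / R)) * ‖∫ ζ, ee (γ * φ ζ) * a p ζ‖ₑ ^ 2

/-- (PL1) Plancherel: `Ext A * conj (Ext B)` is the inverse Fourier transform of `cc A B`, and the
Fourier transform of `Fe κ α s ρ` is `κh(ρ ω) κh(ρ (η - α ω)/s)`. -/
def S_pl1 : Prop :=
  ∀ κ κh : ℝ → ℝ, Kap κ κh → ∀ α s ρ : ℝ, 0 < s → 0 < ρ →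
    ∀ (ι : Type) [Fintype ι] (A B : ι → ℝ × ℝ → ℂ), (∀ i, Nice (A i)) → (∀ i, Nice (B i)) →
    ∫⁻ z : ℝ × ℝ, ‖∫ z' : ℝ × ℝ, ((Fe κ α s ρ (z - z') : ℝ) : ℂ) *
        ∑ i, Ext (A i) z' * conj (Ext (B i) z')‖ₑ ^ 2 =
      ∫⁻ h : ℝ × ℝ, ‖((κh (ρ * h.1) * κh (ρ * (h.2 - α * h.1) / s) : ℝ) : ℂ) *
        ∑ i, cc (A i) (B i) h‖ₑ ^ 2

/-- (PL2) -/
def S_pl2 : Prop :=
  ∀ (ι : Type) [Fintype ι] (A B : ι → ℝ × ℝ → ℂ), (∀ i, Nice (A i)) → (∀ i, Nice (B i)) →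
    ∫⁻ z : ℝ × ℝ, ‖∑ i, Ext (A i) z * conj (Ext (B i) z)‖ₑ ^ 2 =
      ∫⁻ h : ℝ × ℝ, ‖∑ i, cc (A i) (B i) h‖ₑ ^ 2

/-- (C1) `om(x) ≤ ∑_j c_j κ(x - j c)` with `c_j` summable (`κ ≥ c` on `[-c, c]`), so `Wt` is at most
a sum of translates of `Fe κ`; Cauchy-Schwarz for the sum; the integral over `z` is invariant. -/
def S_c1 : Prop :=
  ∀ κ κh : ℝ → ℝ, Kap κ κh → ∃ C : ℝ, 0 < C ∧ ∀ α s ρ : ℝ, 0 < s → 0 < ρ →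
    ∀ u : ℝ × ℝ → ℝ≥0∞, Measurable u → ∫⁻ z : ℝ × ℝ, Av α s ρ u z ^ 2 ≤
      ENNReal.ofReal C * ∫⁻ z : ℝ × ℝ,
        (∫⁻ z' : ℝ × ℝ, ENNReal.ofReal (Fe κ α s ρ (z - z')) * u z') ^ 2

/-- (C2) `κ ≤ C psi3 ≤ C om` -/
def S_c2 : Prop :=
  ∀ κ κh : ℝ → ℝ, Kap κ κh → ∃ C : ℝ, 0 < C ∧ ∀ α s ρ : ℝ, 0 < s → 0 < ρ →
    ∀ (u : ℝ × ℝ → ℝ≥0∞) (z : ℝ × ℝ),
      ∫⁻ z' : ℝ × ℝ, ENNReal.ofReal (Fe κ α s ρ (z - z')) * u z' ≤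
        ENNReal.ofReal C * Av α s ρ u z

/-- (CT) `psi3(x) ≤ ∑_j c_j κ(x - j c)`, `c_j = C (1+j²)^(-3)`, and
`∑_j c_j κ(x - j c) ≤ C psi3(x)`. -/
def S_ct : Prop :=
  ∀ κ κh : ℝ → ℝ, Kap κ κh → ∃ C : ℝ, 0 < C ∧ ∀ (R : ℝ) (f v : ℝ → ℝ≥0∞) (A : ℝ≥0∞), 0 < R →
    Measurable f → Measurable v →
    (∀ c : ℝ, ∫⁻ γ : ℝ, ENNReal.ofReal (κ ((γ - c) / R)) * f γ ≤
      A * ∫⁻ γ : ℝ, ENNReal.ofReal (κ ((γ - c) / R)) * v γ) →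
    ∀ c : ℝ, ∫⁻ γ : ℝ, ENNReal.ofReal (psi3 ((γ - c) / R)) * f γ ≤
      ENNReal.ofReal C * A * ∫⁻ γ : ℝ, ENNReal.ofReal (psi3 ((γ - c) / R)) * v γ

/-- (FAR) pure algebra. Put `R = 4^(a+l)`, `K = 4^l`, `h = (ω, η)`, and for `ζ`:
`d = al(ζ+h) - al ζ`, `A` = mean of the two slopes, `W` = mean of the two `w`'s. Exact identities:
`W d = η - A ω` and `ph h ζ = 2 A η - A² ω + ω d²/4`. With `'` for `ζ'`: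
`ph h ζ - ph h ζ' = (A - A')(W d + W' d') + ω (d² - d'²)/4`, `W d - W' d' = -(A - A') ω`,
`|ω| ≤ 1/K`, `|W - W'| ≤ 1/K`, `d, d' ≥ 2/2^(a+l)`, `W d ≤ 9/4^a`; hence
`|A - A'| ≤ 2|ph h ζ - ph h ζ'|/(d+d') + d'/(2K²)`, `|d - d'| ≤ d'/K + |A - A'|/K`. -/
def S_far : Prop :=
  ∀ (a l : ℕ), 1 ≤ l → ∀ h ζ ζ' : ℝ × ℝ, ζ ∈ Dom ((4 : ℝ) ^ l)⁻¹ → ζ + h ∈ Dom ((4 : ℝ) ^ l)⁻¹ →
    ζ' ∈ Dom ((4 : ℝ) ^ l)⁻¹ → ζ' + h ∈ Dom ((4 : ℝ) ^ l)⁻¹ →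
    |h.1| ≤ ((4 : ℝ) ^ a)⁻¹ → |h.2| ≤ ((4 : ℝ) ^ a)⁻¹ → ∀ i₁ i₂ j₁ j₂ : ℤ,
    |2 ^ (a + l) * al (ζ + h) - i₁| ≤ 1 → |2 ^ (a + l) * al ζ - i₂| ≤ 1 →
    |2 ^ (a + l) * al (ζ' + h) - j₁| ≤ 1 → |2 ^ (a + l) * al ζ' - j₂| ≤ 1 →
    i₂ + 4 ≤ i₁ → j₂ + 4 ≤ j₁ → |ph h ζ - ph h ζ'| < 1 / 4 ^ (a + l) →
    |i₁ - j₁| ≤ 30 ∧ |i₂ - j₂| ≤ 30

/-- (NG) pure algebra: the same identities; `|d| ≤ 5/2^m`, `|ω| ≤ 1/4`, `W ≤ 5/4`. -/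
def S_ng : Prop :=
  ∀ (m l : ℕ), 1 ≤ l → ∀ h ζ : ℝ × ℝ, ζ ∈ Dom ((4 : ℝ) ^ l)⁻¹ → ζ + h ∈ Dom ((4 : ℝ) ^ l)⁻¹ →
    ∀ i₁ i₂ : ℤ, |2 ^ m * al (ζ + h) - i₁| ≤ 1 → |2 ^ m * al ζ - i₂| ≤ 1 → |i₁ - i₂| ≤ 3 →
    good m h m i₁ ∧ |ph h ζ - pp h (i₁ / 2 ^ m)| ≤ 50 / 4 ^ m

/-- (GD) a child of a good interval is good (`η - αω` is linear in `α`). -/
def S_gd : Prop :=
  ∀ (m : ℕ) (h : ℝ × ℝ) (k : ℕ) (j : ℤ), good m h k (j / 2) → good m h (k + 1) j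

/-- (CNT) the intervals `τ` of `gmax` are disjoint (except for end points). If `k ≥ 1` the parent is
not good, so `|η - eω| > 8·2^k/4^m` at an end point `e` of the parent, hence
`∫_τ |pp h '| ≥ 2/4^m`. All of `τ` lies in `{β : |pp h β - pp h β₀| ≤ 165/4^m}` where
`∫ |pp h '| ≤ 4·165/4^m` (a quadratic function is monotone on both sides of its vertex). At most
`19` intervals have `k = 0`. -/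
def S_cnt : Prop :=
  ∃ M : ℕ, ∀ (m : ℕ) (h : ℝ × ℝ) (k : ℕ) (j : ℤ), gmax m h k j →
    Set.ncard {τ : ℕ × ℤ | gmax m h τ.1 τ.2 ∧ |τ.2| ≤ 9 * 2 ^ τ.1 ∧
      ∃ β β' : ℝ, j / 2 ^ k ≤ β ∧ β ≤ (j + 1) / 2 ^ k ∧
        τ.2 / 2 ^ τ.1 ≤ β' ∧ β' ≤ (τ.2 + 1) / 2 ^ τ.1 ∧
        |pp h β - pp h β'| ≤ 101 / 4 ^ m} ≤ M

/-- (LEV) -/
def S_lev : Prop :=
  ∀ (a l k : ℕ) (j : ℤ) (h : ℝ × ℝ), |h.1| ≤ ((4 : ℝ) ^ a)⁻¹ → |h.2| ≤ ((4 : ℝ) ^ a)⁻¹ →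
    |j| ≤ 9 * 2 ^ k → gmax (a + l) h k j → k ≤ 2 * l

/-- (WL) weighted square function. `Av 0 1 r u z = ∫ r^(-2) om((t-t')/r) om((x-x')/r) u(z') dz'`,
and `om^(-1/2)` is a polynomial: with `k_i = Ext (μ i)` (Schwartz), `h = om^(1/2) V`, `V = Ext G`,
`om^(1/2)(z') V_i(z') = om^(1/2)(z') ∫ k_i(z' - y) om^(-1/2)(y) h(y) dy`, and
`(1 + y²/r²) = (1 + (z' - (z' - y))²/r²)` is a sum of bounded multiples of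
`z'^a (z'-y)^b / r^(a+b)`, `a + b ≤ 2` in each variable, so
the kernels `(z'-y)^b k_i(z'-y)/r^b` appear; their Fourier transforms are
`± (2π r)^(-b) ∂^b μ_i`; Plancherel, and `h ∈ L²` with `∫ |h|² = Av 0 1 r (|V|²)` (up to
`r^(-2)`). -/
def S_wl : Prop :=
  ∃ C : ℝ, 0 < C ∧ ∀ (ι : Type) [Fintype ι] (μ : ι → ℝ × ℝ → ℂ) (A r : ℝ), 0 < r → 0 ≤ A →
    (∀ i, ContDiff ℝ (⊤ : ℕ∞) (μ i)) → (∀ i, HasCompactSupport (μ i)) →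
    (∀ ζ : ℝ × ℝ, ∀ a ≤ 2, ∀ b ≤ 2, ∑ i, ‖iteratedDeriv a (fun w : ℝ =>
      iteratedDeriv b (fun ξ : ℝ => μ i (w, ξ)) ζ.2) ζ.1‖ ^ 2 ≤ (A * r ^ (a + b)) ^ 2) →
    ∀ G : ℝ × ℝ → ℂ, Nice G → ∀ z : ℝ × ℝ,
      ∑ i, Av 0 1 r (sq (fun ζ => μ i ζ * G ζ)) z ≤
        ENNReal.ofReal (C * A ^ 2) * Av 0 1 r (sq G) z

/-- (FR) change of the frame: `ξ = w α + s ξ'` -/
def S_fr : Prop :=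
  ∀ α s : ℝ, 0 < s → ∀ G : ℝ × ℝ → ℂ, Nice G → (∀ ζ, G ζ ≠ 0 → 1 ≤ ζ.1) →
    Nice (fr α s G) ∧
    (∀ γ t x : ℝ, Ext (Uo γ G) (t, x) =
      s * Ext (Uo (s ^ 2 * γ) (fr α s G)) (t + α * x + α ^ 2 * γ, s * (x + 2 * α * γ))) ∧
    (∀ γ ρ : ℝ, 0 < ρ → ∫⁻ z : ℝ × ℝ, Av α s ρ (sq (Uo γ G)) z ^ 2 =
      ENNReal.ofReal (s ^ 3) * ∫⁻ z : ℝ × ℝ, Av 0 1 ρ (sq (Uo (s ^ 2 * γ) (fr α s G))) z ^ 2) ∧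
    ∫⁻ z : ℝ × ℝ, ‖Ext G z‖ₑ ^ 4 = ENNReal.ofReal (s ^ 3) * ∫⁻ z : ℝ × ℝ, ‖Ext (fr α s G) z‖ₑ ^ 4

/-- (LO) local orthogonality: from (WL) and the frame change with `α = j/2^k`, `s = 2^(-k)`
(also for functions which are not solutions: `γ = 0`), with
`μ_i(w, ξ) = b(w) chi(2^(m-k) ξ/w - i')`, `b` a bump equal to `1` on `[1, 2]`, support in
`[1/2, 3]`, `r = 4^(m-k-4) ≥ 2^(m-k)/2^8`: the derivatives are at most `C 2^((m-k)(a+b))`, at most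
three `μ_i` are non zero at each point. `Gp m i G = Gp m i (Gw k j G)` for `i ∈ I`. -/
def S_lo : Prop :=
  ∃ C : ℝ, 0 < C ∧ ∀ (m k : ℕ) (j : ℤ) (G : ℝ × ℝ → ℂ), k ≤ m → Nice G →
    (∀ ζ, G ζ ≠ 0 → 1 ≤ ζ.1 ∧ ζ.1 ≤ 2) → ∀ I : Finset ℤ,
    (∀ i ∈ I, j * 2 ^ (m - k) - 3 ≤ i ∧ i ≤ (j + 1) * 2 ^ (m - k) + 3) → ∀ z : ℝ × ℝ,
      Av (j / 2 ^ k) (1 / 2 ^ k) ((4 : ℝ) ^ ((m : ℤ) - k - 4))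
          (fun z' => ∑ i ∈ I, sq (Gp m i G) z') z ≤
        ENNReal.ofReal C *
          Av (j / 2 ^ k) (1 / 2 ^ k) ((4 : ℝ) ^ ((m : ℤ) - k - 4)) (sq (Gw k j G)) z

/-- (S4) `Ext (Gw k j G) = K_j * Ext G` with `K_j(t, x) = 2^(-k) H(t + j 2^(-k) x, 2^(-k) x)`,
`H` Schwartz (Fourier transform `b(w) wid(ξ/w)` up to the change of variables), so
`‖K_j‖_1 = ‖H‖_1`; and `∑_j |wid(2^k α - j)|² ≤ 17`. Interpolation of the operator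
`f ↦ (K_j * f)_j` between `L² → ℓ² L²` and `L^∞ → ℓ^∞ L^∞` (compare
`Pool.Agent.T9h18.LS.interp_inf`, for `4` and `∞`). -/
def S_s4 : Prop :=
  ∃ C : ℝ, 0 < C ∧ ∀ (k : ℕ) (J : Finset ℤ) (G : ℝ × ℝ → ℂ), Nice G →
    (∀ ζ, G ζ ≠ 0 → 1 ≤ ζ.1 ∧ ζ.1 ≤ 2) →
      ∑ j ∈ J, ∫⁻ z : ℝ × ℝ, ‖Ext (Gw k j G) z‖ₑ ^ 4 ≤
        ENNReal.ofReal C * ∫⁻ z : ℝ × ℝ, ‖Ext G z‖ₑ ^ 4

/-- (BS) `ρ' = ρ + |γ|`: `Wt 0 1 ρ ≤ (ρ'/ρ)² Wt 0 1 ρ'`; (WL) at the scale `ρ'` for the one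
multiplier `ee(γ ξ²/w) b(w) b'(ξ/w)`; Young. -/
def S_bs : Prop :=
  ∃ C : ℝ, 0 < C ∧ ∀ G : ℝ × ℝ → ℂ, Cls 1 G → ∀ ρ : ℝ, 1 ≤ ρ → ∀ γ : ℝ,
    ∫⁻ z : ℝ × ℝ, Av 0 1 ρ (sq (Uo γ G)) z ^ 2 ≤
      ENNReal.ofReal (C * (1 + |γ| / ρ) ^ 4) * ∫⁻ z : ℝ × ℝ, ‖Ext G z‖ₑ ^ 4

/-- (LC) `Ext G = Φ * Ext G` with a fixed Schwartz function `Φ`; Cauchy-Schwarz gives
`|Ext G|² ≤ C Av 0 1 1 (|Ext G|²)` pointwise. -/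
def S_lc : Prop :=
  ∃ C : ℝ, 0 < C ∧ ∀ G : ℝ × ℝ → ℂ, Cls 1 G →
    ∫⁻ z : ℝ × ℝ, ‖Ext G z‖ₑ ^ 4 ≤ ENNReal.ofReal C * ∫⁻ z : ℝ × ℝ, Av 0 1 1 (sq G) z ^ 2

/-- (TM) `c psi3(γ/R) ≤ (1/R₂) ∫ psi3(c/R) psi3((γ-c)/R₂) dc ≤ C psi3(γ/R)` -/
def S_tm : Prop :=
  ∃ C : ℝ, 0 < C ∧ ∀ (R₂ R : ℝ) (u v : ℝ → ℝ≥0∞) (A : ℝ≥0∞), 0 < R₂ → R₂ ≤ R →
    Measurable u → Measurable v →
    (∀ c : ℝ, ∫⁻ γ : ℝ, ENNReal.ofReal (psi3 ((γ - c) / R₂)) * u γ ≤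
      A * ∫⁻ γ : ℝ, ENNReal.ofReal (psi3 ((γ - c) / R₂)) * v γ) →
    ∫⁻ γ : ℝ, ENNReal.ofReal (psi3 (γ / R)) * u γ ≤
      ENNReal.ofReal C * A * ∫⁻ γ : ℝ, ENNReal.ofReal (psi3 (γ / R)) * v γ

/-- (NEAR) near pairs. `c` is `0` or `1`, `F_h(γ) = ∑_{i₁,i₂} c(i₁,i₂) cc(G_{i₁}, G_{i₂})(h)` for
`G_i = Gp m i (Uo γ G)`; `cc (Gp m i₁ (Uo γ G)) (Gp m i₂ (Uo γ G)) h =
∫ ee(γ ph h ζ) Gp m i₁ G (ζ+h) conj(Gp m i₂ G ζ) dζ`. For fixed `h` group the sum by the maximal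
good dyadic interval `(k, j)`, `j = i₁ / 2^(m-k)` ((NG) says that `(m, i₁)` is good when the term
is not `0`; by (GD) the good levels of `i₁` are upwards closed, so the least good level
defines the group, and a group is a full interval). (ORT) with (CNT), (NG). -/
def S_near : Prop :=
  ∀ κ κh : ℝ → ℝ, Kap κ κh → ∃ C : ℝ, 0 < C ∧ ∀ (m l : ℕ) (G : ℝ × ℝ → ℂ), 1 ≤ l →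
    Cls ((4 : ℝ) ^ l)⁻¹ G → ∀ c : ℤ → ℤ → ℂ, (∀ i₁ i₂, c i₁ i₂ = 0 ∨ c i₁ i₂ = 1) →
    (∀ i₁ i₂, c i₁ i₂ ≠ 0 → |i₁ - i₂| ≤ 3) → ∀ (h : ℝ × ℝ) (γ₀ : ℝ),
    ∫⁻ γ : ℝ, ENNReal.ofReal (κ ((γ - γ₀) / 4 ^ m)) *
        ‖∑ i₁ ∈ Finset.Icc (-(9 * 2 ^ m) : ℤ) (9 * 2 ^ m),
          ∑ i₂ ∈ Finset.Icc (-(9 * 2 ^ m) : ℤ) (9 * 2 ^ m),
            c i₁ i₂ * cc (Gp m i₁ (Uo γ G)) (Gp m i₂ (Uo γ G)) h‖ₑ ^ 2 ≤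
      ENNReal.ofReal C * ∑ k ∈ Finset.range (m + 1),
        ∑ j ∈ Finset.Icc (-(9 * 2 ^ k) : ℤ) (9 * 2 ^ k),
          Set.indicator {h | gmax m h k j} (fun h =>
            ∫⁻ γ : ℝ, ENNReal.ofReal (κ ((γ - γ₀) / 4 ^ m)) *
              ‖∑ i₁ ∈ (Finset.Icc (-(9 * 2 ^ m) : ℤ) (9 * 2 ^ m)).filter
                  (fun i => i / 2 ^ (m - k) = j),
                ∑ i₂ ∈ Finset.Icc (-(9 * 2 ^ m) : ℤ) (9 * 2 ^ m),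
                  c i₁ i₂ * cc (Gp m i₁ (Uo γ G)) (Gp m i₂ (Uo γ G)) h‖ₑ ^ 2) h

/-- (FARP) far pairs, from (ORT) and (FAR) (used for `i₁ ≥ i₂ + 4` and, with `-h` and `ζ + h`,
for `i₁ + 4 ≤ i₂`). -/
def S_farp : Prop :=
  ∀ κ κh : ℝ → ℝ, Kap κ κh → ∃ C : ℝ, 0 < C ∧ ∀ (a l : ℕ) (G : ℝ × ℝ → ℂ), 1 ≤ l →
    Cls ((4 : ℝ) ^ l)⁻¹ G → ∀ (h : ℝ × ℝ) (γ₀ : ℝ), |h.1| ≤ ((4 : ℝ) ^ a)⁻¹ →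
    |h.2| ≤ ((4 : ℝ) ^ a)⁻¹ →
    ∫⁻ γ : ℝ, ENNReal.ofReal (κ ((γ - γ₀) / 4 ^ (a + l))) *
        ‖∑ i₁ ∈ Finset.Icc (-(9 * 2 ^ (a + l)) : ℤ) (9 * 2 ^ (a + l)),
          ∑ i₂ ∈ Finset.Icc (-(9 * 2 ^ (a + l)) : ℤ) (9 * 2 ^ (a + l)),
            (if |i₁ - i₂| ≤ 3 then (0 : ℂ) else 1) *
              cc (Gp (a + l) i₁ (Uo γ G)) (Gp (a + l) i₂ (Uo γ G)) h‖ₑ ^ 2 ≤
      ENNReal.ofReal C * ∑ i₁ ∈ Finset.Icc (-(9 * 2 ^ (a + l)) : ℤ) (9 * 2 ^ (a + l)),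
        ∑ i₂ ∈ Finset.Icc (-(9 * 2 ^ (a + l)) : ℤ) (9 * 2 ^ (a + l)),
          ∫⁻ γ : ℝ, ENNReal.ofReal (κ ((γ - γ₀) / 4 ^ (a + l))) *
            ‖cc (Gp (a + l) i₁ (Uo γ G)) (Gp (a + l) i₂ (Uo γ G)) h‖ₑ ^ 2

/-- (PA) the main inequality, assembled from the pieces above -/
def S_pa : Prop :=
  ∃ C : ℝ, 0 < C ∧ ∀ (a l : ℕ) (G : ℝ × ℝ → ℂ), 1 ≤ l → Cls ((4 : ℝ) ^ l)⁻¹ G → ∀ γ₀ : ℝ,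
    ∫⁻ γ : ℝ, ENNReal.ofReal (psi3 ((γ - γ₀) / 4 ^ (a + l))) *
        ∫⁻ z : ℝ × ℝ, Av 0 1 (4 ^ a) (sq (Uo γ G)) z ^ 2 ≤
      ENNReal.ofReal C * ∑ k ∈ Finset.range (min (a + l) (2 * l + 3) + 1),
        ∑ j ∈ Finset.Icc (-(9 * 2 ^ k) : ℤ) (9 * 2 ^ k),
          ∫⁻ γ : ℝ, ENNReal.ofReal (psi3 ((γ - γ₀) / 4 ^ (a + l))) *
            ∫⁻ z : ℝ × ℝ, Av (j / 2 ^ k) (1 / 2 ^ k) ((4 : ℝ) ^ (((a + l : ℕ) : ℤ) - k - 4))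
              (sq (Gw k j (Uo γ G))) z ^ 2

/-- the bound which is proved by recursion -/
def QB (δ ρ R C : ℝ) : Prop :=
  ∀ G : ℝ × ℝ → ℂ, Cls δ G →
    TT ρ R G ≤ ENNReal.ofReal (C * R) * ∫⁻ z : ℝ × ℝ, ‖Ext G z‖ₑ ^ 4

/-- (REC) from (PA), (TM), (FR), (S4); the frame change maps `Gw k j (Uo γ G)` to
`Uo (4^(-k) γ) (fr .. (Gw k j G))`, a member of the class; `Av 0 1 ρ ≤ 4^8 Av 0 1 1` for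
`4^(-4) ≤ ρ ≤ 1`. -/
def S_rec : Prop :=
  ∃ C : ℝ, 1 ≤ C ∧ ∀ (l a M : ℕ) (Q : ℝ), 1 ≤ l → a + l ≤ M → 0 ≤ Q →
    (∀ k ≤ min (a + l) (2 * l + 3),
      QB ((4 : ℝ) ^ l)⁻¹ (4 ^ (a + l - k - 4)) (4 ^ (M - k)) Q) →
    QB ((4 : ℝ) ^ l)⁻¹ (4 ^ a) (4 ^ M) (C * (2 * l + 4) * Q)

/-- (FIN) induction on `M - a` from (REC) and (BS) -/
def S_fin : Prop :=
  ∀ ε : ℝ, 0 < ε → ∃ (l : ℕ) (C : ℝ), 1 ≤ l ∧ 0 < C ∧ ∀ M : ℕ,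
    QB ((4 : ℝ) ^ l)⁻¹ 1 (4 ^ M) (C * 4 ^ (ε * M))

/-- (GEN) general frequencies: (FIN), (LC), (BS), scaling, partition in `w` and in the slope -/
def S_gen : Prop :=
  ∀ ε : ℝ, 0 < ε → ∃ C N : ℝ, 0 < C ∧ 0 < N ∧ ∀ s₀ A : ℝ, 0 < s₀ → 1 ≤ A →
    ∀ G : ℝ × ℝ → ℂ, Nice G →
    (∀ ζ, G ζ ≠ 0 → s₀ ≤ ζ.1 ∧ ζ.1 ≤ 4 * s₀ ∧ |ζ.2| ≤ A * ζ.1) →
    ∫⁻ c in Set.Icc (-4 : ℝ) 4, ∫⁻ z : ℝ × ℝ, ‖Ext (Uo c G) z‖ₑ ^ 4 ≤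
      ENNReal.ofReal (C * (1 + s₀) ^ ε * A ^ N) * ∫⁻ z : ℝ × ℝ, ‖Ext G z‖ₑ ^ 4

end Pool.Agent.T9h44.LG
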