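import Pool.Agent.T9h44.LG.Spec3

/-!
# Sharp local smoothing in the mean over dilations (helper44): from the shells to the theorem
-/

set_option autoImplicit false

namespace Pool.Agent.T9h44.LG

open MeasureTheory Real Pool.Agent.N303.LS Pool.Agent.N558.LS Pool.Agent.T9h44.LS4
open Pool.Agent.T9h44.LS5
open scoped ENNReal SchwartzMap RealInnerProductSpace FourierTransform ComplexConjugate Topology

variable {n : ℕ}

/-- the conclusion of `LS5.hi_plusI` -/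
def PlusJ (I : Finset (Fin n)) (p e : ℝ) (m : (Fin n → ℝ) → ℝ → E n → ℝ) : Prop :=
    ∃ K : ℝ, 0 < K ∧ ∀ g₀ ∈ box n, ∀ (h : 𝓢(E n, ℂ)) (R : ℝ), 1 ≤ R →
      ∫⁻ g in box n, ∫⁻ t in Set.Icc (1 : ℝ) 2, ∫⁻ x : E n,
        ‖inv (fun ξ => Complex.exp (((2 * π * t * Ng (mix I g₀ g) ξ : ℝ) : ℂ) * Complex.I) *
          ((m (mix I g₀ g) ((R⁻¹) ^ 2) (R⁻¹ • ξ) : ℝ) : ℂ) * 𝓕 (h : E n → ℂ) ξ) x‖ₑ ^ p ≤
      ENNReal.ofReal (K * R ^ e) * ∫⁻ x : E n, ‖h x‖ₑ ^ p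

/-- one shell, negative sign -/
theorem hi_minusJ (I : Finset (Fin n)) (p e : ℝ)
    (m : (Fin n → ℝ) → ℝ → E n → ℝ) (hm : ∀ g κ η, m g κ (-η) = m g κ η) (hP : PlusJ I p e m) :
    ∃ K : ℝ, 0 < K ∧ ∀ g₀ ∈ box n, ∀ (h : 𝓢(E n, ℂ)) (R : ℝ), 1 ≤ R →
      ∫⁻ g in box n, ∫⁻ t in Set.Icc (1 : ℝ) 2, ∫⁻ x : E n,
        ‖inv (fun ξ => Complex.exp (((-(2 * π * t * Ng (mix I g₀ g) ξ) : ℝ) : ℂ) * Complex.I) *
          ((m (mix I g₀ g) ((R⁻¹) ^ 2) (R⁻¹ • ξ) : ℝ) : ℂ) * 𝓕 (h : E n → ℂ) ξ) x‖ₑ ^ p ≤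
      ENNReal.ofReal (K * R ^ e) * ∫⁻ x : E n, ‖h x‖ₑ ^ p := by
  obtain ⟨K, hK, h1⟩ := hP
  refine ⟨K, hK, fun g₀ hg₀ h R hR1 => ?_⟩
  have h2 := h1 g₀ hg₀ (cj h) R hR1
  have e1 : ∫⁻ x : E n, ‖cj h x‖ₑ ^ p = ∫⁻ x : E n, ‖h x‖ₑ ^ p := by
    refine lintegral_congr fun x => ?_
    rw [cj_apply, enorm_conj]
  rw [e1] at h2
  refine le_trans (le_of_eq ?_) h2
  refine lintegral_congr fun g => lintegral_congr fun t => lintegral_congr fun x => ?_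
  rw [inv_minus (2 * π * t) (mix I g₀ g) (fun ξ => m (mix I g₀ g) ((R⁻¹) ^ 2) (R⁻¹ • ξ)) (fun ξ => by
    rw [smul_neg, hm]) h x, enorm_conj]

/-- the general lemma -/
theorem genJ (I : Finset (Fin n)) (p : ℝ) (hp : 1 ≤ p) (e s β : ℝ) (hβ : 0 < β)
    (hβe : e - s * p = -β)
    (m : (Fin n → ℝ) → ℝ → E n → ℝ) (hm : ∀ g κ η, m g κ (-η) = m g κ η)
    (hmm : ∀ κ, Measurable fun q : (Fin n → ℝ) × E n => m q.1 κ q.2)
    (hmb : ∀ g ∈ box n, ∀ κ ∈ Set.Icc (0 : ℝ) 1, ∃ B : ℝ, ∀ η, |m g κ η| ≤ B)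
    (hP : PlusJ I p e m)
    (Λ : (Fin n → ℝ) × ℝ × E n → ℂ) (hΛm : Measurable Λ)
    (hΛi : ∀ g ∈ box n, ∀ t ∈ Set.Icc (1 : ℝ) 2, ∀ h : 𝓢(E n, ℂ),
      Integrable fun ξ => Λ (g, t, ξ) * 𝓕 (h : E n → ℂ) ξ)
    (c₁ c₂ : ℂ) (hc₁ : ‖c₁‖ ≤ 1) (hc₂ : ‖c₂‖ ≤ 1)
    (hΛ : ∀ g ∈ box n, ∀ t ∈ Set.Icc (1 : ℝ) 2, ∀ R : ℝ, 1 ≤ R → ∀ ξ : E n,
      ((psi n (R⁻¹ • ξ) : ℝ) : ℂ) * Λ (g, t, ξ) = ((R ^ (-s) : ℝ) : ℂ) *
        ((c₁ * Complex.exp (((2 * π * t * Ng g ξ : ℝ) : ℂ) * Complex.I) +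
          c₂ * Complex.exp (((-(2 * π * t * Ng g ξ) : ℝ) : ℂ) * Complex.I)) *
        ((m g ((R⁻¹) ^ 2) (R⁻¹ • ξ) : ℝ) : ℂ)))
    (C0 : ℝ)
    (hlow : ∀ g ∈ box n, ∀ t ∈ Set.Icc (1 : ℝ) 2,
      MulB C0 p fun ξ => ((phi n ξ : ℝ) : ℂ) * Λ (g, t, ξ)) :
    ∃ K : ℝ, 0 < K ∧ ∀ g₀ ∈ box n, ∀ h : 𝓢(E n, ℂ),
      ∫⁻ g in box n, ∫⁻ t in Set.Icc (1 : ℝ) 2, ∫⁻ x : E n,
        ‖inv (fun ξ => Λ (mix I g₀ g, t, ξ) * 𝓕 (h : E n → ℂ) ξ) x‖ₑ ^ p ≤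
      ENNReal.ofReal K * ∫⁻ x : E n, ‖h x‖ₑ ^ p := by
  have hp0 : 0 < p := by linarith
  have hP' := hP
  obtain ⟨K1, hK1, H1⟩ := hP'
  obtain ⟨K2, hK2, H2⟩ := hi_minusJ I p e m hm hP
  set r : ℝ≥0∞ := ENNReal.ofReal ((2 : ℝ) ^ (-(β / 2))) with hr
  have hr0 : r ≠ 0 := by
    rw [hr, Ne, ENNReal.ofReal_eq_zero, not_le]
    positivity
  have hr1 : r < 1 := by
    rw [hr, ENNReal.ofReal_lt_one]
    exact Real.rpow_lt_one_of_one_lt_of_neg (by norm_num) (by linarith)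
  set D : ℝ≥0∞ := ((1 - r ^ (1 / p))⁻¹) ^ p * (1 - r)⁻¹ with hD
  have hDt : D < ⊤ := sum_pow_const_lt p hp0 r hr1
  set K0 : ℝ≥0∞ := ENNReal.ofReal (2 ^ p) * (ENNReal.ofReal (C0 ^ p) +
    D * (ENNReal.ofReal (2 ^ p) * ENNReal.ofReal (K1 + K2))) with hK0
  have hK0t : K0 < ⊤ := by
    refine ENNReal.mul_lt_top ENNReal.ofReal_lt_top (ENNReal.add_lt_top.2
      ⟨ENNReal.ofReal_lt_top, ENNReal.mul_lt_top hDt
        (ENNReal.mul_lt_top ENNReal.ofReal_lt_top ENNReal.ofReal_lt_top)⟩)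
  refine ⟨K0.toReal + 1, by positivity, ?_⟩
  intro g₀ hg₀ h
  have hmix : Measurable (mix I g₀) := (mix_cont I g₀).measurable
  set H : ℝ≥0∞ := ∫⁻ x : E n, ‖h x‖ₑ ^ p with hH
  have hfm : Measurable (𝓕 (h : E n → ℂ)) := (fou_cont h).measurable
  -- the functions on the product space
  set μ : Measure ((Fin n → ℝ) × ℝ × E n) := (volume.restrict (box n)).prod
    ((volume.restrict (Set.Icc (1 : ℝ) 2)).prod (volume : Measure (E n))) with hμ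
  set Rj : ℕ → ℝ := fun j => (2 : ℝ) ^ (j + 1) with hRj
  have hR1 : ∀ j, 1 ≤ Rj j := fun j => one_le_pow₀ (by norm_num)
  have hR0 : ∀ j, 0 < Rj j := fun j => by
    have := hR1 j
    linarith
  have hκ : ∀ j, ((Rj j)⁻¹) ^ 2 ∈ Set.Icc (0 : ℝ) 1 := fun j => by
    have h1 := inv_le_one_of_one_le₀ (hR1 j)
    have h2 : 0 ≤ (Rj j)⁻¹ := by
      have := hR0 j
      positivity
    exact ⟨by positivity, by nlinarith⟩
  set SP : ℕ → (Fin n → ℝ) × ℝ × E n → ℂ := fun j q =>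
    Complex.exp (((2 * π * q.2.1 * Ng (mix I g₀ q.1) q.2.2 : ℝ) : ℂ) * Complex.I) *
      ((m (mix I g₀ q.1) (((Rj j)⁻¹) ^ 2) ((Rj j)⁻¹ • q.2.2) : ℝ) : ℂ) *
      𝓕 (h : E n → ℂ) q.2.2 with hSP
  set SM : ℕ → (Fin n → ℝ) × ℝ × E n → ℂ := fun j q =>
    Complex.exp (((-(2 * π * q.2.1 * Ng (mix I g₀ q.1) q.2.2) : ℝ) : ℂ) * Complex.I) *
      ((m (mix I g₀ q.1) (((Rj j)⁻¹) ^ 2) ((Rj j)⁻¹ • q.2.2) : ℝ) : ℂ) *
      𝓕 (h : E n → ℂ) q.2.2 with hSM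
  have hNm : Measurable fun q : (Fin n → ℝ) × ℝ × E n => Ng (mix I g₀ q.1) q.2.2 :=
    Measurable.comp (g := fun q : (Fin n → ℝ) × E n => Ng q.1 q.2)
      (f := fun q : (Fin n → ℝ) × ℝ × E n => (mix I g₀ q.1, q.2.2)) meas_Ng (by fun_prop)
  have hmj : ∀ j, Measurable fun q : (Fin n → ℝ) × ℝ × E n =>
      m (mix I g₀ q.1) (((Rj j)⁻¹) ^ 2) ((Rj j)⁻¹ • q.2.2) := fun j =>
    Measurable.comp (g := fun q : (Fin n → ℝ) × E n => m q.1 (((Rj j)⁻¹) ^ 2) q.2)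
      (f := fun q : (Fin n → ℝ) × ℝ × E n => (mix I g₀ q.1, (Rj j)⁻¹ • q.2.2)) (hmm _)
      (by fun_prop)
  have hSPm : ∀ j, Measurable (SP j) := fun j => by
    refine Measurable.mul (Measurable.mul ?_ ?_) (hfm.comp (by fun_prop))
    · fun_prop
    · exact Complex.measurable_ofReal.comp (hmj j)
  have hSMm : ∀ j, Measurable (SM j) := fun j => by
    refine Measurable.mul (Measurable.mul ?_ ?_) (hfm.comp (by fun_prop))
    · fun_prop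
    · exact Complex.measurable_ofReal.comp (hmj j)
  set P : ℕ → (Fin n → ℝ) × ℝ × E n → ℂ := fun j q =>
    inv (fun ξ => SP j (q.1, q.2.1, ξ)) q.2.2 with hP
  set M : ℕ → (Fin n → ℝ) × ℝ × E n → ℂ := fun j q =>
    inv (fun ξ => SM j (q.1, q.2.1, ξ)) q.2.2 with hM'
  have hPm : ∀ j, Measurable (P j) := fun j => meas_inv _ (hSPm j)
  have hMm : ∀ j, Measurable (M j) := fun j => meas_inv _ (hSMm j)
  set w : ℕ → (Fin n → ℝ) × ℝ × E n → ℝ≥0∞ := fun j q =>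
    ENNReal.ofReal ((Rj j) ^ (-s)) * (‖P j q‖ₑ + ‖M j q‖ₑ) with hw
  have hwm : ∀ j, Measurable (w j) := fun j => ((hPm j).enorm.add (hMm j).enorm).const_mul _
  set Lf : (Fin n → ℝ) × ℝ × E n → ℂ := fun q =>
    inv (fun ξ => ((phi n ξ : ℝ) : ℂ) * (Λ (mix I g₀ q.1, q.2.1, ξ) *
      𝓕 (h : E n → ℂ) ξ)) q.2.2 with hLf
  have hLm : Measurable Lf := by
    have hΛ' : Measurable fun q : (Fin n → ℝ) × ℝ × E n => Λ (mix I g₀ q.1, q.2.1, q.2.2) :=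
      Measurable.comp (g := Λ) (f := fun q : (Fin n → ℝ) × ℝ × E n =>
        (mix I g₀ q.1, q.2.1, q.2.2)) hΛm (by fun_prop)
    refine meas_inv (fun q => ((phi n q.2.2 : ℝ) : ℂ) * (Λ (mix I g₀ q.1, q.2.1, q.2.2) *
      𝓕 (h : E n → ℂ) q.2.2)) ?_
    refine Measurable.mul ?_ (Measurable.mul hΛ' (hfm.comp (by fun_prop)))
    exact Complex.measurable_ofReal.comp (phi_cont.measurable.comp (by fun_prop))
  -- integrability of the pieces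
  have hSi : ∀ g ∈ box n, ∀ j, ∀ a : ℝ, Integrable fun ξ : E n =>
      Complex.exp (((a * Ng g ξ : ℝ) : ℂ) * Complex.I) *
        ((m g (((Rj j)⁻¹) ^ 2) ((Rj j)⁻¹ • ξ) : ℝ) : ℂ) * 𝓕 (h : E n → ℂ) ξ := by
    intro g hg j a
    obtain ⟨B, hB⟩ := hmb g hg (((Rj j)⁻¹) ^ 2) (hκ j)
    refine (fou_int h).bdd_mul (c := B) ?_ (Filter.Eventually.of_forall fun ξ => ?_)
    · refine Measurable.aestronglyMeasurable (Measurable.mul ?_ ?_)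
      · have := (continuous_Ng g).measurable
        fun_prop
      · exact Complex.measurable_ofReal.comp (Measurable.comp
          (g := fun q : (Fin n → ℝ) × E n => m q.1 (((Rj j)⁻¹) ^ 2) q.2)
          (f := fun ξ : E n => (g, (Rj j)⁻¹ • ξ)) (hmm _) (by fun_prop))
    · rw [norm_mul, Complex.norm_exp_ofReal_mul_I, one_mul, Complex.norm_real, Real.norm_eq_abs]
      exact hB _
  -- pointwise
  have hpt : ∀ g ∈ box n, ∀ t ∈ Set.Icc (1 : ℝ) 2, ∀ x : E n,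
      ‖inv (fun ξ => Λ (mix I g₀ g, t, ξ) * 𝓕 (h : E n → ℂ) ξ) x‖ₑ ≤ ‖Lf (g, t, x)‖ₑ +
        ∑' j, w j (g, t, x) := by
    intro g hg' t ht x
    have hg := mix_mem I g₀ g hg₀ hg'
    refine (shells _ (hΛi _ hg t ht h) x).trans (add_le_add le_rfl
      (ENNReal.tsum_le_tsum fun j => ?_))
    have e1 : (fun ξ => ((psi n (((2 : ℝ) ^ (j + 1))⁻¹ • ξ) : ℝ) : ℂ) *
        (Λ (mix I g₀ g, t, ξ) * 𝓕 (h : E n → ℂ) ξ)) = fun ξ => (((Rj j) ^ (-s) : ℝ) : ℂ) *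
        (c₁ * SP j (g, t, ξ) + c₂ * SM j (g, t, ξ)) := by
      funext ξ
      have := hΛ _ hg t ht (Rj j) (hR1 j) ξ
      simp only [hSP, hSM]
      rw [← mul_assoc]
      have e0 : ((2 : ℝ) ^ (j + 1))⁻¹ = (Rj j)⁻¹ := rfl
      rw [e0, this]
      ring
    have i1 : Integrable fun ξ => SP j (g, t, ξ) := hSi _ hg j (2 * π * t)
    have i2 : Integrable fun ξ => SM j (g, t, ξ) := by
      have := hSi _ hg j (-(2 * π * t))
      simp only [hSM]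
      simpa only [neg_mul] using this
    rw [e1, inv_const_mul, inv_add _ _ (i1.const_mul c₁) (i2.const_mul c₂), inv_const_mul,
      inv_const_mul, enorm_mul]
    simp only [hw]
    refine mul_le_mul' (le_of_eq ?_) ?_
    · rw [← ofReal_norm, Complex.norm_real, Real.norm_of_nonneg]
      have := hR0 j
      positivity
    · refine (enorm_add_le _ _).trans (add_le_add ?_ ?_)
      · rw [enorm_mul]
        refine mul_le_of_le_one_left zero_le ?_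
        rw [← ofReal_norm, ← ENNReal.ofReal_one]
        exact ENNReal.ofReal_le_ofReal hc₁
      · rw [enorm_mul]
        refine mul_le_of_le_one_left zero_le ?_
        rw [← ofReal_norm, ← ENNReal.ofReal_one]
        exact ENNReal.ofReal_le_ofReal hc₂
  -- the estimate of one shell
  have hshell : ∀ j, ∫⁻ q, w j q ^ p ∂μ ≤
      (ENNReal.ofReal (2 ^ p) * ENNReal.ofReal (K1 + K2) * H) * (r ^ j) ^ 2 := by
    intro j
    have hRp := hR0 j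
    have a1 : ∫⁻ q, ‖P j q‖ₑ ^ p ∂μ ≤
        ENNReal.ofReal (K1 * (Rj j) ^ e) * H := by
      rw [hμ, ← iter _ ((hPm j).enorm.pow_const p)]
      exact H1 g₀ hg₀ h (Rj j) (hR1 j)
    have a2 : ∫⁻ q, ‖M j q‖ₑ ^ p ∂μ ≤
        ENNReal.ofReal (K2 * (Rj j) ^ e) * H := by
      rw [hμ, ← iter _ ((hMm j).enorm.pow_const p)]
      exact H2 g₀ hg₀ h (Rj j) (hR1 j)
    calc ∫⁻ q, w j q ^ p ∂μ
        ≤ ∫⁻ q, ENNReal.ofReal ((Rj j) ^ (-s)) ^ p * (ENNReal.ofReal (2 ^ p) *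
            (‖P j q‖ₑ ^ p + ‖M j q‖ₑ ^ p)) ∂μ := by
          refine lintegral_mono fun q => ?_
          simp only [hw]
          rw [ENNReal.mul_rpow_of_nonneg _ _ hp0.le]
          exact mul_le_mul' le_rfl (add_rpow_le2 _ _ p hp0.le)
      _ = ENNReal.ofReal ((Rj j) ^ (-s)) ^ p * (ENNReal.ofReal (2 ^ p) *
            (∫⁻ q, ‖P j q‖ₑ ^ p ∂μ + ∫⁻ q, ‖M j q‖ₑ ^ p ∂μ)) := by
          rw [lintegral_const_mul' _ _ (ENNReal.rpow_ne_top_of_nonneg hp0.le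
            ENNReal.ofReal_ne_top), lintegral_const_mul' _ _ ENNReal.ofReal_ne_top,
            lintegral_add_left ((hPm j).enorm.pow_const p)]
      _ ≤ ENNReal.ofReal ((Rj j) ^ (-s)) ^ p * (ENNReal.ofReal (2 ^ p) *
            (ENNReal.ofReal (K1 * (Rj j) ^ e) * H +
              ENNReal.ofReal (K2 * (Rj j) ^ e) * H)) := by
          gcongr
      _ = (ENNReal.ofReal (2 ^ p) * ENNReal.ofReal (K1 + K2) * H) *
            ENNReal.ofReal ((Rj j) ^ (-β)) := by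
          have e3 : ENNReal.ofReal ((Rj j) ^ (-s)) ^ p *
              ENNReal.ofReal ((Rj j) ^ e) = ENNReal.ofReal ((Rj j) ^ (-β)) := by
            rw [ENNReal.ofReal_rpow_of_nonneg (by positivity) hp0.le, ← Real.rpow_mul hRp.le,
              ← ENNReal.ofReal_mul (by positivity), ← Real.rpow_add hRp]
            congr 2
            rw [← hβe]
            ring
          rw [← e3, ENNReal.ofReal_mul hK1.le, ENNReal.ofReal_mul hK2.le,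
            ENNReal.ofReal_add hK1.le hK2.le]
          ring
      _ ≤ _ := by
          refine mul_le_mul' le_rfl ?_
          rw [hr, ← ENNReal.ofReal_pow (by positivity), ← ENNReal.ofReal_pow (by positivity)]
          refine ENNReal.ofReal_le_ofReal ?_
          have e4 : (((2 : ℝ) ^ (-(β / 2))) ^ j) ^ 2 = (2 : ℝ) ^ (-(β * j)) := by
            rw [← pow_mul, ← Real.rpow_natCast, ← Real.rpow_mul (by norm_num)]
            congr 1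
            push_cast
            ring
          have e5 : (Rj j) ^ (-β) = (2 : ℝ) ^ (-(β * (j + 1))) := by
            simp only [hRj]
            rw [← Real.rpow_natCast, ← Real.rpow_mul (by norm_num)]
            congr 1
            push_cast
            ring
          rw [e4, e5]
          refine Real.rpow_le_rpow_of_exponent_le (by norm_num) ?_
          nlinarith
  have hsum := sum_pow μ w hwm p hp0 _ r hr0 hr1 hshell
  rw [← hD] at hsum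
  -- the low part
  have hlowb : ∫⁻ q, ‖Lf q‖ₑ ^ p ∂μ ≤ ENNReal.ofReal (C0 ^ p) * H := by
    rw [hμ, ← iter _ (hLm.enorm.pow_const p)]
    calc ∫⁻ g in box n, ∫⁻ t in Set.Icc (1 : ℝ) 2, ∫⁻ x : E n, ‖Lf (g, t, x)‖ₑ ^ p
        ≤ ∫⁻ g in box n, ∫⁻ t in Set.Icc (1 : ℝ) 2, ENNReal.ofReal (C0 ^ p) * H := by
          refine setLIntegral_mono' measurableSet_box fun g hg => ?_
          refine setLIntegral_mono' measurableSet_Icc fun t ht => ?_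
          have h1 := hlow _ (mix_mem I g₀ g hg₀ hg) t ht (𝓕 (h : E n → ℂ)) (fou_int h)
          rw [inv_fou h] at h1
          refine le_trans (le_of_eq ?_) h1
          refine lintegral_congr fun x => ?_
          simp only [hLf]
          congr 3
          funext ξ
          ring
      _ = ENNReal.ofReal (C0 ^ p) * H := by
          rw [setLIntegral_const, setLIntegral_const, vol_box, Real.volume_Icc]
          norm_num
  calc ∫⁻ g in box n, ∫⁻ t in Set.Icc (1 : ℝ) 2, ∫⁻ x : E n,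
        ‖inv (fun ξ => Λ (mix I g₀ g, t, ξ) * 𝓕 (h : E n → ℂ) ξ) x‖ₑ ^ p
      ≤ ∫⁻ g in box n, ∫⁻ t in Set.Icc (1 : ℝ) 2, ∫⁻ x : E n, ENNReal.ofReal (2 ^ p) *
          (‖Lf (g, t, x)‖ₑ ^ p + (∑' j, w j (g, t, x)) ^ p) := by
        refine setLIntegral_mono' measurableSet_box fun g hg => ?_
        refine setLIntegral_mono' measurableSet_Icc fun t ht => ?_
        refine lintegral_mono fun x => ?_
        exact (ENNReal.rpow_le_rpow (hpt g hg t ht x) hp0.le).trans (add_rpow_le2 _ _ p hp0.le)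
    _ = ∫⁻ q, ENNReal.ofReal (2 ^ p) * (‖Lf q‖ₑ ^ p + (∑' j, w j q) ^ p) ∂μ := by
        rw [hμ, ← iter]
        exact ((hLm.enorm.pow_const p).add ((Measurable.tsum hwm).pow_const p)).const_mul _
    _ = ENNReal.ofReal (2 ^ p) * (∫⁻ q, ‖Lf q‖ₑ ^ p ∂μ + ∫⁻ q, (∑' j, w j q) ^ p ∂μ) := by
        rw [lintegral_const_mul' _ _ ENNReal.ofReal_ne_top,
          lintegral_add_left (hLm.enorm.pow_const p)]
    _ ≤ ENNReal.ofReal (2 ^ p) * (ENNReal.ofReal (C0 ^ p) * H +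
          D * (ENNReal.ofReal (2 ^ p) * ENNReal.ofReal (K1 + K2) * H)) :=
        mul_le_mul' le_rfl (add_le_add hlowb hsum)
    _ = K0 * H := by
        rw [hK0]
        ring
    _ ≤ ENNReal.ofReal (K0.toReal + 1) * H := by
        refine mul_le_mul' ?_ le_rfl
        calc K0 = ENNReal.ofReal K0.toReal := (ENNReal.ofReal_toReal hK0t.ne).symm
          _ ≤ _ := ENNReal.ofReal_le_ofReal (by linarith)

/-- the first propagator -/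
theorem prop0J (I : Finset (Fin n)) (p : ℝ) (hp : 2 ≤ p) (s e : ℝ) (hs : e < s * p)
    (hP : ∀ a b : ℝ, PlusJ I p e (mm a b)) :
    ∃ K : ℝ, 0 < K ∧ ∀ g₀ ∈ box n, ∀ h : 𝓢(E n, ℂ),
      ∫⁻ g in box n, ∫⁻ t in Set.Icc (1 : ℝ) 2, ∫⁻ x : E n,
        ‖inv (fun ξ => L0 s (mix I g₀ g, t, ξ) * 𝓕 (h : E n → ℂ) ξ) x‖ₑ ^ p ≤
      ENNReal.ofReal K * ∫⁻ x : E n, ‖h x‖ₑ ^ p := by
  have hp1 : 1 ≤ p := by linarith
  have hE3 := Pool.Agent.T9h82.LS.e3 n (Pool.Agent.T9h82.LS.e2 n)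
  obtain ⟨C0, hC0, hLO⟩ := Pool.Agent.T9h82.LS.lo n hE3 (-s / 2) (phi n) phi_smooth
    (fun η hη => phi_zero η hη.le)
  have hε : 0 < s * p - e := by linarith
  refine genJ I p hp1 e s (s * p - e) hε (by ring) (mm (-s / 2) 0) (mm_neg _ _) (mm_meas _ _)
    (mm_bdd _ _) (hP _ _) (L0 s) (L0_meas s) (fun g _ t _ h => L0_int s g t h)
    (1 / 2) (1 / 2) (by norm_num) (by norm_num) (fun g _ t _ R hR ξ => L0_shell s g t R hR ξ)
    C0 ?_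
  intro g hg t ht
  have h1 := (hLO t ht (fun i => (g i)⁻¹) (fun i => inv_mem g hg i) p hp1).1
  have e : (fun ξ : E n => ((phi n ξ : ℝ) : ℂ) * L0 s (g, t, ξ)) =
      fun ξ => ((Real.cos (2 * π * t * Real.sqrt (Qd (fun i => (g i)⁻¹) ξ)) *
        (1 + 4 * π ^ 2 * ‖ξ‖ ^ 2) ^ (-s / 2) * phi n ξ : ℝ) : ℂ) := by
    funext ξ
    rw [sqrtQ]
    unfold L0
    push_cast
    ring
  rw [e]
  exact h1

/-- the second propagator -/
theorem prop1J (I : Finset (Fin n)) (p : ℝ) (hp : 2 ≤ p) (s e : ℝ) (hs : e < s * p)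
    (hP : ∀ a b : ℝ, PlusJ I p e (mm a b)) :
    ∃ K : ℝ, 0 < K ∧ ∀ g₀ ∈ box n, ∀ h : 𝓢(E n, ℂ),
      ∫⁻ g in box n, ∫⁻ t in Set.Icc (1 : ℝ) 2, ∫⁻ x : E n,
        ‖inv (fun ξ => L1 s (mix I g₀ g, t, ξ) * 𝓕 (h : E n → ℂ) ξ) x‖ₑ ^ p ≤
      ENNReal.ofReal K * ∫⁻ x : E n, ‖h x‖ₑ ^ p := by
  have hp1 : 1 ≤ p := by linarith
  have hE3 := Pool.Agent.T9h82.LS.e3 n (Pool.Agent.T9h82.LS.e2 n)
  obtain ⟨C0, hC0, hLO⟩ := Pool.Agent.T9h82.LS.lo n hE3 ((1 - s) / 2) (phi n) phi_smooth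
    (fun η hη => phi_zero η hη.le)
  have hε : 0 < s * p - e := by linarith
  have hc : ‖(1 / (4 * π * Complex.I) : ℂ)‖ ≤ 1 := by
    rw [norm_div, norm_mul, norm_mul, Complex.norm_I, Complex.norm_real,
      Real.norm_of_nonneg Real.pi_pos.le]
    norm_num
    have h1 := Real.pi_gt_three
    have h2 : π⁻¹ ≤ 1 := inv_le_one_of_one_le₀ (by linarith)
    linarith
  refine genJ I p hp1 e s (s * p - e) hε (by ring) (mm ((1 - s) / 2) (-(1 / 2))) (mm_neg _ _)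
    (mm_meas _ _) (mm_bdd _ _) (hP _ _) (L1 s) (L1_meas s) (fun g _ t ht h => L1_int s g t ht h)
    (1 / (4 * π * Complex.I)) (-(1 / (4 * π * Complex.I))) hc (by rw [norm_neg]; exact hc)
    (fun g hg t _ R hR ξ => L1_shell s g hg t R hR ξ) C0 ?_
  intro g hg t ht
  have h1 := (hLO t ht (fun i => (g i)⁻¹) (fun i => inv_mem g hg i) p hp1).2
  have e : (fun ξ : E n => ((phi n ξ : ℝ) : ℂ) * L1 s (g, t, ξ)) =
      fun ξ => ((Real.sin (2 * π * t * Real.sqrt (Qd (fun i => (g i)⁻¹) ξ)) /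
        (2 * π * Real.sqrt (Qd (fun i => (g i)⁻¹) ξ)) *
        (1 + 4 * π ^ 2 * ‖ξ‖ ^ 2) ^ ((1 - s) / 2) * phi n ξ : ℝ) : ℂ) := by
    funext ξ
    rw [sqrtQ]
    unfold L1
    push_cast
    ring
  rw [e]
  exact h1

/-- the wave equations of the metrics -/
theorem metricsJ (I : Finset (Fin n)) (p : ℝ) (hp : 2 ≤ p) (s e : ℝ) (hs : e < s * p)
    (hP : ∀ a b : ℝ, PlusJ I p e (mm a b)) :
    ∃ K : ℝ, 0 < K ∧ ∀ g₀ ∈ box n, ∀ u₀ u₁ : 𝓢(E n, ℂ),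
      ∫⁻ g in box n, ∫⁻ t in Set.Icc (1 : ℝ) 2, ∫⁻ x : E n,
        ‖waveg (mix I g₀ g) (𝓕 (u₀ : E n → ℂ)) (𝓕 (u₁ : E n → ℂ)) t x‖ₑ ^ p ≤
      ENNReal.ofReal K * ((∫⁻ x : E n, ‖inv (fun ξ => bes s ξ * 𝓕 (u₀ : E n → ℂ) ξ) x‖ₑ ^ p) +
        ∫⁻ x : E n, ‖inv (fun ξ => bes (s - 1) ξ * 𝓕 (u₁ : E n → ℂ) ξ) x‖ₑ ^ p) := by
  have hp0 : 0 < p := by linarith
  obtain ⟨K0, hK0, h0⟩ := prop0J I p hp s e hs hP
  obtain ⟨K1, hK1, h1⟩ := prop1J I p hp s e hs hP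
  refine ⟨2 ^ p * (K0 + K1), by positivity, ?_⟩
  intro g₀ hg₀ u₀ u₁
  have hmix : Measurable (mix I g₀) := (mix_cont I g₀).measurable
  obtain ⟨f₀, hf₀, hf₀'⟩ := mult (bes s) (bes_tg s) u₀
  obtain ⟨f₁, hf₁, hf₁'⟩ := mult (bes (s - 1)) (bes_tg (s - 1)) u₁
  have e0 : ∫⁻ x : E n, ‖inv (fun ξ => bes s ξ * 𝓕 (u₀ : E n → ℂ) ξ) x‖ₑ ^ p =
      ∫⁻ x : E n, ‖f₀ x‖ₑ ^ p := lintegral_congr fun x => by rw [hf₀' x]
  have e1 : ∫⁻ x : E n, ‖inv (fun ξ => bes (s - 1) ξ * 𝓕 (u₁ : E n → ℂ) ξ) x‖ₑ ^ p =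
      ∫⁻ x : E n, ‖f₁ x‖ₑ ^ p := lintegral_congr fun x => by rw [hf₁' x]
  rw [e0, e1]
  have hbb : ∀ (a : ℝ) (ξ : E n), (((1 + 4 * π ^ 2 * ‖ξ‖ ^ 2) ^ (-a / 2) : ℝ) : ℂ) * bes a ξ = 1 := by
    intro a ξ
    unfold bes
    rw [← Complex.ofReal_mul, ← Real.rpow_add (by positivity)]
    have : -a / 2 + a / 2 = 0 := by ring
    rw [this, Real.rpow_zero, Complex.ofReal_one]
  have hF : ∀ (g : Fin n → ℝ) (t : ℝ), t ∈ Set.Icc (1 : ℝ) 2 → ∀ x : E n,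
      waveg g (𝓕 (u₀ : E n → ℂ)) (𝓕 (u₁ : E n → ℂ)) t x =
      inv (fun ξ => L0 s (g, t, ξ) * 𝓕 (f₀ : E n → ℂ) ξ) x +
        inv (fun ξ => L1 s (g, t, ξ) * 𝓕 (f₁ : E n → ℂ) ξ) x := by
    intro g t ht x
    rw [← inv_add _ _ (L0_int s g t f₀) (L1_int s g t ht f₁)]
    unfold waveg
    congr 1
    funext ξ
    rw [hf₀ ξ, hf₁ ξ]
    unfold L0 L1
    simp only
    have b0 := hbb s ξ
    have b1 := hbb (s - 1) ξ
    have e2 : -(s - 1) / 2 = (1 - s) / 2 := by ring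
    rw [e2] at b1
    rw [Complex.ofReal_mul (Real.cos _), Complex.ofReal_mul (Real.sin _ / _)]
    linear_combination (-((Real.cos (2 * π * t * Ng g ξ) : ℝ) : ℂ) * 𝓕 (u₀ : E n → ℂ) ξ) * b0 -
      (((Real.sin (2 * π * t * Ng g ξ) / (2 * π * Ng g ξ) : ℝ) : ℂ) * 𝓕 (u₁ : E n → ℂ) ξ) * b1
  set A : (Fin n → ℝ) × ℝ × E n → ℂ := fun q =>
    inv (fun ξ => L0 s (mix I g₀ q.1, q.2.1, ξ) * 𝓕 (f₀ : E n → ℂ) ξ) q.2.2 with hA
  set B : (Fin n → ℝ) × ℝ × E n → ℂ := fun q =>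
    inv (fun ξ => L1 s (mix I g₀ q.1, q.2.1, ξ) * 𝓕 (f₁ : E n → ℂ) ξ) q.2.2 with hB
  have hAm : Measurable A := by
    refine meas_inv (fun q => L0 s (mix I g₀ q.1, q.2.1, q.2.2) * 𝓕 (f₀ : E n → ℂ) q.2.2) ?_
    refine Measurable.mul ?_ ((fou_cont f₀).measurable.comp (by fun_prop))
    exact Measurable.comp (g := L0 s) (f := fun q : (Fin n → ℝ) × ℝ × E n =>
      (mix I g₀ q.1, q.2.1, q.2.2)) (L0_meas s) (by fun_prop)
  have hBm : Measurable B := by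
    refine meas_inv (fun q => L1 s (mix I g₀ q.1, q.2.1, q.2.2) * 𝓕 (f₁ : E n → ℂ) q.2.2) ?_
    refine Measurable.mul ?_ ((fou_cont f₁).measurable.comp (by fun_prop))
    exact Measurable.comp (g := L1 s) (f := fun q : (Fin n → ℝ) × ℝ × E n =>
      (mix I g₀ q.1, q.2.1, q.2.2)) (L1_meas s) (by fun_prop)
  have a0 := h0 g₀ hg₀ f₀
  have a1 := h1 g₀ hg₀ f₁
  set μ : Measure ((Fin n → ℝ) × ℝ × E n) := (volume.restrict (box n)).prod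
    ((volume.restrict (Set.Icc (1 : ℝ) 2)).prod (volume : Measure (E n))) with hμ
  calc ∫⁻ g in box n, ∫⁻ t in Set.Icc (1 : ℝ) 2, ∫⁻ x : E n,
        ‖waveg (mix I g₀ g) (𝓕 (u₀ : E n → ℂ)) (𝓕 (u₁ : E n → ℂ)) t x‖ₑ ^ p
      ≤ ∫⁻ g in box n, ∫⁻ t in Set.Icc (1 : ℝ) 2, ∫⁻ x : E n, ENNReal.ofReal (2 ^ p) *
          (‖A (g, t, x)‖ₑ ^ p + ‖B (g, t, x)‖ₑ ^ p) := by
        refine lintegral_mono fun g => ?_
        refine setLIntegral_mono' measurableSet_Icc fun t ht => ?_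
        refine lintegral_mono fun x => ?_
        rw [hF _ t ht x]
        exact (ENNReal.rpow_le_rpow (enorm_add_le _ _) hp0.le).trans (add_rpow_le2 _ _ p hp0.le)
    _ = ENNReal.ofReal (2 ^ p) * (∫⁻ q, ‖A q‖ₑ ^ p ∂μ + ∫⁻ q, ‖B q‖ₑ ^ p ∂μ) := by
        rw [iter (fun q => ENNReal.ofReal (2 ^ p) * (‖A q‖ₑ ^ p + ‖B q‖ₑ ^ p))
          (((hAm.enorm.pow_const p).add (hBm.enorm.pow_const p)).const_mul _), ← hμ,
          lintegral_const_mul' _ _ ENNReal.ofReal_ne_top,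
          lintegral_add_left (hAm.enorm.pow_const p)]
    _ ≤ ENNReal.ofReal (2 ^ p) * (ENNReal.ofReal K0 * (∫⁻ x : E n, ‖f₀ x‖ₑ ^ p) +
          ENNReal.ofReal K1 * ∫⁻ x : E n, ‖f₁ x‖ₑ ^ p) := by
        refine mul_le_mul' le_rfl (add_le_add ?_ ?_)
        · rw [hμ, ← iter _ (hAm.enorm.pow_const p)]
          exact a0
        · rw [hμ, ← iter _ (hBm.enorm.pow_const p)]
          exact a1
    _ ≤ ENNReal.ofReal (2 ^ p) * (ENNReal.ofReal (K0 + K1) * (∫⁻ x : E n, ‖f₀ x‖ₑ ^ p) +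
          ENNReal.ofReal (K0 + K1) * ∫⁻ x : E n, ‖f₁ x‖ₑ ^ p) := by
        refine mul_le_mul' le_rfl (add_le_add ?_ ?_)
        · exact mul_le_mul' (ENNReal.ofReal_le_ofReal (by linarith)) le_rfl
        · exact mul_le_mul' (ENNReal.ofReal_le_ofReal (by linarith)) le_rfl
    _ = _ := by
        rw [← mul_add, ← mul_assoc, ← ENNReal.ofReal_mul (by positivity)]

/-- local smoothing in the mean over dilations -/
theorem finalJ (I : Finset (Fin n)) (p : ℝ) (hp : 2 ≤ p) (σ e : ℝ)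
    (hσ : e < (((n : ℝ) - 1) / 2 - ((n : ℝ) - 1) / p - σ) * p)
    (hP : ∀ a b : ℝ, PlusJ I p e (mm a b)) :
    ∃ C : ℝ, 0 < C ∧ ∀ g₀ ∈ box n, ∀ u₀ u₁ : 𝓢(E n, ℂ),
      ∫⁻ g in box n, ∫⁻ t in Set.Icc (1 : ℝ) 2, ∫⁻ x : E n,
        ‖LS5.wave (𝓕 fun x => u₀ (dilm (mix I g₀ g) x)) (𝓕 fun x => u₁ (dilm (mix I g₀ g) x)) t x‖ₑ ^ p ≤
      ENNReal.ofReal C *
        ((∫⁻ x : E n, ‖inv (fun ξ => bes (((n : ℝ) - 1) / 2 - ((n : ℝ) - 1) / p - σ) ξ *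
          𝓕 (u₀ : E n → ℂ) ξ) x‖ₑ ^ p) +
        ∫⁻ x : E n, ‖inv (fun ξ => bes (((n : ℝ) - 1) / 2 - ((n : ℝ) - 1) / p - σ - 1) ξ *
          𝓕 (u₁ : E n → ℂ) ξ) x‖ₑ ^ p) := by
  obtain ⟨K, hK, h⟩ := metricsJ I p hp _ e hσ hP
  set c : ℝ := (2 : ℝ) ^ n with hc
  refine ⟨c * K, by positivity, ?_⟩
  intro g₀ hg₀ u₀ u₁
  calc ∫⁻ g in box n, ∫⁻ t in Set.Icc (1 : ℝ) 2, ∫⁻ x : E n,
        ‖LS5.wave (𝓕 fun x => u₀ (dilm (mix I g₀ g) x)) (𝓕 fun x => u₁ (dilm (mix I g₀ g) x)) t x‖ₑ ^ p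
      ≤ ∫⁻ g in box n, ∫⁻ t in Set.Icc (1 : ℝ) 2, ENNReal.ofReal c * ∫⁻ x : E n,
          ‖waveg (mix I g₀ g) (𝓕 (u₀ : E n → ℂ)) (𝓕 (u₁ : E n → ℂ)) t x‖ₑ ^ p := by
        refine setLIntegral_mono' measurableSet_box fun g hg => lintegral_mono fun t => ?_
        have hm := mix_mem I g₀ g hg₀ hg
        simp only
        rw [Pool.Agent.T9h67.LS.dil n (mix I g₀ g) (fun i => by linarith [(hm i).1]) u₀ u₁ t p
          (by linarith)]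
        refine mul_le_mul' (ENNReal.ofReal_le_ofReal ?_) le_rfl
        calc ∏ i, Real.sqrt (mix I g₀ g i) ≤ ∏ i : Fin n, (2 : ℝ) := by
              refine Finset.prod_le_prod (fun i _ => Real.sqrt_nonneg _) fun i _ => ?_
              rw [Real.sqrt_le_left (by norm_num)]
              linarith [(hm i).2]
          _ = c := by
              rw [hc]
              simp
    _ = ENNReal.ofReal c * ∫⁻ g in box n, ∫⁻ t in Set.Icc (1 : ℝ) 2, ∫⁻ x : E n,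
          ‖waveg (mix I g₀ g) (𝓕 (u₀ : E n → ℂ)) (𝓕 (u₁ : E n → ℂ)) t x‖ₑ ^ p := by
        rw [← lintegral_const_mul' _ _ ENNReal.ofReal_ne_top]
        refine lintegral_congr fun g => ?_
        rw [← lintegral_const_mul' _ _ ENNReal.ofReal_ne_top]
    _ ≤ ENNReal.ofReal c * (ENNReal.ofReal K * _) := mul_le_mul' le_rfl (h g₀ hg₀ u₀ u₁)
    _ = _ := by
        rw [← mul_assoc, ← ENNReal.ofReal_mul (by positivity)]


theorem mix_univ (g₀ g : Fin n → ℝ) : mix Finset.univ g₀ g = g := by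
  funext i
  simp [mix]

theorem plusJ_of (p e : ℝ) (h : HiP n p e) (a b : ℝ) : PlusJ Finset.univ p e (mm (n := n) a b) := by
  obtain ⟨K, hK, h1⟩ := h a b
  refine ⟨K, hK, fun g₀ _ f R hR => ?_⟩
  simpa only [mix_univ] using h1 f R hR

lemma exs_lt (n : ℕ) (p σ : ℝ) (hp : 2 ≤ p)
    (hσ : σ < ((n : ℝ) - 1) * min (1 / 2 - 1 / p) (1 / p)) :
    exs n p < (((n : ℝ) - 1) / 2 - ((n : ℝ) - 1) / p - σ) * p := by
  have hp0 : 0 < p := by linarith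
  have h1 : (((n : ℝ) - 1) / 2 - ((n : ℝ) - 1) / p - σ) * p =
      ((n : ℝ) - 1) * ((p - 2) / 2) - σ * p := by
    field_simp
  rw [h1]
  unfold exs
  split_ifs with h
  · have h2 : min (1 / 2 - 1 / p) (1 / p) = 1 / 2 - 1 / p := by
      refine min_eq_left ?_
      have : 1 / 4 ≤ 1 / p := one_div_le_one_div_of_le hp0 h
      linarith
    rw [h2] at hσ
    have h3 : σ * p < ((n : ℝ) - 1) * ((p - 2) / 2) := by
      calc σ * p < (((n : ℝ) - 1) * (1 / 2 - 1 / p)) * p := mul_lt_mul_of_pos_right hσ hp0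
        _ = _ := by field_simp
    linarith
  · push Not at h
    have h2 : min (1 / 2 - 1 / p) (1 / p) = 1 / p := by
      refine min_eq_right ?_
      have : 1 / p ≤ 1 / 4 := one_div_le_one_div_of_le (by norm_num) h.le
      linarith
    rw [h2] at hσ
    have h3 : σ * p < (n : ℝ) - 1 := by
      calc σ * p < (((n : ℝ) - 1) * (1 / p)) * p := mul_lt_mul_of_pos_right hσ hp0
        _ = _ := by field_simp
    linarith

/-- sharp local smoothing in the mean over dilations -/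
theorem finalS (hP : ∀ (p : ℝ), 2 ≤ p → ∀ ε : ℝ, 0 < ε → HiP n p (exs n p + ε)) (p : ℝ)
    (hp : 2 ≤ p) (σ : ℝ) (hσ : σ < ((n : ℝ) - 1) * min (1 / 2 - 1 / p) (1 / p)) :
    ∃ C : ℝ, 0 < C ∧ ∀ u₀ u₁ : 𝓢(E n, ℂ),
      ∫⁻ g in box n, ∫⁻ t in Set.Icc (1 : ℝ) 2, ∫⁻ x : E n,
        ‖LS5.wave (𝓕 fun x => u₀ (dilm g x)) (𝓕 fun x => u₁ (dilm g x)) t x‖ₑ ^ p ≤
      ENNReal.ofReal C *
        ((∫⁻ x : E n, ‖inv (fun ξ => bes (((n : ℝ) - 1) / 2 - ((n : ℝ) - 1) / p - σ) ξ *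
          𝓕 (u₀ : E n → ℂ) ξ) x‖ₑ ^ p) +
        ∫⁻ x : E n, ‖inv (fun ξ => bes (((n : ℝ) - 1) / 2 - ((n : ℝ) - 1) / p - σ - 1) ξ *
          𝓕 (u₁ : E n → ℂ) ξ) x‖ₑ ^ p) := by
  have h1 := exs_lt n p σ hp hσ
  set T : ℝ := (((n : ℝ) - 1) / 2 - ((n : ℝ) - 1) / p - σ) * p with hT
  obtain ⟨C, hC, h⟩ := finalJ Finset.univ p hp σ (exs n p + (T - exs n p) / 2)
    (by rw [← hT]; linarith) (plusJ_of p _ (hP p hp _ (by linarith)))
  refine ⟨C, hC, fun u₀ u₁ => ?_⟩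
  have h2 := h (fun _ => 1) (fun i => ⟨le_rfl, by norm_num⟩) u₀ u₁
  simpa only [mix_univ] using h2

end Pool.Agent.T9h44.LG
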