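import Mathlib

/-!
# Sharp local smoothing in 2+1 dimensions for exact solutions (helper44): definitions
-/

set_option autoImplicit false

namespace Pool.Agent.T9h44.LG

open MeasureTheory Real
open scoped ENNReal ComplexConjugate

/-- `exp(2πi a)` -/
noncomputable def ee (a : ℝ) : ℂ := Complex.exp (((2 * π * a : ℝ) : ℂ) * Complex.I)

/-- the function on the plane `(t, x)` with the Fourier transform `G(w, ξ)` -/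
noncomputable def Ext (G : ℝ × ℝ → ℂ) (z : ℝ × ℝ) : ℂ :=
  ∫ ζ : ℝ × ℝ, ee (z.1 * ζ.1 + z.2 * ζ.2) * G ζ

/-- bounded, measurable, compactly supported -/
def Nice (G : ℝ × ℝ → ℂ) : Prop :=
  Measurable G ∧ (∃ B : ℝ, ∀ ζ, ‖G ζ‖ ≤ B) ∧ ∃ r : ℝ, ∀ ζ, G ζ ≠ 0 → |ζ.1| ≤ r ∧ |ζ.2| ≤ r

/-- the domain `1 ≤ w ≤ 1 + δ`, `|ξ| ≤ 8 w` -/
def Dom (δ : ℝ) : Set (ℝ × ℝ) := {ζ | 1 ≤ ζ.1 ∧ ζ.1 ≤ 1 + δ ∧ |ζ.2| ≤ 8 * ζ.1}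

/-- the class of the Fourier transforms -/
def Cls (δ : ℝ) (G : ℝ × ℝ → ℂ) : Prop := Nice G ∧ ∀ ζ, G ζ ≠ 0 → ζ ∈ Dom δ

/-- the phase `ξ²/w` -/
noncomputable def qq (ζ : ℝ × ℝ) : ℝ := ζ.2 ^ 2 / ζ.1

/-- the propagator `exp(2πi γ ξ²/w)` -/
noncomputable def Uo (γ : ℝ) (G : ℝ × ℝ → ℂ) (ζ : ℝ × ℝ) : ℂ := ee (γ * qq ζ) * G ζ

/-- the slope `ξ/w` -/
noncomputable def al (ζ : ℝ × ℝ) : ℝ := ζ.2 / ζ.1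

/-- the weight `(1+x²)^(-2)` -/
noncomputable def om (x : ℝ) : ℝ := ((1 + x ^ 2) ^ 2)⁻¹

/-- the weight `(1+x²)^(-3)` -/
noncomputable def psi3 (x : ℝ) : ℝ := ((1 + x ^ 2) ^ 3)⁻¹

/-- the normalised weight of the frame with the slope `α`, adapted to a `ρ` by `ρ/s` rectangle -/
noncomputable def Wt (α s ρ : ℝ) (z : ℝ × ℝ) : ℝ :=
  s / ρ ^ 2 * (om ((z.1 + α * z.2) / ρ) * om (s * z.2 / ρ))

/-- the local average -/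
noncomputable def Av (α s ρ : ℝ) (u : ℝ × ℝ → ℝ≥0∞) (z : ℝ × ℝ) : ℝ≥0∞ :=
  ∫⁻ z' : ℝ × ℝ, ENNReal.ofReal (Wt α s ρ (z - z')) * u z'

/-- `|V|²` at the time `γ` -/
noncomputable def sq (G : ℝ × ℝ → ℂ) (z : ℝ × ℝ) : ℝ≥0∞ := ‖Ext G z‖ₑ ^ 2

/-- the functional -/
noncomputable def TT (ρ R : ℝ) (G : ℝ × ℝ → ℂ) : ℝ≥0∞ :=
  ∫⁻ γ : ℝ, ENNReal.ofReal (psi3 (γ / R)) * ∫⁻ z : ℝ × ℝ, Av 0 1 ρ (sq (Uo γ G)) z ^ 2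

/-- the step function of the partition -/
noncomputable def chi (x : ℝ) : ℝ := Real.smoothTransition (x + 1) - Real.smoothTransition x

/-- the wide cutoff: `1` on `[-7, 7]`, `0` off `[-8, 8]` -/
noncomputable def wid (x : ℝ) : ℝ := Real.smoothTransition (8 - x) * Real.smoothTransition (8 + x)

/-- the piece of `G` of the slopes in `[(i-1)/2^m, (i+1)/2^m]` -/
noncomputable def Gp (m : ℕ) (i : ℤ) (G : ℝ × ℝ → ℂ) (ζ : ℝ × ℝ) : ℂ :=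
  ((chi (2 ^ m * al ζ - i) : ℝ) : ℂ) * G ζ

/-- the piece of `G` of the slopes near `j/2^k` (at a distance at most `8/2^k`) -/
noncomputable def Gw (k : ℕ) (j : ℤ) (G : ℝ × ℝ → ℂ) (ζ : ℝ × ℝ) : ℂ :=
  ((wid (2 ^ k * al ζ - j) : ℝ) : ℂ) * G ζ

/-- the frame change -/
noncomputable def fr (α s : ℝ) (G : ℝ × ℝ → ℂ) (ζ : ℝ × ℝ) : ℂ := G (ζ.1, ζ.1 * α + s * ζ.2)

/-- the properties of the band limited weight -/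
def Kap (κ κh : ℝ → ℝ) : Prop :=
  Continuous κ ∧ Continuous κh ∧ (∀ x, 0 ≤ κ x) ∧ (∃ C : ℝ, ∀ x, κ x ≤ C * psi3 x) ∧
  (∃ c : ℝ, 0 < c ∧ ∀ x, |x| ≤ c → c ≤ κ x) ∧ (∀ ξ, 1 ≤ |ξ| → κh ξ = 0) ∧ (∀ ξ, 0 ≤ κh ξ) ∧
  (∃ c : ℝ, 0 < c ∧ ∀ ξ, |ξ| ≤ 1 / 4 → c ≤ κh ξ) ∧
  ∀ ξ, ∫ x : ℝ, ee (-(x * ξ)) * ((κ x : ℝ) : ℂ) = ((κh ξ : ℝ) : ℂ)

/-- the band limited weight of a frame -/
noncomputable def Fe (κ : ℝ → ℝ) (α s ρ : ℝ) (z : ℝ × ℝ) : ℝ :=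
  s / ρ ^ 2 * (κ ((z.1 + α * z.2) / ρ) * κ (s * z.2 / ρ))

/-- the cross correlation: the Fourier transform of `Ext A * conj (Ext B)` -/
noncomputable def cc (A B : ℝ × ℝ → ℂ) (h : ℝ × ℝ) : ℂ := ∫ ζ : ℝ × ℝ, A (ζ + h) * conj (B ζ)

/-- the phase of the correlation -/
noncomputable def ph (h ζ : ℝ × ℝ) : ℝ := qq (ζ + h) - qq ζ

/-- the model of the phase as a function of the slope -/
noncomputable def pp (h : ℝ × ℝ) (β : ℝ) : ℝ := 2 * β * h.2 - β ^ 2 * h.1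

/-- the dyadic interval `[j/2^k, (j+1)/2^k]` is good for `h` -/
def good (m : ℕ) (h : ℝ × ℝ) (k : ℕ) (j : ℤ) : Prop :=
  |h.2 - j / 2 ^ k * h.1| ≤ 16 * 2 ^ k / 4 ^ m ∧ |h.2 - (j + 1) / 2 ^ k * h.1| ≤ 16 * 2 ^ k / 4 ^ m

/-- maximal good dyadic interval -/
def gmax (m : ℕ) (h : ℝ × ℝ) (k : ℕ) (j : ℤ) : Prop :=
  k ≤ m ∧ good m h k j ∧ (k = 0 ∨ ¬ good m h (k - 1) (j / 2))

end Pool.Agent.T9h44.LG
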