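import Pool.Agent.T9h44.LG.Spec
import Pool.Agent.T9h31.LG.Planch
import Pool.Agent.T9h89.LG.Far

/-!
# Sharp local smoothing in 2+1 dimensions (helper44): tools of the assembly (PA)
-/

set_option autoImplicit false

namespace Pool.Agent.T9h44.LG

open MeasureTheory Real Pool.Agent.T9h31.LG
open scoped ENNReal ComplexConjugate

/-- the product with a bounded measurable function -/
lemma Nice.mulb {G : ℝ × ℝ → ℂ} (hG : Nice G) {f : ℝ × ℝ → ℂ} (hf : Measurable f) (B : ℝ)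
    (hB : ∀ ζ, ‖f ζ‖ ≤ B) : Nice (fun ζ => f ζ * G ζ) := by
  obtain ⟨h1, ⟨D, hD⟩, r, hr⟩ := hG
  refine ⟨hf.mul h1, ⟨|B| * |D|, fun ζ => ?_⟩, r, fun ζ hζ => hr ζ (right_ne_zero_of_mul hζ)⟩
  rw [norm_mul]
  exact mul_le_mul ((hB ζ).trans (le_abs_self B)) ((hD ζ).trans (le_abs_self D)) (norm_nonneg _)
    (abs_nonneg _)

lemma meas_chi : Measurable chi := by
  unfold chi
  have := (Real.smoothTransition.continuous).measurable
  fun_prop

lemma meas_wid : Measurable wid := by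
  unfold wid
  have := (Real.smoothTransition.continuous).measurable
  fun_prop

lemma chi_bd (x : ℝ) : |chi x| ≤ 1 := by
  unfold chi
  have h1 := Real.smoothTransition.nonneg (x + 1)
  have h2 := Real.smoothTransition.le_one (x + 1)
  have h3 := Real.smoothTransition.nonneg x
  have h4 := Real.smoothTransition.le_one x
  rw [abs_le]
  constructor <;> linarith

lemma wid_bd (x : ℝ) : |wid x| ≤ 1 := by
  unfold wid
  have h1 := Real.smoothTransition.nonneg (8 - x)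
  have h2 := Real.smoothTransition.le_one (8 - x)
  have h3 := Real.smoothTransition.nonneg (8 + x)
  have h4 := Real.smoothTransition.le_one (8 + x)
  rw [abs_of_nonneg (by positivity)]
  exact mul_le_one₀ h2 h3 h4

lemma meas_al : Measurable al := by
  unfold al
  fun_prop

lemma meas_qq : Measurable qq := by
  unfold qq
  fun_prop

lemma nice_Gp {G : ℝ × ℝ → ℂ} (hG : Nice G) (m : ℕ) (i : ℤ) : Nice (Gp m i G) := by
  refine hG.mulb (f := fun ζ => ((chi (2 ^ m * al ζ - i) : ℝ) : ℂ)) ?_ 1 fun ζ => ?_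
  · have h1 := meas_chi
    have h2 := meas_al
    exact Complex.measurable_ofReal.comp (h1.comp ((h2.const_mul _).sub_const _))
  · rw [Complex.norm_real]
    exact chi_bd _

lemma nice_Gw {G : ℝ × ℝ → ℂ} (hG : Nice G) (k : ℕ) (j : ℤ) : Nice (Gw k j G) := by
  refine hG.mulb (f := fun ζ => ((wid (2 ^ k * al ζ - j) : ℝ) : ℂ)) ?_ 1 fun ζ => ?_
  · have h1 := meas_wid
    have h2 := meas_al
    exact Complex.measurable_ofReal.comp (h1.comp ((h2.const_mul _).sub_const _))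
  · rw [Complex.norm_real]
    exact wid_bd _

lemma nice_Uo {G : ℝ × ℝ → ℂ} (hG : Nice G) (γ : ℝ) : Nice (Uo γ G) := by
  refine hG.mulb (f := fun ζ => ee (γ * qq ζ)) ?_ 1 fun ζ => ?_
  · exact measurable_ee.comp (meas_qq.const_mul γ)
  · rw [norm_ee]

lemma cls_Uo {δ : ℝ} {G : ℝ × ℝ → ℂ} (hG : Cls δ G) (γ : ℝ) : Cls δ (Uo γ G) :=
  ⟨nice_Uo hG.1 γ, fun ζ hζ => hG.2 ζ (right_ne_zero_of_mul hζ)⟩

lemma nice_zero : Nice (fun _ => 0) :=
  ⟨measurable_const, ⟨0, fun ζ => by simp⟩, 0, fun ζ h => absurd rfl h⟩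

/-- telescoping sums over integers -/
lemma sum_tele (g : ℤ → ℝ) (a b : ℤ) (h : a ≤ b) :
    ∑ i ∈ Finset.Icc a b, (g i - g (i + 1)) = g a - g (b + 1) := by
  induction b, h using Int.leInduction with
  | base => simp
  | succ b hb ih =>
    have e : Finset.Icc a (b + 1) = insert (b + 1) (Finset.Icc a b) := by
      ext x
      simp only [Finset.mem_insert, Finset.mem_Icc]
      omega
    rw [e, Finset.sum_insert (by simp), ih]
    ring

/-- the pieces of slope -/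
lemma sum_chi (m : ℕ) (x : ℝ) (hx : |x| ≤ 8) :
    ∑ i ∈ Finset.Icc (-(9 * 2 ^ m) : ℤ) (9 * 2 ^ m), chi (2 ^ m * x - i) = 1 := by
  have h2 : (0 : ℝ) < 2 ^ m := by positivity
  have h21 : (1 : ℝ) ≤ 2 ^ m := one_le_pow₀ (by norm_num)
  have hZ : (0 : ℤ) ≤ 9 * 2 ^ m := by positivity
  have h := sum_tele (fun i => Real.smoothTransition (2 ^ m * x - i + 1)) (-(9 * 2 ^ m))
    (9 * 2 ^ m) (by linarith)
  have e : ∀ i : ℤ, chi (2 ^ m * x - i) = Real.smoothTransition (2 ^ m * x - i + 1) -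
      Real.smoothTransition (2 ^ m * x - ((i + 1 : ℤ) : ℝ) + 1) := by
    intro i
    unfold chi
    push_cast
    congr 2
    ring
  rw [Finset.sum_congr rfl fun i _ => e i, h]
  have hx' := abs_le.1 hx
  rw [Real.smoothTransition.one_of_one_le, Real.smoothTransition.zero_of_nonpos]
  · ring
  · push_cast
    nlinarith
  · push_cast
    nlinarith

/-- `G` is the sum of its pieces -/
lemma sum_Gp {G : ℝ × ℝ → ℂ} (m : ℕ) (hG : ∀ ζ, G ζ ≠ 0 → |al ζ| ≤ 8) (ζ : ℝ × ℝ) :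
    ∑ i ∈ Finset.Icc (-(9 * 2 ^ m) : ℤ) (9 * 2 ^ m), Gp m i G ζ = G ζ := by
  unfold Gp
  rw [← Finset.sum_mul]
  by_cases h : G ζ = 0
  · rw [h, mul_zero]
  · rw [← Complex.ofReal_sum, sum_chi m _ (hG ζ h), Complex.ofReal_one, one_mul]

/-- the integrand of the correlation is integrable -/
lemma cc_int {A B : ℝ × ℝ → ℂ} (hA : Nice A) (hB : Nice B) (h : ℝ × ℝ) :
    Integrable fun ζ => A (ζ + h) * conj (B ζ) := by
  obtain ⟨D, hD⟩ := hA.2.1
  have h1 : Integrable fun ζ => conj (B ζ) := by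
    have := Nice.integrable hB
    exact Complex.conjCLE.toContinuousLinearMap.integrable_comp this
  refine h1.bdd_mul (c := D) ?_ (Filter.Eventually.of_forall fun ζ => hD _)
  exact (hA.1.comp (by fun_prop : Measurable fun ζ : ℝ × ℝ => ζ + h)).aestronglyMeasurable

/-- the correlation is the sum over the pieces -/
lemma cc_sum {V : ℝ × ℝ → ℂ} (hV : Nice V) (m : ℕ) (h8 : ∀ ζ, V ζ ≠ 0 → |al ζ| ≤ 8)
    (h : ℝ × ℝ) : cc V V h = ∑ i₁ ∈ Finset.Icc (-(9 * 2 ^ m) : ℤ) (9 * 2 ^ m),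
      ∑ i₂ ∈ Finset.Icc (-(9 * 2 ^ m) : ℤ) (9 * 2 ^ m), cc (Gp m i₁ V) (Gp m i₂ V) h := by
  unfold cc
  have e : ∀ ζ, V (ζ + h) * conj (V ζ) = ∑ i₁ ∈ Finset.Icc (-(9 * 2 ^ m) : ℤ) (9 * 2 ^ m),
      ∑ i₂ ∈ Finset.Icc (-(9 * 2 ^ m) : ℤ) (9 * 2 ^ m),
        Gp m i₁ V (ζ + h) * conj (Gp m i₂ V ζ) := by
    intro ζ
    simp_rw [← Finset.mul_sum]
    rw [← Finset.sum_mul, ← map_sum, sum_Gp m h8, sum_Gp m h8]
  simp_rw [e]
  rw [integral_finsetSum _ fun i₁ _ => integrable_finsetSum _ fun i₂ _ =>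
    cc_int (nice_Gp hV m i₁) (nice_Gp hV m i₂) h]
  refine Finset.sum_congr rfl fun i₁ _ => ?_
  rw [integral_finsetSum _ fun i₂ _ => cc_int (nice_Gp hV m i₁) (nice_Gp hV m i₂) h]

/-- joint measurability -/
lemma meas_Ext2 {X : Type*} [MeasurableSpace X] {F : X → ℝ × ℝ → ℂ}
    (hF : Measurable fun p : X × (ℝ × ℝ) => F p.1 p.2) :
    Measurable fun p : X × (ℝ × ℝ) => Ext (F p.1) p.2 := by
  unfold Ext
  have h1 : Measurable fun q : (X × (ℝ × ℝ)) × (ℝ × ℝ) =>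
      ee (q.1.2.1 * q.2.1 + q.1.2.2 * q.2.2) * F q.1.1 q.2 := by
    refine Measurable.mul (measurable_ee.comp (by fun_prop)) ?_
    exact Measurable.comp (g := fun p : X × (ℝ × ℝ) => F p.1 p.2)
      (f := fun q : (X × (ℝ × ℝ)) × (ℝ × ℝ) => (q.1.1, q.2)) hF (by fun_prop)
  exact (h1.stronglyMeasurable.integral_prod_right (ν := (volume : Measure (ℝ × ℝ)))).measurable

lemma meas_cc2 {X : Type*} [MeasurableSpace X] {A B : X → ℝ × ℝ → ℂ}
    (hA : Measurable fun p : X × (ℝ × ℝ) => A p.1 p.2)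
    (hB : Measurable fun p : X × (ℝ × ℝ) => B p.1 p.2) :
    Measurable fun p : X × (ℝ × ℝ) => cc (A p.1) (B p.1) p.2 := by
  unfold cc
  have h1 : Measurable fun q : (X × (ℝ × ℝ)) × (ℝ × ℝ) =>
      A q.1.1 (q.2 + q.1.2) * conj (B q.1.1 q.2) := by
    refine Measurable.mul ?_ ?_
    · exact Measurable.comp (g := fun p : X × (ℝ × ℝ) => A p.1 p.2)
        (f := fun q : (X × (ℝ × ℝ)) × (ℝ × ℝ) => (q.1.1, q.2 + q.1.2)) hA (by fun_prop)
    · refine Complex.continuous_conj.measurable.comp ?_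
      exact Measurable.comp (g := fun p : X × (ℝ × ℝ) => B p.1 p.2)
        (f := fun q : (X × (ℝ × ℝ)) × (ℝ × ℝ) => (q.1.1, q.2)) hB (by fun_prop)
  exact (h1.stronglyMeasurable.integral_prod_right (ν := (volume : Measure (ℝ × ℝ)))).measurable

lemma meas_Uo2 {G : ℝ × ℝ → ℂ} (hG : Measurable G) :
    Measurable fun p : ℝ × (ℝ × ℝ) => Uo p.1 G p.2 := by
  unfold Uo
  refine Measurable.mul (measurable_ee.comp ?_) (hG.comp measurable_snd)
  exact measurable_fst.mul (meas_qq.comp measurable_snd)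

lemma meas_GpUo {G : ℝ × ℝ → ℂ} (hG : Measurable G) (m : ℕ) (i : ℤ) :
    Measurable fun p : ℝ × (ℝ × ℝ) => Gp m i (Uo p.1 G) p.2 := by
  unfold Gp
  refine Measurable.mul (Complex.measurable_ofReal.comp (meas_chi.comp ?_)) (meas_Uo2 hG)
  exact ((meas_al.comp measurable_snd).const_mul _).sub_const _

lemma meas_GwUo {G : ℝ × ℝ → ℂ} (hG : Measurable G) (k : ℕ) (j : ℤ) :
    Measurable fun p : ℝ × (ℝ × ℝ) => Gw k j (Uo p.1 G) p.2 := by
  unfold Gw
  refine Measurable.mul (Complex.measurable_ofReal.comp (meas_wid.comp ?_)) (meas_Uo2 hG)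
  exact ((meas_al.comp measurable_snd).const_mul _).sub_const _

lemma meas_om : Measurable om := by
  unfold om
  fun_prop

lemma meas_Wt (α s ρ : ℝ) : Measurable (Wt α s ρ) := by
  unfold Wt
  have := meas_om
  exact ((this.comp (by fun_prop)).mul (this.comp (by fun_prop))).const_mul _

/-- joint measurability of the averages -/
lemma meas_Av2 {X : Type*} [MeasurableSpace X] {u : X → ℝ × ℝ → ℝ≥0∞} (α s ρ : ℝ)
    (hu : Measurable fun p : X × (ℝ × ℝ) => u p.1 p.2) :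
    Measurable fun p : X × (ℝ × ℝ) => Av α s ρ (u p.1) p.2 := by
  unfold Av
  have h1 : Measurable fun q : (X × (ℝ × ℝ)) × (ℝ × ℝ) =>
      ENNReal.ofReal (Wt α s ρ (q.1.2 - q.2)) * u q.1.1 q.2 := by
    refine Measurable.mul (((meas_Wt α s ρ).comp (by fun_prop)).ennreal_ofReal) ?_
    exact Measurable.comp (g := fun p : X × (ℝ × ℝ) => u p.1 p.2)
      (f := fun q : (X × (ℝ × ℝ)) × (ℝ × ℝ) => (q.1.1, q.2)) hu (by fun_prop)
  exact h1.lintegral_prod_right'

lemma meas_sq2 {X : Type*} [MeasurableSpace X] {F : X → ℝ × ℝ → ℂ}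
    (hF : Measurable fun p : X × (ℝ × ℝ) => F p.1 p.2) :
    Measurable fun p : X × (ℝ × ℝ) => sq (F p.1) p.2 := by
  unfold sq
  exact (meas_Ext2 hF).enorm.pow_const 2

/-- measurability in the time -/
lemma meas_IAv {X : Type*} [MeasurableSpace X] {F : X → ℝ × ℝ → ℂ} (α s ρ : ℝ)
    (hF : Measurable fun p : X × (ℝ × ℝ) => F p.1 p.2) :
    Measurable fun γ : X => ∫⁻ z : ℝ × ℝ, Av α s ρ (sq (F γ)) z ^ 2 := by
  have h1 : Measurable fun p : X × (ℝ × ℝ) => Av α s ρ (sq (F p.1)) p.2 ^ 2 :=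
    (meas_Av2 (u := fun x => sq (F x)) α s ρ (meas_sq2 hF)).pow_const 2
  exact h1.lintegral_prod_right'

/-- the set of the frequencies with a given maximal good interval -/
lemma meas_gmax (m k : ℕ) (j : ℤ) : MeasurableSet {h : ℝ × ℝ | gmax m h k j} := by
  have hg : ∀ (k : ℕ) (j : ℤ), MeasurableSet {h : ℝ × ℝ | good m h k j} := by
    intro k j
    have h1 : MeasurableSet {h : ℝ × ℝ | |h.2 - j / 2 ^ k * h.1| ≤ 16 * 2 ^ k / 4 ^ m} :=
      measurableSet_le (by fun_prop) (by fun_prop)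
    have h2 : MeasurableSet {h : ℝ × ℝ | |h.2 - (j + 1) / 2 ^ k * h.1| ≤ 16 * 2 ^ k / 4 ^ m} :=
      measurableSet_le (by fun_prop) (by fun_prop)
    exact h1.inter h2
  have h1 : MeasurableSet {_h : ℝ × ℝ | k ≤ m} := MeasurableSet.const _
  have h2 : MeasurableSet {_h : ℝ × ℝ | k = 0} := MeasurableSet.const _
  exact h1.inter ((hg k j).inter (h2.union (hg (k - 1) (j / 2)).compl))

end Pool.Agent.T9h44.LG
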