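import Pool.Agent.T9h44.LG.Pa1

/-!
# Sharp local smoothing in 2+1 dimensions (helper44): one maximal interval
-/

set_option autoImplicit false

namespace Pool.Agent.T9h44.LG

open MeasureTheory Real Pool.Agent.T9h31.LG
open scoped ENNReal ComplexConjugate

/-- the range of the slopes -/
noncomputable def II (m : ℕ) : Finset ℤ := Finset.Icc (-(9 * 2 ^ m) : ℤ) (9 * 2 ^ m)

/-- the group of a dyadic interval -/
noncomputable def Nk (m k : ℕ) (j : ℤ) (c : ℤ → ℤ → ℂ) (V : ℝ × ℝ → ℂ) (h : ℝ × ℝ) : ℂ :=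
  ∑ i₁ ∈ (Finset.Icc (-(9 * 2 ^ m) : ℤ) (9 * 2 ^ m)).filter (fun i => i / 2 ^ (m - k) = j),
    ∑ i₂ ∈ Finset.Icc (-(9 * 2 ^ m) : ℤ) (9 * 2 ^ m), c i₁ i₂ * cc (Gp m i₁ V) (Gp m i₂ V) h

/-- the pairs of a group -/
noncomputable def PP (m k : ℕ) (j : ℤ) (c : ℤ → ℤ → ℂ) : Finset (ℤ × ℤ) := by
  classical
  exact (II m ×ˢ II m).filter (fun p => p.1 / 2 ^ (m - k) = j ∧ c p.1 p.2 ≠ 0)

lemma Nk_eq (m k : ℕ) (j : ℤ) (c : ℤ → ℤ → ℂ) (h01 : ∀ i₁ i₂, c i₁ i₂ = 0 ∨ c i₁ i₂ = 1)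
    (V : ℝ × ℝ → ℂ) (h : ℝ × ℝ) :
    Nk m k j c V h = ∑ p ∈ PP m k j c, cc (Gp m p.1 V) (Gp m p.2 V) h := by
  classical
  unfold Nk PP
  rw [Finset.sum_filter, Finset.sum_filter, Finset.sum_product]
  refine Finset.sum_congr rfl fun i₁ _ => ?_
  by_cases h1 : i₁ / 2 ^ (m - k) = j
  · simp only [h1, if_true, true_and]
    refine Finset.sum_congr rfl fun i₂ _ => ?_
    rcases h01 i₁ i₂ with h2 | h2
    · simp [h2]
    · simp [h2]
  · simp only [h1, if_false, false_and]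
    simp

/-- the indices near an interval -/
noncomputable def SS (m k : ℕ) (j : ℤ) : Finset ℤ :=
  Finset.Icc (j * 2 ^ (m - k) - 3) ((j + 1) * 2 ^ (m - k) + 3)

lemma mem_PP (m k : ℕ) (j : ℤ) (c : ℤ → ℤ → ℂ) (hn : ∀ i₁ i₂, c i₁ i₂ ≠ 0 → |i₁ - i₂| ≤ 3)
    (p : ℤ × ℤ) (hp : p ∈ PP m k j c) : p.1 ∈ SS m k j ∧ p.2 ∈ SS m k j ∧ |p.1 - p.2| ≤ 3 := by
  classical
  unfold PP at hp
  rw [Finset.mem_filter] at hp
  obtain ⟨-, h1, h2⟩ := hp
  have h3 := hn _ _ h2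
  have hq : (0 : ℤ) < 2 ^ (m - k) := by positivity
  have h4 : j * 2 ^ (m - k) ≤ p.1 := by
    rw [← h1]
    exact Int.ediv_mul_le _ hq.ne'
  have h5 : p.1 < (j + 1) * 2 ^ (m - k) := by
    rw [← h1]
    exact Int.lt_ediv_add_one_mul_self _ hq
  rw [abs_le] at h3
  unfold SS
  simp only [Finset.mem_Icc]
  refine ⟨⟨by linarith, by linarith⟩, ⟨by linarith [h3.1, h3.2], by linarith [h3.1, h3.2]⟩,
    abs_le.2 h3⟩

/-- counting the pairs -/
lemma sum_PP (P : Finset (ℤ × ℤ)) (S : Finset ℤ) (e : ℤ → ℝ≥0∞)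
    (hP : ∀ p ∈ P, p.1 ∈ S ∧ p.2 ∈ S ∧ |p.1 - p.2| ≤ 3) :
    ∑ p ∈ P, (e p.1 + e p.2) ≤ 14 * ∑ i ∈ S, e i := by
  classical
  have key : ∀ (f g : ℤ × ℤ → ℤ), (∀ p ∈ P, f p ∈ S ∧ |f p - g p| ≤ 3) →
      (Set.InjOn (fun p : ℤ × ℤ => (f p, g p - f p)) (P : Set (ℤ × ℤ))) →
      ∑ p ∈ P, e (f p) ≤ 7 * ∑ i ∈ S, e i := by
    intro f g h1 h2
    have e1 : ∑ p ∈ P, e (f p) =
        ∑ q ∈ P.image (fun p : ℤ × ℤ => (f p, g p - f p)), e q.1 := by
      rw [Finset.sum_image h2]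
    rw [e1]
    calc ∑ q ∈ P.image (fun p : ℤ × ℤ => (f p, g p - f p)), e q.1
        ≤ ∑ q ∈ S ×ˢ Finset.Icc (-3 : ℤ) 3, e q.1 := by
          refine Finset.sum_le_sum_of_subset fun q hq => ?_
          rw [Finset.mem_image] at hq
          obtain ⟨p, hp, rfl⟩ := hq
          have h3 := h1 p hp
          have h4 := abs_le.1 h3.2
          simp only [Finset.mem_product, Finset.mem_Icc]
          exact ⟨h3.1, by linarith, by linarith⟩
      _ = ∑ i ∈ S, 7 * e i := by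
          rw [Finset.sum_product]
          refine Finset.sum_congr rfl fun i _ => ?_
          simp only
          rw [Finset.sum_const]
          simp
      _ = _ := by rw [Finset.mul_sum]
  have k1 := key (fun p => p.1) (fun p => p.2) (fun p hp => ⟨(hP p hp).1, (hP p hp).2.2⟩)
    (fun p _ q _ h => by
      simp only [Prod.mk.injEq] at h
      ext
      · exact h.1
      · linarith [h.1, h.2])
  have k2 := key (fun p => p.2) (fun p => p.1) (fun p hp => ⟨(hP p hp).2.1, by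
      rw [abs_sub_comm]
      exact (hP p hp).2.2⟩)
    (fun p _ q _ h => by
      simp only [Prod.mk.injEq] at h
      ext
      · linarith [h.1, h.2]
      · exact h.1)
  rw [Finset.sum_add_distrib]
  calc _ ≤ 7 * ∑ i ∈ S, e i + 7 * ∑ i ∈ S, e i := add_le_add k1 k2
    _ = _ := by
      rw [← add_mul]
      norm_num

/-- the sum of the products of a group -/
lemma prod_PP (m : ℕ) (P : Finset (ℤ × ℤ)) (S : Finset ℤ)
    (hP : ∀ p ∈ P, p.1 ∈ S ∧ p.2 ∈ S ∧ |p.1 - p.2| ≤ 3) (V : ℝ × ℝ → ℂ) (z : ℝ × ℝ) :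
    ‖∑ p ∈ P, Ext (Gp m p.1 V) z * conj (Ext (Gp m p.2 V) z)‖ₑ ≤
      14 * ∑ i ∈ S, sq (Gp m i V) z := by
  calc ‖∑ p ∈ P, Ext (Gp m p.1 V) z * conj (Ext (Gp m p.2 V) z)‖ₑ
      ≤ ∑ p ∈ P, ‖Ext (Gp m p.1 V) z * conj (Ext (Gp m p.2 V) z)‖ₑ := enorm_sum_le _ _
    _ ≤ ∑ p ∈ P, (sq (Gp m p.1 V) z + sq (Gp m p.2 V) z) := by
        refine Finset.sum_le_sum fun p _ => ?_
        rw [enorm_mul]
        have h1 : ‖conj (Ext (Gp m p.2 V) z)‖ₑ = ‖Ext (Gp m p.2 V) z‖ₑ := by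
          rw [← ofReal_norm, ← ofReal_norm, RCLike.norm_conj]
        rw [h1]
        unfold sq
        set x := ‖Ext (Gp m p.1 V) z‖ₑ
        set y := ‖Ext (Gp m p.2 V) z‖ₑ
        rcases le_total x y with h | h
        · calc x * y ≤ y * y := mul_le_mul' h le_rfl
            _ ≤ _ := by
              rw [pow_two y]
              exact le_add_self
        · calc x * y ≤ x * x := mul_le_mul' le_rfl h
            _ ≤ _ := by
              rw [pow_two x]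
              exact le_self_add
    _ ≤ _ := sum_PP P S (fun i => sq (Gp m i V) z) hP

/-- the weight of a maximal good interval -/
lemma good_wt (m k : ℕ) (j : ℤ) (h : ℝ × ℝ) (hg : good m h k j) :
    |(4 : ℝ) ^ ((m : ℤ) - k - 4) * h.1| ≤ 1 / 4 ∧
      |(4 : ℝ) ^ ((m : ℤ) - k - 4) * (h.2 - j / 2 ^ k * h.1) / (1 / 2 ^ k)| ≤ 1 / 4 := by
  obtain ⟨h1, h2⟩ := hg
  have h2k : (0 : ℝ) < 2 ^ k := by positivity
  have h4m : (0 : ℝ) < 4 ^ m := by positivity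
  have e4 : (4 : ℝ) ^ k = 2 ^ k * 2 ^ k := by
    rw [← mul_pow]
    norm_num
  have eρ : (4 : ℝ) ^ ((m : ℤ) - k - 4) = 4 ^ m / (2 ^ k * 2 ^ k) / 256 := by
    rw [zpow_sub₀ (by norm_num), zpow_sub₀ (by norm_num), zpow_natCast, zpow_natCast, e4]
    norm_num
  set a : ℝ := 2 ^ k with ha
  set b : ℝ := 4 ^ m with hb
  have h3 : |h.1 / a| ≤ 32 * a / b := by
    have e1 : h.1 / a = (h.2 - j / a * h.1) - (h.2 - (j + 1) / a * h.1) := by
      field_simp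
      ring
    rw [e1]
    refine (abs_sub _ _).trans ?_
    calc _ ≤ 16 * a / b + 16 * a / b := add_le_add h1 h2
      _ = _ := by ring
  rw [abs_div, abs_of_pos h2k, div_le_iff₀ h2k] at h3
  rw [eρ]
  constructor
  · rw [abs_mul, abs_of_pos (by positivity)]
    calc b / (a * a) / 256 * |h.1| ≤ b / (a * a) / 256 * (32 * a / b * a) := by gcongr
      _ = 1 / 8 := by
        field_simp
        norm_num
      _ ≤ _ := by norm_num
  · have e2 : b / (a * a) / 256 * (h.2 - j / a * h.1) / (1 / a) =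
        b / a / 256 * (h.2 - j / a * h.1) := by
      field_simp
    rw [e2, abs_mul, abs_of_pos (by positivity)]
    calc b / a / 256 * |h.2 - j / a * h.1| ≤ b / a / 256 * (16 * a / b) := by gcongr
      _ = 1 / 16 := by
        field_simp
        norm_num
      _ ≤ _ := by norm_num

lemma Fe_nonneg {κ κh : ℝ → ℝ} (hK : Kap κ κh) (α s ρ : ℝ) (hs : 0 < s) (z : ℝ × ℝ) :
    0 ≤ Fe κ α s ρ z := by
  unfold Fe
  have h1 := hK.2.2.1
  exact mul_nonneg (div_nonneg hs.le (sq_nonneg _)) (mul_nonneg (h1 _) (h1 _))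

/-- one maximal interval -/
theorem core (hp1 : S_pl1) (hc2 : S_c2) (hlo : S_lo) {κ κh : ℝ → ℝ} (hK : Kap κ κh) :
    ∃ C : ℝ, 0 < C ∧ ∀ (m k : ℕ) (j : ℤ) (c : ℤ → ℤ → ℂ) (V : ℝ × ℝ → ℂ), k ≤ m → Nice V →
      (∀ ζ, V ζ ≠ 0 → 1 ≤ ζ.1 ∧ ζ.1 ≤ 2) → (∀ i₁ i₂, c i₁ i₂ = 0 ∨ c i₁ i₂ = 1) →
      (∀ i₁ i₂, c i₁ i₂ ≠ 0 → |i₁ - i₂| ≤ 3) →
      ∫⁻ h : ℝ × ℝ, Set.indicator {h | gmax m h k j} (fun h => ‖Nk m k j c V h‖ₑ ^ 2) h ≤
        ENNReal.ofReal C * ∫⁻ z : ℝ × ℝ, Av (j / 2 ^ k) (1 / 2 ^ k)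
          ((4 : ℝ) ^ ((m : ℤ) - k - 4)) (sq (Gw k j V)) z ^ 2 := by
  obtain ⟨C2, hC2, h2⟩ := hc2 κ κh hK
  obtain ⟨CL, hCL, hL⟩ := hlo
  obtain ⟨c0, hc0, hlow⟩ := hK.2.2.2.2.2.2.2.1
  refine ⟨(c0 ^ 4)⁻¹ * (14 * C2 * CL) ^ 2, by positivity, ?_⟩
  intro m k j c V hk hV hs h01 hn
  set α : ℝ := j / 2 ^ k with hα
  set s : ℝ := 1 / 2 ^ k with hs'
  set ρ : ℝ := (4 : ℝ) ^ ((m : ℤ) - k - 4) with hρ
  have hsp : 0 < s := by positivity
  have hρp : 0 < ρ := by positivity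
  set P := PP m k j c with hP
  have hPP := mem_PP m k j c hn
  -- the multiplier
  have ha : ∀ h : ℝ × ℝ, Set.indicator {h | gmax m h k j} (fun h => ‖Nk m k j c V h‖ₑ ^ 2) h ≤
      ENNReal.ofReal ((c0 ^ 4)⁻¹) *
        ‖((κh (ρ * h.1) * κh (ρ * (h.2 - α * h.1) / s) : ℝ) : ℂ) *
          ∑ p : P, cc (Gp m p.1.1 V) (Gp m p.1.2 V) h‖ₑ ^ 2 := by
    intro h
    by_cases hg : gmax m h k j
    · rw [Set.indicator_of_mem (by exact hg)]
      rw [Nk_eq m k j c h01 V h, ← Finset.sum_coe_sort (PP m k j c)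
        (fun p => cc (Gp m p.1 V) (Gp m p.2 V) h), enorm_mul, mul_pow, ← mul_assoc]
      refine le_mul_of_one_le_left zero_le ?_
      obtain ⟨g1, g2⟩ := good_wt m k j h hg.2.1
      have k1 := hlow _ g1
      have k2 := hlow _ g2
      rw [← ofReal_norm, Complex.norm_real, Real.norm_of_nonneg
        (mul_nonneg (hc0.le.trans k1) (hc0.le.trans k2)), ← ENNReal.ofReal_pow
        (mul_nonneg (hc0.le.trans k1) (hc0.le.trans k2)), ← ENNReal.ofReal_mul (by positivity),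
        ← ENNReal.ofReal_one]
      refine ENNReal.ofReal_le_ofReal ?_
      have k3 : c0 * c0 ≤ κh (ρ * h.1) * κh (ρ * (h.2 - α * h.1) / s) :=
        mul_le_mul k1 k2 hc0.le (hc0.le.trans k1)
      have k4 : (c0 * c0) ^ 2 ≤ (κh (ρ * h.1) * κh (ρ * (h.2 - α * h.1) / s)) ^ 2 := by
        gcongr
      calc (1 : ℝ) = (c0 ^ 4)⁻¹ * (c0 * c0) ^ 2 := by
            field_simp
        _ ≤ _ := by gcongr
    · rw [Set.indicator_of_notMem (by exact hg)]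
      exact zero_le
  refine (lintegral_mono ha).trans ?_
  rw [lintegral_const_mul' _ _ ENNReal.ofReal_ne_top,
    ← hp1 κ κh hK α s ρ hsp hρp P (fun p => Gp m p.1.1 V) (fun p => Gp m p.1.2 V)
      (fun p => nice_Gp hV m _) (fun p => nice_Gp hV m _)]
  rw [ENNReal.ofReal_mul (by positivity), mul_assoc]
  refine mul_le_mul' le_rfl ?_
  rw [← lintegral_const_mul' _ _ ENNReal.ofReal_ne_top]
  refine lintegral_mono fun z => ?_
  rw [ENNReal.ofReal_pow (by positivity), ← mul_pow]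
  refine pow_le_pow_left' ?_ 2
  calc ‖∫ z' : ℝ × ℝ, ((Fe κ α s ρ (z - z') : ℝ) : ℂ) *
        ∑ p : P, Ext (Gp m p.1.1 V) z' * conj (Ext (Gp m p.1.2 V) z')‖ₑ
      ≤ ∫⁻ z' : ℝ × ℝ, ‖((Fe κ α s ρ (z - z') : ℝ) : ℂ) *
        ∑ p : P, Ext (Gp m p.1.1 V) z' * conj (Ext (Gp m p.1.2 V) z')‖ₑ :=
        enorm_integral_le_lintegral_enorm _
    _ ≤ ∫⁻ z' : ℝ × ℝ, 14 * (ENNReal.ofReal (Fe κ α s ρ (z - z')) *
          ∑ i ∈ SS m k j, sq (Gp m i V) z') := by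
        refine lintegral_mono fun z' => ?_
        rw [enorm_mul, ← ofReal_norm, Complex.norm_real,
          Real.norm_of_nonneg (Fe_nonneg hK α s ρ hsp _)]
        rw [mul_left_comm]
        refine mul_le_mul' le_rfl ?_
        have e1 : ∑ p : P, Ext (Gp m p.1.1 V) z' * conj (Ext (Gp m p.1.2 V) z') =
            ∑ p ∈ P, Ext (Gp m p.1 V) z' * conj (Ext (Gp m p.2 V) z') :=
          Finset.sum_coe_sort P (fun p => Ext (Gp m p.1 V) z' * conj (Ext (Gp m p.2 V) z'))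
        rw [e1]
        exact prod_PP m P (SS m k j) hPP V z'
    _ = 14 * ∫⁻ z' : ℝ × ℝ, ENNReal.ofReal (Fe κ α s ρ (z - z')) *
          ∑ i ∈ SS m k j, sq (Gp m i V) z' := lintegral_const_mul' _ _ (by norm_num)
    _ ≤ 14 * (ENNReal.ofReal C2 * Av α s ρ (fun z' => ∑ i ∈ SS m k j, sq (Gp m i V) z') z) :=
        mul_le_mul' le_rfl (h2 α s ρ hsp hρp _ z)
    _ ≤ 14 * (ENNReal.ofReal C2 * (ENNReal.ofReal CL * Av α s ρ (sq (Gw k j V)) z)) := by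
        refine mul_le_mul' le_rfl (mul_le_mul' le_rfl ?_)
        refine hL m k j V hk hV hs (SS m k j) (fun i hi => ?_) z
        unfold SS at hi
        exact Finset.mem_Icc.1 hi
    _ = _ := by
        rw [ENNReal.ofReal_mul (by positivity), ENNReal.ofReal_mul (by norm_num),
          ENNReal.ofReal_ofNat]
        ring

end Pool.Agent.T9h44.LG
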