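import Pool.Agent.T9h44.LG.Pa2

/-!
# Sharp local smoothing in 2+1 dimensions (helper44): near and far pairs
-/

set_option autoImplicit false

namespace Pool.Agent.T9h44.LG

open MeasureTheory Real Pool.Agent.T9h31.LG
open scoped ENNReal ComplexConjugate

/-- the sum over the pairs -/
noncomputable def Sc (m : ℕ) (c : ℤ → ℤ → ℂ) (V : ℝ × ℝ → ℂ) (h : ℝ × ℝ) : ℂ :=
  ∑ i₁ ∈ Finset.Icc (-(9 * 2 ^ m) : ℤ) (9 * 2 ^ m),
    ∑ i₂ ∈ Finset.Icc (-(9 * 2 ^ m) : ℤ) (9 * 2 ^ m), c i₁ i₂ * cc (Gp m i₁ V) (Gp m i₂ V) h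

lemma meas_Sc {G : ℝ × ℝ → ℂ} (hG : Measurable G) (m : ℕ) (c : ℤ → ℤ → ℂ) :
    Measurable fun p : ℝ × (ℝ × ℝ) => Sc m c (Uo p.1 G) p.2 := by
  unfold Sc
  exact Finset.measurable_fun_sum _ fun i₁ _ => Finset.measurable_fun_sum _ fun i₂ _ =>
    (meas_cc2 (A := fun γ => Gp m i₁ (Uo γ G)) (B := fun γ => Gp m i₂ (Uo γ G))
      (meas_GpUo hG m i₁) (meas_GpUo hG m i₂)).const_mul _

lemma meas_Nk {G : ℝ × ℝ → ℂ} (hG : Measurable G) (m k : ℕ) (j : ℤ) (c : ℤ → ℤ → ℂ) :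
    Measurable fun p : ℝ × (ℝ × ℝ) => Nk m k j c (Uo p.1 G) p.2 := by
  unfold Nk
  exact Finset.measurable_fun_sum _ fun i₁ _ => Finset.measurable_fun_sum _ fun i₂ _ =>
    (meas_cc2 (A := fun γ => Gp m i₁ (Uo γ G)) (B := fun γ => Gp m i₂ (Uo γ G))
      (meas_GpUo hG m i₁) (meas_GpUo hG m i₂)).const_mul _

/-- the average of a piece -/
noncomputable def AV (m k : ℕ) (j : ℤ) (V : ℝ × ℝ → ℂ) : ℝ≥0∞ :=
  ∫⁻ z : ℝ × ℝ, Av (j / 2 ^ k) (1 / 2 ^ k) ((4 : ℝ) ^ ((m : ℤ) - k - 4)) (sq (Gw k j V)) z ^ 2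

/-- near pairs, all intervals -/
theorem nearp (hp1 : S_pl1) (hc2 : S_c2) (hlo : S_lo) (hnear : S_near) {κ κh : ℝ → ℝ}
    (hK : Kap κ κh) :
    ∃ C : ℝ, 0 < C ∧ ∀ (m l : ℕ) (G : ℝ × ℝ → ℂ), 1 ≤ l → Cls ((4 : ℝ) ^ l)⁻¹ G →
      ∀ c : ℤ → ℤ → ℂ, (∀ i₁ i₂, c i₁ i₂ = 0 ∨ c i₁ i₂ = 1) →
      (∀ i₁ i₂, c i₁ i₂ ≠ 0 → |i₁ - i₂| ≤ 3) → ∀ (γ₀ : ℝ) (H : Set (ℝ × ℝ)) (Km : ℕ),
      MeasurableSet H → (∀ h ∈ H, ∀ (k : ℕ) (j : ℤ), |j| ≤ 9 * 2 ^ k → gmax m h k j → k ≤ Km) →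
      ∫⁻ γ : ℝ, ENNReal.ofReal (κ ((γ - γ₀) / 4 ^ m)) * ∫⁻ h in H, ‖Sc m c (Uo γ G) h‖ₑ ^ 2 ≤
        ENNReal.ofReal C * ∑ k ∈ Finset.range (min m Km + 1),
          ∑ j ∈ Finset.Icc (-(9 * 2 ^ k) : ℤ) (9 * 2 ^ k),
            ∫⁻ γ : ℝ, ENNReal.ofReal (κ ((γ - γ₀) / 4 ^ m)) * AV m k j (Uo γ G) := by
  obtain ⟨Cn, hCn, hN⟩ := hnear κ κh hK
  obtain ⟨C1, hC1, h1⟩ := core hp1 hc2 hlo hK
  refine ⟨Cn * C1, by positivity, ?_⟩
  intro m l G hl hG c h01 hn γ₀ H Km hH hKm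
  set w : ℝ → ℝ≥0∞ := fun γ => ENNReal.ofReal (κ ((γ - γ₀) / 4 ^ m)) with hw
  have hwm : Measurable w := by
    have h0 := hK.1.measurable
    exact (h0.comp (by fun_prop)).ennreal_ofReal
  have hwt : ∀ γ, w γ ≠ ⊤ := fun γ => ENNReal.ofReal_ne_top
  have hSm := meas_Sc hG.1.1 m c
  have hs : ∀ (γ : ℝ) (ζ : ℝ × ℝ), Uo γ G ζ ≠ 0 → 1 ≤ ζ.1 ∧ ζ.1 ≤ 2 := by
    intro γ ζ hζ
    have h2 := (cls_Uo hG γ).2 ζ hζ
    refine ⟨h2.1, h2.2.1.trans ?_⟩
    have h3 : ((4 : ℝ) ^ l)⁻¹ ≤ 1 := inv_le_one_of_one_le₀ (one_le_pow₀ (by norm_num))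
    linarith
  calc ∫⁻ γ : ℝ, w γ * ∫⁻ h in H, ‖Sc m c (Uo γ G) h‖ₑ ^ 2
      = ∫⁻ γ : ℝ, ∫⁻ h in H, w γ * ‖Sc m c (Uo γ G) h‖ₑ ^ 2 := by
        refine lintegral_congr fun γ => ?_
        rw [lintegral_const_mul' _ _ (hwt γ)]
    _ = ∫⁻ h in H, ∫⁻ γ : ℝ, w γ * ‖Sc m c (Uo γ G) h‖ₑ ^ 2 := by
        refine lintegral_lintegral_swap ?_
        exact ((hwm.comp measurable_fst).mul (hSm.enorm.pow_const 2)).aemeasurable
    _ ≤ ∫⁻ h in H, ENNReal.ofReal Cn * ∑ k ∈ Finset.range (m + 1),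
        ∑ j ∈ Finset.Icc (-(9 * 2 ^ k) : ℤ) (9 * 2 ^ k),
          Set.indicator {h | gmax m h k j} (fun h =>
            ∫⁻ γ : ℝ, w γ * ‖Nk m k j c (Uo γ G) h‖ₑ ^ 2) h :=
        lintegral_mono fun h => hN m l G hl hG c h01 hn h γ₀
    _ = ENNReal.ofReal Cn * ∑ k ∈ Finset.range (m + 1),
        ∑ j ∈ Finset.Icc (-(9 * 2 ^ k) : ℤ) (9 * 2 ^ k),
          ∫⁻ h in H, Set.indicator {h | gmax m h k j} (fun h =>
            ∫⁻ γ : ℝ, w γ * ‖Nk m k j c (Uo γ G) h‖ₑ ^ 2) h := by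
        have hmj : ∀ k j, Measurable fun h => Set.indicator {h | gmax m h k j} (fun h =>
            ∫⁻ γ : ℝ, w γ * ‖Nk m k j c (Uo γ G) h‖ₑ ^ 2) h := by
          intro k j
          refine Measurable.indicator ?_ (meas_gmax m k j)
          have h2 : Measurable fun p : ℝ × (ℝ × ℝ) => w p.1 * ‖Nk m k j c (Uo p.1 G) p.2‖ₑ ^ 2 :=
            (hwm.comp measurable_fst).mul ((meas_Nk hG.1.1 m k j c).enorm.pow_const 2)
          exact h2.lintegral_prod_left'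
        rw [lintegral_const_mul' _ _ ENNReal.ofReal_ne_top,
          lintegral_finsetSum _ fun k _ => Finset.measurable_fun_sum _ fun j _ => hmj k j]
        congr 1
        refine Finset.sum_congr rfl fun k _ => ?_
        rw [lintegral_finsetSum _ fun j _ => hmj k j]
    _ ≤ ENNReal.ofReal Cn * ∑ k ∈ Finset.range (min m Km + 1),
          ∑ j ∈ Finset.Icc (-(9 * 2 ^ k) : ℤ) (9 * 2 ^ k),
            ENNReal.ofReal C1 * ∫⁻ γ : ℝ, w γ * AV m k j (Uo γ G) := by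
        refine mul_le_mul' le_rfl ?_
        have hsub : Finset.range (min m Km + 1) ⊆ Finset.range (m + 1) := by
          intro k hk
          rw [Finset.mem_range] at hk ⊢
          omega
        rw [← Finset.sum_subset hsub]
        · refine Finset.sum_le_sum fun k hk => Finset.sum_le_sum fun j _ => ?_
          have hkm : k ≤ m := by
            rw [Finset.mem_range] at hk
            omega
          calc ∫⁻ h in H, Set.indicator {h | gmax m h k j} (fun h =>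
                ∫⁻ γ : ℝ, w γ * ‖Nk m k j c (Uo γ G) h‖ₑ ^ 2) h
              ≤ ∫⁻ h, Set.indicator {h | gmax m h k j} (fun h =>
                ∫⁻ γ : ℝ, w γ * ‖Nk m k j c (Uo γ G) h‖ₑ ^ 2) h := setLIntegral_le_lintegral _ _
            _ = ∫⁻ h, ∫⁻ γ : ℝ, w γ * Set.indicator {h | gmax m h k j} (fun h =>
                ‖Nk m k j c (Uo γ G) h‖ₑ ^ 2) h := by
                refine lintegral_congr fun h => ?_
                by_cases hg : gmax m h k j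
                · rw [Set.indicator_of_mem (by exact hg)]
                  refine lintegral_congr fun γ => ?_
                  rw [Set.indicator_of_mem (by exact hg)]
                · rw [Set.indicator_of_notMem (by exact hg)]
                  have h3 : ∀ γ : ℝ, w γ * Set.indicator {h | gmax m h k j} (fun h =>
                      ‖Nk m k j c (Uo γ G) h‖ₑ ^ 2) h = 0 := by
                    intro γ
                    rw [Set.indicator_of_notMem (by exact hg), mul_zero]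
                  simp only [h3, lintegral_zero]
            _ = ∫⁻ γ : ℝ, ∫⁻ h, w γ * Set.indicator {h | gmax m h k j} (fun h =>
                ‖Nk m k j c (Uo γ G) h‖ₑ ^ 2) h := by
                refine lintegral_lintegral_swap ?_
                refine Measurable.aemeasurable ?_
                refine (hwm.comp measurable_snd).mul ?_
                have h4 : Measurable fun p : (ℝ × ℝ) × ℝ => ‖Nk m k j c (Uo p.2 G) p.1‖ₑ ^ 2 :=
                  (Measurable.comp (g := fun p : ℝ × (ℝ × ℝ) => Nk m k j c (Uo p.1 G) p.2)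
                    (f := fun p : (ℝ × ℝ) × ℝ => (p.2, p.1)) (meas_Nk hG.1.1 m k j c)
                    (by fun_prop)).enorm.pow_const 2
                have h5 : MeasurableSet {p : (ℝ × ℝ) × ℝ | gmax m p.1 k j} :=
                  measurable_fst (meas_gmax m k j)
                have e7 : (fun p : (ℝ × ℝ) × ℝ => Set.indicator {h | gmax m h k j} (fun h =>
                    ‖Nk m k j c (Uo p.2 G) h‖ₑ ^ 2) p.1) =
                    Set.indicator {p | gmax m p.1 k j}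
                      (fun p => ‖Nk m k j c (Uo p.2 G) p.1‖ₑ ^ 2) := by
                  funext p
                  by_cases hg : gmax m p.1 k j
                  · rw [Set.indicator_of_mem (by exact hg), Set.indicator_of_mem (by exact hg)]
                  · rw [Set.indicator_of_notMem (by exact hg),
                      Set.indicator_of_notMem (by exact hg)]
                have h7 : Measurable (fun p : (ℝ × ℝ) × ℝ =>
                    Set.indicator {h | gmax m h k j} (fun h =>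
                      ‖Nk m k j c (Uo p.2 G) h‖ₑ ^ 2) p.1) := by
                  rw [e7]
                  exact h4.indicator h5
                exact h7
            _ ≤ ∫⁻ γ : ℝ, w γ * (ENNReal.ofReal C1 * AV m k j (Uo γ G)) := by
                refine lintegral_mono fun γ => ?_
                rw [lintegral_const_mul' _ _ (hwt γ)]
                exact mul_le_mul' le_rfl (h1 m k j c (Uo γ G) hkm (nice_Uo hG.1 γ) (hs γ) h01 hn)
            _ = _ := by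
                rw [← lintegral_const_mul' _ _ ENNReal.ofReal_ne_top]
                refine lintegral_congr fun γ => ?_
                rw [mul_left_comm]
        · intro k hk hk2
          refine Finset.sum_eq_zero fun j hj => ?_
          have hj2 : |j| ≤ 9 * 2 ^ k := abs_le.2 (Finset.mem_Icc.1 hj)
          have hk3 : Km < k := by
            rw [Finset.mem_range] at hk hk2
            omega
          rw [lintegral_eq_zero_of_ae_eq_zero]
          filter_upwards [ae_restrict_mem hH] with h hh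
          rw [Set.indicator_of_notMem]
          · rfl
          · intro hg
            have := hKm h hh k j hj2 hg
            omega
    _ = _ := by
        simp_rw [← Finset.mul_sum]
        rw [← mul_assoc, ← ENNReal.ofReal_mul hCn.le]

/-- the diagonal pairs and all pairs -/
lemma diag (hp2 : S_pl2) {V : ℝ × ℝ → ℂ} (hV : Nice V) (m : ℕ) :
    ∑ i₁ ∈ Finset.Icc (-(9 * 2 ^ m) : ℤ) (9 * 2 ^ m),
      ∑ i₂ ∈ Finset.Icc (-(9 * 2 ^ m) : ℤ) (9 * 2 ^ m),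
        ∫⁻ h, ‖cc (Gp m i₁ V) (Gp m i₂ V) h‖ₑ ^ 2 =
      ∫⁻ h, ‖Sc m (fun i₁ i₂ => if i₁ = i₂ then 1 else 0) V h‖ₑ ^ 2 := by
  classical
  set I := Finset.Icc (-(9 * 2 ^ m) : ℤ) (9 * 2 ^ m) with hI
  have hms : ∀ i, Measurable (sq (Gp m i V)) := by
    intro i
    unfold sq
    exact ((continuous_Ext (nice_Gp hV m i)).measurable.enorm).pow_const 2
  have hmm : ∀ i₁ i₂, Measurable fun z => sq (Gp m i₁ V) z * sq (Gp m i₂ V) z :=
    fun i₁ i₂ => (hms i₁).mul (hms i₂)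
  have e1 : ∀ i₁ i₂, ∫⁻ h, ‖cc (Gp m i₁ V) (Gp m i₂ V) h‖ₑ ^ 2 =
      ∫⁻ z, sq (Gp m i₁ V) z * sq (Gp m i₂ V) z := by
    intro i₁ i₂
    have h1 := hp2 Unit (fun _ => Gp m i₁ V) (fun _ => Gp m i₂ V) (fun _ => nice_Gp hV m i₁)
      (fun _ => nice_Gp hV m i₂)
    simp only [Finset.univ_unique, Finset.sum_singleton] at h1
    rw [← h1]
    refine lintegral_congr fun z => ?_
    rw [enorm_mul, mul_pow]
    unfold sq
    congr 2
    rw [← ofReal_norm, ← ofReal_norm, RCLike.norm_conj]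
  simp_rw [e1]
  have e2 : ∀ h, Sc m (fun i₁ i₂ => if i₁ = i₂ then 1 else 0) V h =
      ∑ i : I, cc (Gp m i.1 V) (Gp m i.1 V) h := by
    intro h
    unfold Sc
    rw [Finset.sum_coe_sort I (fun i => cc (Gp m i V) (Gp m i V) h)]
    refine Finset.sum_congr rfl fun i hi => ?_
    simp only [ite_mul, one_mul, zero_mul]
    rw [Finset.sum_ite_eq]
    simp only [← hI, hi, if_true]
  simp_rw [e2]
  rw [← hp2 I (fun i => Gp m i.1 V) (fun i => Gp m i.1 V) (fun i => nice_Gp hV m _)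
    (fun i => nice_Gp hV m _)]
  have e3 : ∀ z, ‖∑ i : I, Ext (Gp m i.1 V) z * conj (Ext (Gp m i.1 V) z)‖ₑ ^ 2 =
      ∑ i₁ ∈ I, ∑ i₂ ∈ I, sq (Gp m i₁ V) z * sq (Gp m i₂ V) z := by
    intro z
    have h3 : ‖∑ i : I, Ext (Gp m i.1 V) z * conj (Ext (Gp m i.1 V) z)‖ₑ =
        ∑ i ∈ I, sq (Gp m i V) z := by
      rw [Finset.sum_coe_sort I (fun i => Ext (Gp m i V) z * conj (Ext (Gp m i V) z))]
      simp_rw [Complex.mul_conj]
      rw [← Complex.ofReal_sum, ← ofReal_norm, Complex.norm_real, Real.norm_of_nonneg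
        (Finset.sum_nonneg fun i _ => Complex.normSq_nonneg _),
        ENNReal.ofReal_sum_of_nonneg fun i _ => Complex.normSq_nonneg _]
      refine Finset.sum_congr rfl fun i _ => ?_
      unfold sq
      rw [Complex.normSq_eq_norm_sq, ENNReal.ofReal_pow (norm_nonneg _), ofReal_norm]
    rw [h3, pow_two, Finset.sum_mul_sum]
  simp_rw [e3]
  rw [lintegral_finsetSum _ fun i₁ _ => Finset.measurable_fun_sum _ fun i₂ _ => hmm i₁ i₂]
  refine Finset.sum_congr rfl fun i₁ _ => ?_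
  rw [lintegral_finsetSum _ fun i₂ _ => hmm i₁ i₂]

/-- the coefficients of the far pairs -/
noncomputable def cf (i₁ i₂ : ℤ) : ℂ := if |i₁ - i₂| ≤ 3 then (0 : ℂ) else 1

/-- the coefficients of the near pairs -/
noncomputable def cn (i₁ i₂ : ℤ) : ℂ := if |i₁ - i₂| ≤ 3 then (1 : ℂ) else 0

/-- the frequency set -/
def HH (a : ℕ) : Set (ℝ × ℝ) := {h | |h.1| ≤ ((4 : ℝ) ^ a)⁻¹ ∧ |h.2| ≤ ((4 : ℝ) ^ a)⁻¹}

lemma meas_HH (a : ℕ) : MeasurableSet (HH a) := by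
  have h1 : MeasurableSet {h : ℝ × ℝ | |h.1| ≤ ((4 : ℝ) ^ a)⁻¹} :=
    measurableSet_le (by fun_prop) (by fun_prop)
  have h2 : MeasurableSet {h : ℝ × ℝ | |h.2| ≤ ((4 : ℝ) ^ a)⁻¹} :=
    measurableSet_le (by fun_prop) (by fun_prop)
  exact h1.inter h2

/-- far pairs -/
theorem farq (hp1 : S_pl1) (hp2 : S_pl2) (hc2 : S_c2) (hlo : S_lo) (hnear : S_near)
    (hfar : S_farp) {κ κh : ℝ → ℝ} (hK : Kap κ κh) :
    ∃ C : ℝ, 0 < C ∧ ∀ (a l : ℕ) (G : ℝ × ℝ → ℂ), 1 ≤ l → Cls ((4 : ℝ) ^ l)⁻¹ G →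
      ∀ (γ₀ : ℝ),
      ∫⁻ γ : ℝ, ENNReal.ofReal (κ ((γ - γ₀) / 4 ^ (a + l))) *
          ∫⁻ h in HH a, ‖Sc (a + l) cf (Uo γ G) h‖ₑ ^ 2 ≤
        ENNReal.ofReal C * ∑ k ∈ Finset.range (a + l + 1),
          ∑ j ∈ Finset.Icc (-(9 * 2 ^ k) : ℤ) (9 * 2 ^ k),
            ∫⁻ γ : ℝ, ENNReal.ofReal (κ ((γ - γ₀) / 4 ^ (a + l))) * AV (a + l) k j (Uo γ G) := by
  obtain ⟨Cf, hCf, hF⟩ := hfar κ κh hK
  obtain ⟨C1, hC1, h1⟩ := nearp hp1 hc2 hlo hnear hK
  refine ⟨Cf * C1, by positivity, ?_⟩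
  intro a l G hl hG γ₀
  set m := a + l with hm
  set w : ℝ → ℝ≥0∞ := fun γ => ENNReal.ofReal (κ ((γ - γ₀) / 4 ^ m)) with hw
  have hwm : Measurable w := by
    have h0 := hK.1.measurable
    exact (h0.comp (by fun_prop)).ennreal_ofReal
  have hwt : ∀ γ, w γ ≠ ⊤ := fun γ => ENNReal.ofReal_ne_top
  have hSm := meas_Sc hG.1.1 m cf
  have hccm : ∀ i₁ i₂, Measurable fun p : ℝ × (ℝ × ℝ) =>
      ‖cc (Gp m i₁ (Uo p.1 G)) (Gp m i₂ (Uo p.1 G)) p.2‖ₑ ^ 2 := fun i₁ i₂ =>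
    (meas_cc2 (A := fun γ => Gp m i₁ (Uo γ G)) (B := fun γ => Gp m i₂ (Uo γ G))
      (meas_GpUo hG.1.1 m i₁) (meas_GpUo hG.1.1 m i₂)).enorm.pow_const 2
  calc ∫⁻ γ : ℝ, w γ * ∫⁻ h in HH a, ‖Sc m cf (Uo γ G) h‖ₑ ^ 2
      = ∫⁻ γ : ℝ, ∫⁻ h in HH a, w γ * ‖Sc m cf (Uo γ G) h‖ₑ ^ 2 := by
        refine lintegral_congr fun γ => ?_
        rw [lintegral_const_mul' _ _ (hwt γ)]
    _ = ∫⁻ h in HH a, ∫⁻ γ : ℝ, w γ * ‖Sc m cf (Uo γ G) h‖ₑ ^ 2 := by
        refine lintegral_lintegral_swap ?_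
        exact ((hwm.comp measurable_fst).mul (hSm.enorm.pow_const 2)).aemeasurable
    _ ≤ ∫⁻ h in HH a, ENNReal.ofReal Cf * ∑ i₁ ∈ Finset.Icc (-(9 * 2 ^ m) : ℤ) (9 * 2 ^ m),
        ∑ i₂ ∈ Finset.Icc (-(9 * 2 ^ m) : ℤ) (9 * 2 ^ m),
          ∫⁻ γ : ℝ, w γ * ‖cc (Gp m i₁ (Uo γ G)) (Gp m i₂ (Uo γ G)) h‖ₑ ^ 2 := by
        refine setLIntegral_mono' (meas_HH a) fun h hh => ?_
        exact hF a l G hl hG h γ₀ hh.1 hh.2
    _ ≤ ∫⁻ h, ENNReal.ofReal Cf * ∑ i₁ ∈ Finset.Icc (-(9 * 2 ^ m) : ℤ) (9 * 2 ^ m),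
        ∑ i₂ ∈ Finset.Icc (-(9 * 2 ^ m) : ℤ) (9 * 2 ^ m),
          ∫⁻ γ : ℝ, w γ * ‖cc (Gp m i₁ (Uo γ G)) (Gp m i₂ (Uo γ G)) h‖ₑ ^ 2 :=
        setLIntegral_le_lintegral _ _
    _ = ENNReal.ofReal Cf * ∑ i₁ ∈ Finset.Icc (-(9 * 2 ^ m) : ℤ) (9 * 2 ^ m),
        ∑ i₂ ∈ Finset.Icc (-(9 * 2 ^ m) : ℤ) (9 * 2 ^ m),
          ∫⁻ γ : ℝ, w γ * ∫⁻ h, ‖cc (Gp m i₁ (Uo γ G)) (Gp m i₂ (Uo γ G)) h‖ₑ ^ 2 := by
        have hmj : ∀ i₁ i₂, Measurable fun h =>
            ∫⁻ γ : ℝ, w γ * ‖cc (Gp m i₁ (Uo γ G)) (Gp m i₂ (Uo γ G)) h‖ₑ ^ 2 := by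
          intro i₁ i₂
          have h2 : Measurable fun p : ℝ × (ℝ × ℝ) =>
              w p.1 * ‖cc (Gp m i₁ (Uo p.1 G)) (Gp m i₂ (Uo p.1 G)) p.2‖ₑ ^ 2 :=
            (hwm.comp measurable_fst).mul (hccm i₁ i₂)
          exact h2.lintegral_prod_left'
        rw [lintegral_const_mul' _ _ ENNReal.ofReal_ne_top,
          lintegral_finsetSum _ fun k _ => Finset.measurable_fun_sum _ fun j _ => hmj k j]
        congr 1
        refine Finset.sum_congr rfl fun i₁ _ => ?_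
        rw [lintegral_finsetSum _ fun j _ => hmj i₁ j]
        refine Finset.sum_congr rfl fun i₂ _ => ?_
        have h3 : ∫⁻ (h : ℝ × ℝ), ∫⁻ γ : ℝ,
            w γ * ‖cc (Gp m i₁ (Uo γ G)) (Gp m i₂ (Uo γ G)) h‖ₑ ^ 2 =
            ∫⁻ γ : ℝ, ∫⁻ (h : ℝ × ℝ),
              w γ * ‖cc (Gp m i₁ (Uo γ G)) (Gp m i₂ (Uo γ G)) h‖ₑ ^ 2 := by
          refine lintegral_lintegral_swap ?_
          refine Measurable.aemeasurable ?_
          refine (hwm.comp measurable_snd).mul ?_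
          exact Measurable.comp (g := fun p : ℝ × (ℝ × ℝ) =>
            ‖cc (Gp m i₁ (Uo p.1 G)) (Gp m i₂ (Uo p.1 G)) p.2‖ₑ ^ 2)
            (f := fun p : (ℝ × ℝ) × ℝ => (p.2, p.1)) (hccm i₁ i₂) (by fun_prop)
        rw [h3]
        refine lintegral_congr fun γ => ?_
        rw [lintegral_const_mul' _ _ (hwt γ)]
    _ = ENNReal.ofReal Cf * ∫⁻ γ : ℝ, w γ * ∫⁻ h in Set.univ,
          ‖Sc m (fun i₁ i₂ => if i₁ = i₂ then 1 else 0) (Uo γ G) h‖ₑ ^ 2 := by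
        congr 1
        have hmk : ∀ i₁ i₂, Measurable fun γ : ℝ =>
            w γ * ∫⁻ h, ‖cc (Gp m i₁ (Uo γ G)) (Gp m i₂ (Uo γ G)) h‖ₑ ^ 2 := by
          intro i₁ i₂
          exact hwm.mul (hccm i₁ i₂).lintegral_prod_right'
        rw [Finset.sum_congr rfl fun i₁ _ => (lintegral_finsetSum _ fun i₂ _ => hmk i₁ i₂).symm,
          ← lintegral_finsetSum _ fun i₁ _ => Finset.measurable_fun_sum _ fun i₂ _ => hmk i₁ i₂]
        refine lintegral_congr fun γ => ?_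
        simp_rw [← Finset.mul_sum]
        rw [diag hp2 (nice_Uo hG.1 γ) m, Measure.restrict_univ]
    _ ≤ ENNReal.ofReal Cf * (ENNReal.ofReal C1 * ∑ k ∈ Finset.range (min m m + 1),
          ∑ j ∈ Finset.Icc (-(9 * 2 ^ k) : ℤ) (9 * 2 ^ k),
            ∫⁻ γ : ℝ, w γ * AV m k j (Uo γ G)) := by
        refine mul_le_mul' le_rfl ?_
        refine h1 m l G hl hG _ (fun i₁ i₂ => ?_) (fun i₁ i₂ h => ?_) γ₀ Set.univ m
          MeasurableSet.univ (fun h _ k j _ hg => hg.1)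
        · by_cases h : i₁ = i₂
          · right
            simp [h]
          · left
            simp [h]
        · by_cases h' : i₁ = i₂
          · rw [h', sub_self, abs_zero]
            norm_num
          · exact absurd (by simp [h']) h
    _ = _ := by
        rw [min_self, ← mul_assoc, ← ENNReal.ofReal_mul hCf.le]

end Pool.Agent.T9h44.LG
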