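import Pool.Agent.T9h44.LG.Pa3
import Pool.Agent.T9h41.LG.Pl
import Pool.Agent.T9h71.LG.Kap
import Pool.Agent.T9h71.LG.Cw
import Pool.Agent.T9h31.LG.Lo
import Pool.Agent.T9h70.LG.Near
import Pool.Agent.T9h70.LG.Farp
import Pool.Agent.T9h89.LG.Ng

/-!
# Sharp local smoothing in 2+1 dimensions (helper44): the main inequality (PA)
-/

set_option autoImplicit false

namespace Pool.Agent.T9h44.LG

open MeasureTheory Real Pool.Agent.T9h31.LG
open scoped ENNReal ComplexConjugate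

/-- the piece `chi` vanishes away from its interval -/
lemma chi_supp {x : ℝ} (h : chi x ≠ 0) : |x| ≤ 1 := by
  by_contra hx
  push Not at hx
  apply h
  unfold chi
  rcases lt_or_ge x 0 with h0 | h0
  · rw [abs_of_neg h0] at hx
    rw [Real.smoothTransition.zero_of_nonpos (by linarith),
      Real.smoothTransition.zero_of_nonpos (by linarith), sub_zero]
  · rw [abs_of_nonneg h0] at hx
    rw [Real.smoothTransition.one_of_one_le (by linarith),
      Real.smoothTransition.one_of_one_le (by linarith), sub_self]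

/-- there are no far pairs if `a` is large -/
lemma far_zero (a l : ℕ) (ha : l + 2 < a) (V : ℝ × ℝ → ℂ) (hV : Cls ((4 : ℝ) ^ l)⁻¹ V)
    (h : ℝ × ℝ) (hh : h ∈ HH a) : Sc (a + l) cf V h = 0 := by
  unfold Sc
  refine Finset.sum_eq_zero fun i₁ _ => Finset.sum_eq_zero fun i₂ _ => ?_
  by_cases hc : |i₁ - i₂| ≤ 3
  · unfold cf
    rw [if_pos hc, zero_mul]
  · have h0 : cc (Gp (a + l) i₁ V) (Gp (a + l) i₂ V) h = 0 := by
      unfold cc
      refine integral_eq_zero_of_ae (Filter.Eventually.of_forall fun ζ => ?_)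
      by_contra hne
      have hne' : Gp (a + l) i₁ V (ζ + h) * conj (Gp (a + l) i₂ V ζ) ≠ 0 := hne
      have n1 := left_ne_zero_of_mul hne'
      have n2 := right_ne_zero_of_mul hne'
      have n2' : Gp (a + l) i₂ V ζ ≠ 0 := fun h => n2 (by rw [h, map_zero])
      unfold Gp at n1 n2'
      have c1 : |2 ^ (a + l) * al (ζ + h) - i₁| ≤ 1 := by
        have := left_ne_zero_of_mul n1
        exact chi_supp fun h => this (by rw [h, Complex.ofReal_zero])
      have c2 : |2 ^ (a + l) * al ζ - i₂| ≤ 1 := by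
        have := left_ne_zero_of_mul n2'
        exact chi_supp fun h => this (by rw [h, Complex.ofReal_zero])
      have d1 := hV.2 _ (right_ne_zero_of_mul n1)
      have d2 := hV.2 _ (right_ne_zero_of_mul n2')
      have e1 := Pool.Agent.T9h89.LG.al_mul d1
      have e2 := Pool.Agent.T9h89.LG.al_mul d2
      have e3 := Pool.Agent.T9h89.LG.al_le d2
      set α' := al (ζ + h)
      set α := al ζ
      have w1 : 1 ≤ ζ.1 + h.1 := d1.1
      have e4 : (α' - α) * (ζ.1 + h.1) = h.2 - α * h.1 := by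
        have e5 : α' * (ζ.1 + h.1) = ζ.2 + h.2 := e1
        linear_combination e5 - e2
      have h1 := hh.1
      have h2 := hh.2
      have e6 : |α' - α| ≤ 9 * ((4 : ℝ) ^ a)⁻¹ := by
        calc |α' - α| ≤ |α' - α| * (ζ.1 + h.1) := le_mul_of_one_le_right (abs_nonneg _) w1
          _ = |h.2 - α * h.1| := by
            rw [← e4, abs_mul, abs_of_pos (by linarith : 0 < ζ.1 + h.1)]
          _ ≤ |h.2| + |α * h.1| := abs_sub _ _
          _ = |h.2| + |α| * |h.1| := by rw [abs_mul]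
          _ ≤ ((4 : ℝ) ^ a)⁻¹ + 8 * ((4 : ℝ) ^ a)⁻¹ := by gcongr
          _ = _ := by ring
      have e7 : (2 : ℝ) ^ (a + l) * ((4 : ℝ) ^ a)⁻¹ ≤ 1 / 8 := by
        have e8 : (4 : ℝ) ^ a = 2 ^ a * 2 ^ a := by
          rw [← mul_pow]
          norm_num
        have e9 : (2 : ℝ) ^ (l + 3) ≤ 2 ^ a := pow_le_pow_right₀ (by norm_num) (by omega)
        rw [e8, pow_add]
        have p1 : (0 : ℝ) < 2 ^ a := by positivity
        have e10 : (2 : ℝ) ^ a * 2 ^ l * (2 ^ a * 2 ^ a)⁻¹ = 2 ^ l / 2 ^ a := by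
          field_simp
        rw [e10, div_le_div_iff₀ p1 (by norm_num)]
        rw [pow_add] at e9
        linarith
      have e11 : |((i₁ : ℝ) - i₂)| < 4 := by
        have e12 : (i₁ : ℝ) - i₂ = -(2 ^ (a + l) * α' - i₁) + (2 ^ (a + l) * α - i₂) +
            2 ^ (a + l) * (α' - α) := by ring
        rw [e12]
        calc _ ≤ |-(2 ^ (a + l) * α' - i₁) + (2 ^ (a + l) * α - i₂)| +
              |2 ^ (a + l) * (α' - α)| := abs_add_le _ _
          _ ≤ (|-(2 ^ (a + l) * α' - i₁)| + |2 ^ (a + l) * α - i₂|) +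
              |2 ^ (a + l) * (α' - α)| := by gcongr; exact abs_add_le _ _
          _ ≤ (1 + 1) + 2 ^ (a + l) * (9 * ((4 : ℝ) ^ a)⁻¹) := by
              rw [abs_neg, abs_mul, abs_of_pos (by positivity : (0 : ℝ) < 2 ^ (a + l))]
              gcongr
          _ < 4 := by linarith
      apply hc
      have e13 : |i₁ - i₂| < 4 := by
        exact_mod_cast (by push_cast; exact e11 : ((|i₁ - i₂| : ℤ) : ℝ) < ((4 : ℤ) : ℝ))
      omega
    rw [h0, mul_zero]

/-- from the average to the correlation -/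
lemma avg_cc {κ κh : ℝ → ℝ} (hK : Kap κ κh) (C1 : ℝ) (hC1 : 0 < C1)
    (h1 : ∀ α s ρ : ℝ, 0 < s → 0 < ρ →
    ∀ u : ℝ × ℝ → ℝ≥0∞, Measurable u → ∫⁻ z : ℝ × ℝ, Av α s ρ u z ^ 2 ≤
      ENNReal.ofReal C1 * ∫⁻ z : ℝ × ℝ,
        (∫⁻ z' : ℝ × ℝ, ENNReal.ofReal (Fe κ α s ρ (z - z')) * u z') ^ 2)
    (B : ℝ) (hB0 : 0 ≤ B) (hB : ∀ x, |κh x| ≤ B) (a : ℕ) {V : ℝ × ℝ → ℂ} (hV : Nice V) :
    ∫⁻ z : ℝ × ℝ, Av 0 1 (4 ^ a) (sq V) z ^ 2 ≤
      ENNReal.ofReal (C1 * B ^ 4) * ∫⁻ h in HH a, ‖cc V V h‖ₑ ^ 2 := by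
  have hρ : (0 : ℝ) < 4 ^ a := by positivity
  have hmV : Measurable (sq V) := by
    unfold sq
    exact ((continuous_Ext hV).measurable.enorm).pow_const 2
  refine (h1 0 1 (4 ^ a) one_pos hρ (sq V) hmV).trans ?_
  rw [ENNReal.ofReal_mul hC1.le, mul_assoc]
  refine mul_le_mul' le_rfl ?_
  have e1 : ∀ z : ℝ × ℝ, ∫⁻ z' : ℝ × ℝ, ENNReal.ofReal (Fe κ 0 1 (4 ^ a) (z - z')) * sq V z' =
      ‖∫ z' : ℝ × ℝ, ((Fe κ 0 1 (4 ^ a) (z - z') : ℝ) : ℂ) *
        ∑ _i : Unit, Ext V z' * conj (Ext V z')‖ₑ := by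
    intro z
    simp only [Finset.univ_unique, Finset.sum_singleton]
    have e2 : ∀ z', ((Fe κ 0 1 (4 ^ a) (z - z') : ℝ) : ℂ) * (Ext V z' * conj (Ext V z')) =
        ((Fe κ 0 1 (4 ^ a) (z - z') * ‖Ext V z'‖ ^ 2 : ℝ) : ℂ) := by
      intro z'
      rw [Complex.mul_conj, Complex.normSq_eq_norm_sq]
      push_cast
      ring
    simp_rw [e2]
    have hF0 : ∀ z', 0 ≤ Fe κ 0 1 (4 ^ a) (z - z') * ‖Ext V z'‖ ^ 2 := fun z' =>
      mul_nonneg (Fe_nonneg hK 0 1 (4 ^ a) one_pos _) (sq_nonneg _)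
    have hFi : Integrable fun z' => Fe κ 0 1 (4 ^ a) (z - z') * ‖Ext V z'‖ ^ 2 := by
      have i1 := (Pool.Agent.T9h41.LG.Fe_integrable (α := 0) (s := 1) hK one_pos hρ).comp_sub_left z
      refine i1.mul_bdd (c := (∫ ζ, ‖V ζ‖) ^ 2) ?_ (Filter.Eventually.of_forall fun z' => ?_)
      · exact ((continuous_Ext hV).norm.pow 2).aestronglyMeasurable
      · rw [norm_pow, norm_norm]
        exact pow_le_pow_left₀ (norm_nonneg _) (norm_Ext_le z') 2
    have e5 : ∫ z' : ℝ × ℝ, ((Fe κ 0 1 (4 ^ a) (z - z') * ‖Ext V z'‖ ^ 2 : ℝ) : ℂ) =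
        ((∫ z' : ℝ × ℝ, Fe κ 0 1 (4 ^ a) (z - z') * ‖Ext V z'‖ ^ 2 : ℝ) : ℂ) :=
      integral_ofReal
    rw [e5, ← ofReal_norm, Complex.norm_real,
      Real.norm_of_nonneg (integral_nonneg hF0),
      ofReal_integral_eq_lintegral_ofReal hFi (Filter.Eventually.of_forall hF0)]
    refine lintegral_congr fun z' => ?_
    rw [ENNReal.ofReal_mul (Fe_nonneg hK 0 1 (4 ^ a) one_pos _), ENNReal.ofReal_pow (norm_nonneg _),
      ofReal_norm]
    rfl
  simp_rw [e1]
  rw [Pool.Agent.T9h41.LG.s_pl1 κ κh hK 0 1 (4 ^ a) one_pos hρ Unit (fun _ => V) (fun _ => V)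
    (fun _ => hV) (fun _ => hV)]
  simp only [Finset.univ_unique, Finset.sum_singleton]
  rw [← lintegral_const_mul' _ _ ENNReal.ofReal_ne_top]
  calc ∫⁻ h : ℝ × ℝ, ‖((κh (4 ^ a * h.1) * κh (4 ^ a * (h.2 - 0 * h.1) / 1) : ℝ) : ℂ) *
        cc V V h‖ₑ ^ 2
      ≤ ∫⁻ h : ℝ × ℝ, (HH a).indicator (fun h => ENNReal.ofReal (B ^ 4) * ‖cc V V h‖ₑ ^ 2) h := by
        refine lintegral_mono fun h => ?_
        by_cases hh : h ∈ HH a
        · rw [Set.indicator_of_mem hh, enorm_mul, mul_pow]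
          refine mul_le_mul' ?_ le_rfl
          rw [← ofReal_norm, Complex.norm_real, Real.norm_eq_abs, abs_mul,
            ← ENNReal.ofReal_pow (by positivity)]
          refine ENNReal.ofReal_le_ofReal ?_
          have k1 := hB (4 ^ a * h.1)
          have k2 := hB (4 ^ a * (h.2 - 0 * h.1) / 1)
          calc _ ≤ (B * B) ^ 2 := by gcongr
            _ = _ := by ring
        · rw [Set.indicator_of_notMem hh]
          have h0 : κh (4 ^ a * h.1) * κh (4 ^ a * (h.2 - 0 * h.1) / 1) = 0 := by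
            have hz := hK.2.2.2.2.2.1
            by_cases h2 : |h.1| ≤ ((4 : ℝ) ^ a)⁻¹
            · have h3 : ((4 : ℝ) ^ a)⁻¹ < |h.2| := by
                by_contra h3
                push Not at h3
                exact hh ⟨h2, h3⟩
              rw [hz (4 ^ a * (h.2 - 0 * h.1) / 1), mul_zero]
              rw [zero_mul, sub_zero, div_one, abs_mul, abs_of_pos hρ]
              rw [inv_lt_iff_one_lt_mul₀ hρ] at h3
              linarith
            · push Not at h2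
              rw [hz (4 ^ a * h.1), zero_mul]
              rw [abs_mul, abs_of_pos hρ]
              rw [inv_lt_iff_one_lt_mul₀ hρ] at h2
              linarith
          rw [h0, Complex.ofReal_zero, zero_mul]
          simp
    _ = _ := lintegral_indicator (meas_HH a) _

/-- the main inequality -/
theorem s_pa : S_pa := by
  obtain ⟨κ, κh, hK⟩ := Pool.Agent.T9h71.LG.s_kap
  obtain ⟨C1, hC1, h1⟩ := Pool.Agent.T9h71.LG.s_c1 κ κh hK
  obtain ⟨CT, hCT, hT⟩ := Pool.Agent.T9h71.LG.s_ct κ κh hK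
  obtain ⟨Cn, hCn, hN⟩ := nearp Pool.Agent.T9h41.LG.s_pl1 Pool.Agent.T9h71.LG.s_c2
    Pool.Agent.T9h31.LG.s_lo Pool.Agent.T9h70.LG.s_near hK
  obtain ⟨Cf, hCf, hF⟩ := farq Pool.Agent.T9h41.LG.s_pl1 Pool.Agent.T9h41.LG.s_pl2
    Pool.Agent.T9h71.LG.s_c2 Pool.Agent.T9h31.LG.s_lo Pool.Agent.T9h70.LG.s_near
    Pool.Agent.T9h70.LG.s_farp hK
  obtain ⟨B0, hB0⟩ := Pool.Agent.T9h41.LG.kaph_bdd hK
  set B : ℝ := |B0| + 1 with hBdef
  have hBp : 0 < B := by positivity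
  have hB : ∀ x, |κh x| ≤ B := fun x => (hB0 x).trans ((le_abs_self B0).trans (by linarith))
  set A : ℝ := C1 * B ^ 4 * (2 * (Cn + Cf)) with hA
  have hAp : 0 < A := by positivity
  refine ⟨CT * A, by positivity, ?_⟩
  intro a l G hl hG
  set m := a + l with hm
  set f : ℝ → ℝ≥0∞ := fun γ => ∫⁻ z : ℝ × ℝ, Av 0 1 (4 ^ a) (sq (Uo γ G)) z ^ 2 with hf
  set v : ℝ → ℝ≥0∞ := fun γ => ∑ k ∈ Finset.range (min m (2 * l + 3) + 1),
    ∑ j ∈ Finset.Icc (-(9 * 2 ^ k) : ℤ) (9 * 2 ^ k), AV m k j (Uo γ G) with hv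
  have hfm : Measurable f := meas_IAv 0 1 (4 ^ a) (meas_Uo2 hG.1.1)
  have hAVm : ∀ k j, Measurable fun γ : ℝ => AV m k j (Uo γ G) := fun k j =>
    meas_IAv _ _ _ (F := fun γ => Gw k j (Uo γ G)) (meas_GwUo hG.1.1 k j)
  have hvm : Measurable v := Finset.measurable_fun_sum _ fun k _ =>
    Finset.measurable_fun_sum _ fun j _ => hAVm k j
  have hR : (0 : ℝ) < 4 ^ m := by positivity
  have key : ∀ c : ℝ, ∫⁻ γ : ℝ, ENNReal.ofReal (κ ((γ - c) / 4 ^ m)) * f γ ≤
      ENNReal.ofReal A * ∫⁻ γ : ℝ, ENNReal.ofReal (κ ((γ - c) / 4 ^ m)) * v γ := by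
    intro c
    set w : ℝ → ℝ≥0∞ := fun γ => ENNReal.ofReal (κ ((γ - c) / 4 ^ m)) with hw
    have hwm : Measurable w := by
      have h0 := hK.1.measurable
      exact (h0.comp (by fun_prop)).ennreal_ofReal
    have hwt : ∀ γ, w γ ≠ ⊤ := fun γ => ENNReal.ofReal_ne_top
    have hvs : ∫⁻ γ : ℝ, w γ * v γ = ∑ k ∈ Finset.range (min m (2 * l + 3) + 1),
        ∑ j ∈ Finset.Icc (-(9 * 2 ^ k) : ℤ) (9 * 2 ^ k), ∫⁻ γ : ℝ, w γ * AV m k j (Uo γ G) := by
      have e1 : ∀ γ, w γ * v γ = ∑ k ∈ Finset.range (min m (2 * l + 3) + 1),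
          ∑ j ∈ Finset.Icc (-(9 * 2 ^ k) : ℤ) (9 * 2 ^ k), w γ * AV m k j (Uo γ G) := by
        intro γ
        simp only [hv, Finset.mul_sum]
      have hwA : ∀ k j, Measurable fun γ : ℝ => w γ * AV m k j (Uo γ G) := fun k j =>
        hwm.mul (hAVm k j)
      simp_rw [e1]
      rw [lintegral_finsetSum _ fun k _ => Finset.measurable_fun_sum _ fun j _ => hwA k j]
      refine Finset.sum_congr rfl fun k _ => ?_
      rw [lintegral_finsetSum _ fun j _ => hwA k j]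
    have hlev : ∀ h ∈ HH a, ∀ (k : ℕ) (j : ℤ), |j| ≤ 9 * 2 ^ k → gmax m h k j →
        k ≤ 2 * l + 3 := by
      intro h hh k j hj hg
      have := Pool.Agent.T9h89.LG.s_lev a l k j h hh.1 hh.2 hj hg
      omega
    have hnear := hN m l G hl hG cn (fun i₁ i₂ => by
        unfold cn
        by_cases h : |i₁ - i₂| ≤ 3
        · right
          rw [if_pos h]
        · left
          rw [if_neg h]) (fun i₁ i₂ h => by
        unfold cn at h
        by_contra h'
        exact h (if_neg h')) c (HH a) (2 * l + 3) (meas_HH a) hlev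
    rw [← hvs] at hnear
    have hfar : ∫⁻ γ : ℝ, w γ * ∫⁻ h in HH a, ‖Sc m cf (Uo γ G) h‖ₑ ^ 2 ≤
        ENNReal.ofReal Cf * ∫⁻ γ : ℝ, w γ * v γ := by
      by_cases ha : l + 2 < a
      · have e0 : ∀ γ, ∫⁻ h in HH a, ‖Sc m cf (Uo γ G) h‖ₑ ^ 2 = 0 := by
          intro γ
          rw [lintegral_eq_zero_of_ae_eq_zero]
          filter_upwards [ae_restrict_mem (meas_HH a)] with h hh
          rw [far_zero a l ha _ (cls_Uo hG γ) h hh]
          simp
        simp only [e0, mul_zero, lintegral_zero]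
        exact zero_le
      · have h5 := hF a l G hl hG c
        have e5 : min m (2 * l + 3) = m := by omega
        rw [hvs, e5]
        exact h5
    calc ∫⁻ γ : ℝ, w γ * f γ
        ≤ ∫⁻ γ : ℝ, ENNReal.ofReal (C1 * B ^ 4 * 2) *
            (w γ * (∫⁻ h in HH a, ‖Sc m cn (Uo γ G) h‖ₑ ^ 2) +
              w γ * ∫⁻ h in HH a, ‖Sc m cf (Uo γ G) h‖ₑ ^ 2) := by
          refine lintegral_mono fun γ => ?_
          have hV := nice_Uo hG.1 γ
          have g1 := avg_cc hK C1 hC1 h1 B hBp.le hB a hV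
          have g2 : ∀ h, ‖cc (Uo γ G) (Uo γ G) h‖ₑ ^ 2 ≤
              2 * (‖Sc m cn (Uo γ G) h‖ₑ ^ 2 + ‖Sc m cf (Uo γ G) h‖ₑ ^ 2) := by
            intro h
            have g3 : cc (Uo γ G) (Uo γ G) h = Sc m cn (Uo γ G) h + Sc m cf (Uo γ G) h := by
              rw [cc_sum hV m (fun ζ hζ => Pool.Agent.T9h89.LG.al_le ((cls_Uo hG γ).2 ζ hζ)) h]
              unfold Sc
              rw [← Finset.sum_add_distrib]
              refine Finset.sum_congr rfl fun i₁ _ => ?_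
              rw [← Finset.sum_add_distrib]
              refine Finset.sum_congr rfl fun i₂ _ => ?_
              unfold cn cf
              split_ifs <;> ring
            rw [g3]
            calc ‖Sc m cn (Uo γ G) h + Sc m cf (Uo γ G) h‖ₑ ^ 2
                ≤ (‖Sc m cn (Uo γ G) h‖ₑ + ‖Sc m cf (Uo γ G) h‖ₑ) ^ 2 :=
                  pow_le_pow_left' (enorm_add_le _ _) 2
              _ ≤ _ := by
                  have := ENNReal.rpow_add_le_mul_rpow_add_rpow
                    ‖Sc m cn (Uo γ G) h‖ₑ ‖Sc m cf (Uo γ G) h‖ₑ (p := 2) (by norm_num)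
                  simpa [show (2 : ℝ) - 1 = 1 by norm_num] using this
          have hm1 : Measurable fun h => ‖Sc m cn (Uo γ G) h‖ₑ ^ 2 :=
            ((meas_Sc hG.1.1 m cn).comp (measurable_prodMk_left (x := γ))).enorm.pow_const 2
          calc w γ * f γ ≤ w γ * (ENNReal.ofReal (C1 * B ^ 4) *
                ∫⁻ h in HH a, ‖cc (Uo γ G) (Uo γ G) h‖ₑ ^ 2) := mul_le_mul' le_rfl g1
            _ ≤ w γ * (ENNReal.ofReal (C1 * B ^ 4) * ∫⁻ h in HH a,
                2 * (‖Sc m cn (Uo γ G) h‖ₑ ^ 2 + ‖Sc m cf (Uo γ G) h‖ₑ ^ 2)) := by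
                gcongr with h
                exact g2 h
            _ = _ := by
                rw [lintegral_const_mul' _ _ (by norm_num), lintegral_add_left hm1,
                  ENNReal.ofReal_mul (p := C1 * B ^ 4) (by positivity), ENNReal.ofReal_ofNat]
                ring
      _ = ENNReal.ofReal (C1 * B ^ 4 * 2) *
            ((∫⁻ γ : ℝ, w γ * (∫⁻ h in HH a, ‖Sc m cn (Uo γ G) h‖ₑ ^ 2)) +
              ∫⁻ γ : ℝ, w γ * ∫⁻ h in HH a, ‖Sc m cf (Uo γ G) h‖ₑ ^ 2) := by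
          rw [lintegral_const_mul' _ _ ENNReal.ofReal_ne_top, lintegral_add_left]
          refine hwm.mul ?_
          exact ((meas_Sc hG.1.1 m cn).enorm.pow_const 2).lintegral_prod_right'
      _ ≤ ENNReal.ofReal (C1 * B ^ 4 * 2) * (ENNReal.ofReal Cn * (∫⁻ γ : ℝ, w γ * v γ) +
            ENNReal.ofReal Cf * ∫⁻ γ : ℝ, w γ * v γ) :=
          mul_le_mul' le_rfl (add_le_add hnear hfar)
      _ = _ := by
          rw [← add_mul, ← ENNReal.ofReal_add hCn.le hCf.le, ← mul_assoc,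
            ← ENNReal.ofReal_mul (by positivity)]
          congr 2
          rw [hA]
          ring
  intro γ₀
  have hfin := hT (4 ^ m) f v (ENNReal.ofReal A) hR hfm hvm key γ₀
  refine hfin.trans (le_of_eq ?_)
  rw [ENNReal.ofReal_mul hCT.le]
  congr 1
  have hwm : Measurable fun γ : ℝ => ENNReal.ofReal (psi3 ((γ - γ₀) / 4 ^ m)) := by
    unfold psi3
    fun_prop
  have e1 : ∀ γ, ENNReal.ofReal (psi3 ((γ - γ₀) / 4 ^ m)) * v γ =
      ∑ k ∈ Finset.range (min m (2 * l + 3) + 1),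
        ∑ j ∈ Finset.Icc (-(9 * 2 ^ k) : ℤ) (9 * 2 ^ k),
          ENNReal.ofReal (psi3 ((γ - γ₀) / 4 ^ m)) * AV m k j (Uo γ G) := by
    intro γ
    simp only [hv, Finset.mul_sum]
  have hwA : ∀ k j, Measurable fun γ : ℝ => ENNReal.ofReal (psi3 ((γ - γ₀) / 4 ^ m)) *
      AV m k j (Uo γ G) := fun k j => hwm.mul (hAVm k j)
  simp_rw [e1]
  rw [lintegral_finsetSum _ fun k _ => Finset.measurable_fun_sum _ fun j _ => hwA k j]
  refine Finset.sum_congr rfl fun k _ => ?_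
  rw [lintegral_finsetSum _ fun j _ => hwA k j]
  rfl

end Pool.Agent.T9h44.LG
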