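import Pool.Agent.T9h44.LG.Spec
import Pool.Agent.T9h44.LS5.Stm3

/-!
# Sharp local smoothing in the mean over dilations (helper44): the pieces in dimension n

`Ker`, `q`, `os`, `box`, `tau`, `Ng`, `MulB`, `inv` are those of `T9h44/LS4`, `N303/LS`
(`os s v = exp(-πi s v)`, `q g z = ∑ g_i z_i²`, `box n = [1,2]^n`).
-/

set_option autoImplicit false

namespace Pool.Agent.T9h44.LG

open MeasureTheory Real Pool.Agent.T9h44.LS4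
open scoped ENNReal ComplexConjugate

variable {n : ℕ}

/-- inverse Fourier transform on `ℝ × ℝ^n` -/
noncomputable def ExtN (G : ℝ × (Fin n → ℝ) → ℂ) (p : ℝ × (Fin n → ℝ)) : ℂ :=
  ∫ ζ : ℝ × (Fin n → ℝ), ee (p.1 * ζ.1 + ∑ i, p.2 i * ζ.2 i) * G ζ

/-- inverse Fourier transform on `ℝ^n` -/
noncomputable def ExV (G : (Fin n → ℝ) → ℂ) (x : Fin n → ℝ) : ℂ :=
  ∫ ξ : Fin n → ℝ, ee (∑ i, x i * ξ i) * G ξ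

/-- bounded, measurable, compactly supported -/
def NiceN (G : ℝ × (Fin n → ℝ) → ℂ) : Prop :=
  Measurable G ∧ (∃ B : ℝ, ∀ ζ, ‖G ζ‖ ≤ B) ∧ ∃ r : ℝ, ∀ ζ, G ζ ≠ 0 → |ζ.1| ≤ r ∧ ∀ i, |ζ.2 i| ≤ r

/-- bounded, measurable, compactly supported -/
def NiceV (G : (Fin n → ℝ) → ℂ) : Prop :=
  Measurable G ∧ (∃ B : ℝ, ∀ ξ, ‖G ξ‖ ≤ B) ∧ ∃ r : ℝ, ∀ ξ, G ξ ≠ 0 → ∀ i, |ξ i| ≤ r

/-- the propagators in all the variables: `exp(2πi ∑ c_i ξ_i²/σ)` -/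
noncomputable def UN (c : Fin n → ℝ) (G : ℝ × (Fin n → ℝ) → ℂ) (ζ : ℝ × (Fin n → ℝ)) : ℂ :=
  ee ((∑ i, c i * ζ.2 i ^ 2) / ζ.1) * G ζ

/-- `[-4, 4]^n` -/
def cubeC (n : ℕ) : Set (Fin n → ℝ) := {c | ∀ i, c i ∈ Set.Icc (-4 : ℝ) 4}

/-- the dyadic cutoff: support in `[1/2, 2]`, `∑_l bet(σ/2^l) = 1` for `σ > 0` -/
noncomputable def bet (x : ℝ) : ℝ := Real.smoothTransition (2 * x - 1) - Real.smoothTransition (x - 1)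

/-- the amplitude -/
noncomputable def am (M : ℕ) (R σ : ℝ) : ℝ := σ ^ ((M : ℝ) - 1 / 2) * Real.exp (-(4 * π * σ / R))

/-- the kernel with `M` more powers of `s`: `KM 0 = Ker` -/
noncomputable def KM (M n : ℕ) (y w : ℝ) (g z : Fin n → ℝ) : ℂ :=
  ∫ s in Set.Ioi (0 : ℝ),
    ((s ^ (((n : ℝ) - 1) / 2 + M) * Real.exp (-(2 * π * s * y)) : ℝ) : ℂ) * os s (q g z - w)

/-- (IT) iterate (GEN) in the variables `(w, x_i)`, `i ≠ j`, the other variables are frozen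
(Fubini: `ExtN G (w, x) = Ext (σ, ξ_i ↦ ∫ ee(x'·ξ') G(σ, ξ) dξ') (w, x_i)`, again `Nice`);
induction over the finite set of the variables. -/
def S_it (n : ℕ) : Prop :=
  ∀ ε : ℝ, 0 < ε → ∃ C N : ℝ, 0 < C ∧ 0 < N ∧ ∀ (j : Fin n) (b s₀ A : ℝ), 0 < s₀ → 1 ≤ A →
    ∀ G : ℝ × (Fin n → ℝ) → ℂ, NiceN G →
    (∀ ζ, G ζ ≠ 0 → s₀ ≤ ζ.1 ∧ ζ.1 ≤ 4 * s₀ ∧ ∀ i, |ζ.2 i| ≤ A * ζ.1) →
    ∫⁻ c in cubeC n, ∫⁻ p : ℝ × (Fin n → ℝ), ‖ExtN (UN (Function.update c j b) G) p‖ₑ ^ 4 ≤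
      ENNReal.ofReal (C * (1 + s₀) ^ ε * A ^ N) *
        ∫⁻ p : ℝ × (Fin n → ℝ), ‖ExtN (UN (Function.update 0 j b) G) p‖ₑ ^ 4

/-- (FU) Fubini and the change of variables `c_i = 1/(4 g_i)` -/
def S_fu (n : ℕ) : Prop :=
  ∀ (f : (Fin n → ℝ) → ℝ≥0∞) (j : Fin n) (B : ℝ≥0∞), Measurable f →
    (∀ b ∈ Set.Icc (1 / 8 : ℝ) (1 / 4), ∫⁻ c in cubeC n, f (Function.update c j b) ≤ B) →
    ∫⁻ g in box n, f (fun i => 1 / (4 * g i)) ≤ 16 ^ n * B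

/-- (TR) the transport in the variable `x_j`. With `F = ExV G = ∂_j (ExV H)`, `y = 1/R` and
`k(w, u) = (y - i(w - u²/(4b)))^(-2)` let `Φ(w, x) = ∫ F(x - u e_j) k(w, u) du`. For `|w| ≥ 1`:
`∫ |k(w, u)| du ≤ C R |w|^(-1/2)`, Young, and `∫_{|w| ≥ 1} |w|^(-2) dw < ∞`. For `|w| ≤ 1`:
`∂_u k` has the `L¹` norm at most `C R²` (substitute `v = u²/(4b)`), and `F = ∂_j (ExV H)`. So
`‖Φ‖_4 ≤ C R (‖F‖_4 + R ‖ExV H‖_4)`. By the formula of Fresnel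
`∫ dξ_j ee(x_j ξ_j) ee(b ξ_j²/σ) Ĝ = (σ/(2b))^(1/2) e^(iπ/4) ∫ F(x - u e_j) e^(-iπσu²/(2b)) du`,
hence the function of the statement is `μ(D_w) Φ` up to a constant, with
`μ(σ) = bet(σ/2^l) σ^(M-1) e^(-2πσ/R)` whose kernel has the `L¹` norm at most
`C 2^(l(M-1)) (1 + 2^l/R)^(-K)`. -/
def S_tr (n : ℕ) : Prop :=
  ∀ M K : ℕ, 2 ≤ M → ∃ C : ℝ, 0 < C ∧ ∀ (j : Fin n) (b R : ℝ) (l : ℤ),
    b ∈ Set.Icc (1 / 8 : ℝ) (1 / 4) → 1 ≤ R → ∀ G H : (Fin n → ℝ) → ℂ, NiceV G → NiceV H →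
    (∀ ξ, G ξ = 2 * π * Complex.I * ξ j * H ξ) →
    ∫⁻ p : ℝ × (Fin n → ℝ), ‖ExtN (UN (Function.update 0 j b) fun ζ =>
        ((bet (ζ.1 / 2 ^ l) * am M R ζ.1 : ℝ) : ℂ) * G ζ.2) p‖ₑ ^ 4 ≤
      ENNReal.ofReal (C * (((2 : ℝ) ^ l) ^ (M - 1) * (1 + 2 ^ l / R) ^ (-(K : ℤ)) * R) ^ 4) *
        ((∫⁻ x : Fin n → ℝ, ‖ExV G x‖ₑ ^ 4) +
          ENNReal.ofReal (R ^ 4) * ∫⁻ x : Fin n → ℝ, ‖ExV H x‖ₑ ^ 4)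

/-- (KF) the kernel on the Fourier side: `∫ e^(-2πi z·ξ) e^(-πi s g z²) dz = (s g)^(-1/2) e^(-iπ/4)
e^(iπξ²/(s g))` in each variable, `s = 2σ`, and the dyadic partition of `σ`. -/
def S_kf (n : ℕ) : Prop :=
  1 ≤ n → ∀ M : ℕ, ∃ C : ℝ, 0 < C ∧ ∀ g ∈ box n, ∀ (w R : ℝ) (x : Fin n → ℝ), 1 ≤ R →
    ∀ G : (Fin n → ℝ) → ℂ, NiceV G →
      ‖∫ u : Fin n → ℝ, KM M n R⁻¹ w g (x - u) * ExV G u‖ₑ ≤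
        ENNReal.ofReal C * ∑' l : ℤ, ‖ExtN (UN (fun i => 1 / (4 * g i)) fun ζ =>
          ((bet (ζ.1 / 2 ^ l) * am M R ζ.1 : ℝ) : ℂ) * G ζ.2) (w, x)‖ₑ

/-- (SM) from (IT), (FU), (TR), (KF): `A = max 1 (8R/2^l)`, `s₀ = 2^(l-1)`;
`(∑ a_l)^4 ≤ (∑ λ_l)^3 ∑ λ_l^(-3) a_l^4` with `λ_l = 2^(-|l - l₀|δ)`, `2^l₀ ~ R`. -/
def S_sm (n : ℕ) : Prop :=
  1 ≤ n → ∀ ε : ℝ, 0 < ε → ∃ M₀ : ℕ, ∀ M : ℕ, M₀ ≤ M → ∃ C : ℝ, 0 < C ∧ ∀ (j : Fin n) (R : ℝ), 1 ≤ R →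
    ∀ G H : (Fin n → ℝ) → ℂ, NiceV G → NiceV H →
    (∀ ξ, G ξ = 2 * π * Complex.I * ξ j * H ξ) → (∀ ξ, G ξ ≠ 0 → ∀ i, |ξ i| ≤ 4 * R) →
    ∫⁻ g in box n, ∫⁻ w : ℝ, ∫⁻ x : Fin n → ℝ,
        ‖∫ u : Fin n → ℝ, KM M n R⁻¹ w g (x - u) * ExV G u‖ₑ ^ 4 ≤
      ENNReal.ofReal (C * R ^ (4 * M + ε)) * ((∫⁻ x : Fin n → ℝ, ‖ExV G x‖ₑ ^ 4) +
        ENNReal.ofReal (R ^ 4) * ∫⁻ x : Fin n → ℝ, ‖ExV H x‖ₑ ^ 4)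

/-- a cutoff of a shell: smooth, `1` for `1/2 ≤ ‖ξ‖ ≤ 2` (Euclidean norm), `0` for `‖ξ‖ ≤ 1/4` and
for `‖ξ‖ ≥ 4` -/
noncomputable def shl (ξ : Fin n → ℝ) : ℝ :=
  Real.smoothTransition ((∑ i, ξ i ^ 2 - 1 / 16) * (16 / 3)) *
    Real.smoothTransition ((16 - ∑ i, ξ i ^ 2) / 12)

/-- the projection to the shell `|ξ| ~ R` -/
noncomputable def Psi (R : ℝ) (F : (Fin n → ℝ) → ℂ) (u : Fin n → ℝ) : ℂ :=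
  ExV (fun ξ => ((shl (R⁻¹ • ξ) : ℝ) : ℂ) * ∫ v : Fin n → ℝ, ee (-∑ i, v i * ξ i) * F v) u

/-- the estimate of a shell -/
def RS (n M : ℕ) (p e : ℝ) : Prop :=
  ∃ C : ℝ, 0 < C ∧ ∀ R : ℝ, 1 ≤ R → ∀ F : (Fin n → ℝ) → ℂ, Measurable F → Integrable F →
    (∃ B : ℝ, ∀ u, ‖F u‖ ≤ B) →
    ∫⁻ g in box n, ∫⁻ t in Set.Icc (1 : ℝ) 2, ∫⁻ x : Fin n → ℝ,
        ‖∫ u : Fin n → ℝ, KM M n R⁻¹ (t ^ 2 - R⁻¹ ^ 2 / t ^ 2) g (x - u) * Psi R F u‖ₑ ^ p ≤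
      ENNReal.ofReal (C * R ^ (M * p + e)) * ∫⁻ u : Fin n → ℝ, ‖F u‖ₑ ^ p

/-- (R4) `shl = ∑_j a_j`, `a_j(η) = 2πi η_j b_j(η)`, `a_j, b_j` smooth with compact support
(`|η_j| ≥ c` on the support); the kernels of `a_j(D/R)`, `b_j(D/R)` are bounded in `L¹`; (SM) with
`G = a_j(ξ/R) F̂`, `H = R^(-1) b_j(ξ/R) F̂`; the substitution `w = t² - R^(-2)/t²`. -/
def S_r4 (n : ℕ) : Prop :=
  1 ≤ n → ∀ ε : ℝ, 0 < ε → ∃ M₀ : ℕ, ∀ M : ℕ, M₀ ≤ M → RS n M 4 ε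

/-- (KH) the Fourier transform of the kernel `KM`. The polynomials of Bessel:
`P_0 = 1`, `P_{M+1}(u) = (1 - (M+1) u) P_M(u) - u² P_M'(u)`. -/
noncomputable def Pb : ℕ → Polynomial ℂ
  | 0 => 1
  | M + 1 => (1 - ((M : ℂ) + 1) • Polynomial.X) * Pb M -
      Polynomial.X ^ 2 * Polynomial.derivative (Pb M)

/-- (KH) `(1/(2πiτ)) ∂_τ` applied `M` times to `τ^(-1) exp(2πi N τ)` is
`τ^(-1-M) N^M exp(2πi N τ) P_M(1/(2πi N τ))`; `M = 0` is `Pool.Agent.T9h82.LS.KHat` (the statement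
`KHat` in `LS4/Ker.lean`); the symbol is holomorphic in `ω = τ² = w + 2iy`, and `s^M` is
`((πi)^(-1) ∂_ω)^M`. -/
def S_kh (n : ℕ) : Prop :=
  1 ≤ n → ∀ M : ℕ, ∀ g ∈ box n, ∀ y t : ℝ, 0 < y → 0 < t → ∀ ξ : Fin n → ℝ, ξ ≠ 0 →
    ∫ z : Fin n → ℝ, ee (-∑ i, z i * ξ i) * KM M n y (t ^ 2 - y ^ 2 / t ^ 2) g z =
      (((∏ i, g i) ^ (-(1 / 2) : ℝ) : ℝ) : ℂ) *
        Complex.exp (-(Complex.I * (π * ((n : ℝ) - 1) / 4 : ℝ))) *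
        (tau y t)⁻¹ ^ (M + 1) * ((Nm g ξ : ℝ) : ℂ) ^ M *
        Complex.exp (2 * π * Complex.I * (Nm g ξ : ℝ) * tau y t) *
        (Pb M).eval (1 / (2 * π * Complex.I * (Nm g ξ : ℝ) * tau y t))

/-- (R2) Plancherel and (KH): the symbol of `KM M n R⁻¹ ..` is bounded by `C R^M` on the shell -/
def S_r2 (n : ℕ) : Prop := 1 ≤ n → ∀ M : ℕ, RS n M 2 0

/-- (L1) `|KM M n y w g z| ≤ C (y + |q g z - w|)^(-((n+1)/2+M))`, polar-type integration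
(compare `Pool.Agent.T9h82.LS.kl1`, `M = 0`) -/
def S_l1 (n : ℕ) : Prop :=
  1 ≤ n → ∀ M : ℕ, 1 ≤ M → ∃ C : ℝ, 0 < C ∧ ∀ g ∈ box n, ∀ y t : ℝ, 0 < y → y ≤ 1 →
    t ∈ Set.Icc (1 : ℝ) 2 →
    ∫⁻ z : Fin n → ℝ, ‖KM M n y (t ^ 2 - y ^ 2 / t ^ 2) g z‖ₑ ≤
      ENNReal.ofReal (C * y ^ (-(((n : ℝ) - 1) / 2 + M)))

/-- (RP) interpolation: `2` and `4` (`Pool.Agent.T9h19.LS.interp`), `4` and `∞`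
(`Pool.Agent.T9h18.LS.interp_inf`); the operator `F ↦ ∫ KM (x - u) Psi R F u du`;
`‖Psi R F‖_∞ ≤ C ‖F‖_∞`. -/
def S_rp (n : ℕ) : Prop :=
  1 ≤ n → ∀ (M : ℕ) (ε : ℝ), 1 ≤ M → 0 < ε → RS n M 4 ε → ∀ p : ℝ, 2 ≤ p →
    RS n M p (ε + if p ≤ 4 then 0 else (p - 4) * (((n : ℝ) - 1) / 2))

end Pool.Agent.T9h44.LG
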