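import Pool.Agent.T9h44.LG.Spec2
import Pool.Agent.T9h44.LS5.C6

/-!
# Sharp local smoothing in the mean over dilations (helper44): the link with the wave equation
-/

set_option autoImplicit false

namespace Pool.Agent.T9h44.LG

open MeasureTheory Real Pool.Agent.N303.LS Pool.Agent.T9h44.LS4 Pool.Agent.T9h44.LS5
open scoped ENNReal SchwartzMap RealInnerProductSpace FourierTransform

/-- the multiplier of the link, as a function of `η = ξ/R` -/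
noncomputable def mh {n : ℕ} (M : ℕ) (a b y t : ℝ) (g : Fin n → ℝ) (κ : ℝ) (η : E n) : ℂ :=
  ((Real.exp (2 * π / t * Real.sqrt (Qd (fun i => (g i)⁻¹) η)) *
      Qd (fun i => (g i)⁻¹) η ^ (-((M : ℝ) / 2)) * mm a b g κ η : ℝ) : ℂ) /
    (Pb M).eval (y / (2 * π * Complex.I * (Real.sqrt (Qd (fun i => (g i)⁻¹) η) : ℝ) * tau y t))

/-- (HM) the multiplier of the link is bounded: `S_E3` (see `T9h82/LS/HI.lean`), `P_M(0) = 1`, the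
argument of `P_M` is at most `C y₀` on the support (`1/2 ≤ ‖η‖ ≤ 2`). -/
def S_hm (n : ℕ) : Prop :=
  ∀ (M : ℕ) (a b : ℝ), ∃ y₀ C : ℝ, 0 < y₀ ∧ 0 < C ∧ ∀ p : ℝ, 1 ≤ p → ∀ t ∈ Set.Icc (1 : ℝ) 2,
    ∀ g ∈ box n, ∀ κ ∈ Set.Icc (0 : ℝ) 1, ∀ y : ℝ, 0 < y → y ≤ y₀ → ∀ R : ℝ, 0 < R →
      (∀ η : E n, mm a b g κ η ≠ 0 → (Pb M).eval (y / (2 * π * Complex.I *
        (Real.sqrt (Qd (fun i => (g i)⁻¹) η) : ℝ) * tau y t)) ≠ 0) ∧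
      MulB C p fun ξ : E n => mh M a b y t g κ (R⁻¹ • ξ)

/-- (LK) the projected regularised wave is the convolution with the kernel, from (KH) -/
def S_lk (n : ℕ) : Prop :=
  1 ≤ n → ∀ (M : ℕ), ∀ g ∈ box n, ∀ R t : ℝ, 1 ≤ R → t ∈ Set.Icc (1 : ℝ) 2 →
    ∀ (h : 𝓢(E n, ℂ)) (x : E n),
    inv (fun ξ => (tau R⁻¹ t)⁻¹ ^ (M + 1) * ((Ng g ξ : ℝ) : ℂ) ^ M *
        Complex.exp (2 * π * Complex.I * (Ng g ξ : ℝ) * tau R⁻¹ t) *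
        (Pb M).eval (1 / (2 * π * Complex.I * (Ng g ξ : ℝ) * tau R⁻¹ t)) *
        ((shl (R⁻¹ • ξ.ofLp) : ℝ) : ℂ) * 𝓕 (h : E n → ℂ) ξ) x =
      ((((∏ i, g i) ^ (1 / 2 : ℝ) : ℝ) : ℂ) *
        Complex.exp (Complex.I * (π * ((n : ℝ) - 1) / 4 : ℝ))) *
        ∫ u : Fin n → ℝ, KM M n R⁻¹ (t ^ 2 - R⁻¹ ^ 2 / t ^ 2) g (x.ofLp - u) *
          Psi R (fun v => h (WithLp.toLp 2 v)) u

/-- one shell, the conclusion of `LS5.hi_plusI` (for all the variables) -/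
def HiP (n : ℕ) (p e : ℝ) : Prop :=
  ∀ a b : ℝ, ∃ K : ℝ, 0 < K ∧ ∀ (h : 𝓢(E n, ℂ)) (R : ℝ), 1 ≤ R →
    ∫⁻ g in box n, ∫⁻ t in Set.Icc (1 : ℝ) 2, ∫⁻ x : E n,
      ‖inv (fun ξ => Complex.exp (((2 * π * t * Ng g ξ : ℝ) : ℂ) * Complex.I) *
        ((mm a b g ((R⁻¹) ^ 2) (R⁻¹ • ξ) : ℝ) : ℂ) * 𝓕 (h : E n → ℂ) ξ) x‖ₑ ^ p ≤
    ENNReal.ofReal (K * R ^ e) * ∫⁻ x : E n, ‖h x‖ₑ ^ p

/-- (HP) from (HM), (LK) and `RS` for `R ≥ 1/y₀`; `LS5.hi_plusI` with `LS5.rough_all` (as in the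
proof of `LS5.prop0`, `I = univ`, `mix univ g₀ g = g`) for `R ≤ 1/y₀`. On the support of
`mm a b g κ (R⁻¹ • ξ)` the cutoff `shl (R⁻¹ • ξ)` is `1`, `Ng g ξ = R √(Qd g⁻¹ (R⁻¹ • ξ))`. -/
def S_hp (n : ℕ) : Prop :=
  1 ≤ n → ∀ (M : ℕ) (p e : ℝ), 2 ≤ p → RS n M p e → HiP n p e

/-- the exponent of the frequency -/
noncomputable def exs (n : ℕ) (p : ℝ) : ℝ := if p ≤ 4 then 0 else (p - 4) * (((n : ℝ) - 1) / 2)

end Pool.Agent.T9h44.LG
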