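import Pool.Agent.T9h44.LG.C7

/-!
# Sharp local smoothing in the mean over SOME dilations (helper44): the pieces, general version

`I` is the set of the variables in which the mean is taken; `mix I g₀ g` is `g` on `I` and `g₀` off
`I`. For `I = univ` these are the pieces of Spec2, Spec3. The gain is `(|I| - 1) min(1/2-1/p, 1/p)`.
-/

set_option autoImplicit false

namespace Pool.Agent.T9h44.LG

open MeasureTheory Real Pool.Agent.N303.LS Pool.Agent.T9h44.LS4 Pool.Agent.T9h44.LS5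
open scoped ENNReal ComplexConjugate

variable {n : ℕ}

/-- (FX) the sharp `L⁴` estimate at a fixed time in 2+1 dimensions. Scaling to `1 ≤ w ≤ 4`,
`|ξ| ≤ 1`, time `γ`; partition into `~ (1+|γ|)^(1/2)` slopes of width `2^(-m)`, `4^m ~ 1+|γ|`; each
piece is a convolution with an `L¹` kernel of norm `≤ C` (frame change, time `≤ 1`), so the kernel
of the cut propagator has `L¹` norm `≤ C (1+|γ|)^(1/2)`; interpolation with `L²`. -/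
def S_fx : Prop :=
  ∃ C N : ℝ, 0 < C ∧ 0 < N ∧ ∀ s₀ A c : ℝ, 0 < s₀ → 1 ≤ A → c ∈ Set.Icc (-4 : ℝ) 4 →
    ∀ G : ℝ × ℝ → ℂ, Nice G →
    (∀ ζ, G ζ ≠ 0 → s₀ ≤ ζ.1 ∧ ζ.1 ≤ 4 * s₀ ∧ |ζ.2| ≤ A * ζ.1) →
    ∫⁻ z : ℝ × ℝ, ‖Ext (Uo c G) z‖ₑ ^ 4 ≤
      ENNReal.ofReal (C * (1 + s₀) * A ^ N) * ∫⁻ z : ℝ × ℝ, ‖Ext G z‖ₑ ^ 4

/-- (ITI) iteration: (GEN) in the variables of `I`, (FX) in the variables off `I ∪ {j}` -/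
def S_itI (n : ℕ) : Prop :=
  ∀ ε : ℝ, 0 < ε → ∃ C N : ℝ, 0 < C ∧ 0 < N ∧ ∀ (I : Finset (Fin n)) (j : Fin n), j ∉ I →
    ∀ c₀ ∈ cubeC n, ∀ s₀ A : ℝ, 0 < s₀ → 1 ≤ A → ∀ G : ℝ × (Fin n → ℝ) → ℂ, NiceN G →
    (∀ ζ, G ζ ≠ 0 → s₀ ≤ ζ.1 ∧ ζ.1 ≤ 4 * s₀ ∧ ∀ i, |ζ.2 i| ≤ A * ζ.1) →
    ∫⁻ c in cubeC n, ∫⁻ p : ℝ × (Fin n → ℝ), ‖ExtN (UN (mix I c₀ c) G) p‖ₑ ^ 4 ≤
      ENNReal.ofReal (C * (1 + s₀) ^ (ε + ((n : ℝ) - 1 - I.card)) * A ^ N) *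
        ∫⁻ p : ℝ × (Fin n → ℝ), ‖ExtN (UN (Function.update 0 j (c₀ j)) G) p‖ₑ ^ 4

/-- (FUI) Fubini (if `j ∈ I`) and `c_i = 1/(4 g_i)` -/
def S_fuI (n : ℕ) : Prop :=
  ∀ (f : (Fin n → ℝ) → ℝ≥0∞) (I : Finset (Fin n)) (j : Fin n) (B : ℝ≥0∞), Measurable f →
    ∀ g₀ ∈ box n,
    (∀ c₀ : Fin n → ℝ, (∀ i, c₀ i ∈ Set.Icc (1 / 8 : ℝ) (1 / 4)) →
      ∫⁻ c in cubeC n, f (mix (I.erase j) c₀ c) ≤ B) →
    ∫⁻ g in box n, f (fun i => 1 / (4 * mix I g₀ g i)) ≤ 16 ^ n * B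

/-- (SMI) from (ITI) with `I.erase j`, (FUI), (TR), (KF), as (SM); the exponent is `n - |I|` (even
`n - 1 - |I|` if `j ∉ I`) -/
def S_smI (n : ℕ) : Prop :=
  1 ≤ n → ∀ ε : ℝ, 0 < ε → ∃ M₀ : ℕ, ∀ M : ℕ, M₀ ≤ M → ∃ C : ℝ, 0 < C ∧
    ∀ (I : Finset (Fin n)) (j : Fin n), ∀ g₀ ∈ box n, ∀ R : ℝ, 1 ≤ R →
    ∀ G H : (Fin n → ℝ) → ℂ, NiceV G → NiceV H →
    (∀ ξ, G ξ = 2 * π * Complex.I * ξ j * H ξ) → (∀ ξ, G ξ ≠ 0 → ∀ i, |ξ i| ≤ 4 * R) →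
    ∫⁻ g in box n, ∫⁻ w : ℝ, ∫⁻ x : Fin n → ℝ,
        ‖∫ u : Fin n → ℝ, KM M n R⁻¹ w (mix I g₀ g) (x - u) * ExV G u‖ₑ ^ 4 ≤
      ENNReal.ofReal (C * R ^ (4 * M + (ε + ((n : ℝ) - I.card)))) *
        ((∫⁻ x : Fin n → ℝ, ‖ExV G x‖ₑ ^ 4) +
          ENNReal.ofReal (R ^ 4) * ∫⁻ x : Fin n → ℝ, ‖ExV H x‖ₑ ^ 4)

/-- the estimate of a shell -/
def RSI (n M : ℕ) (I : Finset (Fin n)) (p e : ℝ) : Prop :=
  ∃ C : ℝ, 0 < C ∧ ∀ g₀ ∈ box n, ∀ R : ℝ, 1 ≤ R → ∀ F : (Fin n → ℝ) → ℂ, Measurable F →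
    Integrable F → (∃ B : ℝ, ∀ u, ‖F u‖ ≤ B) →
    ∫⁻ g in box n, ∫⁻ t in Set.Icc (1 : ℝ) 2, ∫⁻ x : Fin n → ℝ,
        ‖∫ u : Fin n → ℝ, KM M n R⁻¹ (t ^ 2 - R⁻¹ ^ 2 / t ^ 2) (mix I g₀ g) (x - u) *
          Psi R F u‖ₑ ^ p ≤
      ENNReal.ofReal (C * R ^ (M * p + e)) * ∫⁻ u : Fin n → ℝ, ‖F u‖ₑ ^ p

/-- (R4I) as (R4) -/
def S_r4I (n : ℕ) : Prop :=
  1 ≤ n → ∀ ε : ℝ, 0 < ε → ∃ M₀ : ℕ, ∀ M : ℕ, M₀ ≤ M → ∀ I : Finset (Fin n),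
    RSI n M I 4 (ε + ((n : ℝ) - I.card))

/-- (R2I) as (R2) -/
def S_r2I (n : ℕ) : Prop := 1 ≤ n → ∀ (M : ℕ) (I : Finset (Fin n)), RSI n M I 2 0

/-- (RPI) as (RP) -/
def S_rpI (n : ℕ) : Prop :=
  1 ≤ n → ∀ (M : ℕ) (I : Finset (Fin n)) (e : ℝ), 1 ≤ M → RSI n M I 4 e → ∀ p : ℝ, 2 ≤ p →
    RSI n M I p (if p ≤ 4 then e * ((p - 2) / 2) else e + (p - 4) * (((n : ℝ) - 1) / 2))

/-- (HPI) as (HP), from (HM), (LK), and `LS5.hi_plusI` for bounded `R` -/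
def S_hpI (n : ℕ) : Prop :=
  1 ≤ n → ∀ (M : ℕ) (I : Finset (Fin n)) (p e : ℝ), 2 ≤ p → RSI n M I p e →
    ∀ a b : ℝ, PlusJ I p e (mm a b)

lemma exI_lt (n k : ℕ) (p σ : ℝ) (hp : 2 ≤ p)
    (hσ : σ < ((k : ℝ) - 1) * min (1 / 2 - 1 / p) (1 / p)) : ∃ ε : ℝ, 0 < ε ∧
    (if p ≤ 4 then (ε + ((n : ℝ) - k)) * ((p - 2) / 2) else
      (ε + ((n : ℝ) - k)) + (p - 4) * (((n : ℝ) - 1) / 2)) <
      (((n : ℝ) - 1) / 2 - ((n : ℝ) - 1) / p - σ) * p := by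
  have hp0 : 0 < p := by linarith
  have h1 : (((n : ℝ) - 1) / 2 - ((n : ℝ) - 1) / p - σ) * p =
      ((n : ℝ) - 1) * ((p - 2) / 2) - σ * p := by
    field_simp
  rw [h1]
  by_cases h : p ≤ 4
  · simp only [h, if_true]
    have h2 : min (1 / 2 - 1 / p) (1 / p) = 1 / 2 - 1 / p := by
      refine min_eq_left ?_
      have : 1 / 4 ≤ 1 / p := one_div_le_one_div_of_le hp0 h
      linarith
    rw [h2] at hσ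
    have h3 : σ * p < ((k : ℝ) - 1) * ((p - 2) / 2) := by
      calc σ * p < (((k : ℝ) - 1) * (1 / 2 - 1 / p)) * p := mul_lt_mul_of_pos_right hσ hp0
        _ = _ := by field_simp
    set δ := ((k : ℝ) - 1) * ((p - 2) / 2) - σ * p with hδ
    have hδ0 : 0 < δ := by linarith
    refine ⟨δ / 2, by positivity, ?_⟩
    nlinarith
  · simp only [h, if_false]
    push Not at h
    have h2 : min (1 / 2 - 1 / p) (1 / p) = 1 / p := by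
      refine min_eq_right ?_
      have : 1 / p ≤ 1 / 4 := one_div_le_one_div_of_le (by norm_num) h.le
      linarith
    rw [h2] at hσ
    have h3 : σ * p < (k : ℝ) - 1 := by
      calc σ * p < (((k : ℝ) - 1) * (1 / p)) * p := mul_lt_mul_of_pos_right hσ hp0
        _ = _ := by field_simp
    refine ⟨((k : ℝ) - 1 - σ * p) / 2, by linarith, ?_⟩
    linarith

/-- the theorem in the mean over the dilations of the variables of `I` -/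
theorem finalI (hn : 1 ≤ n) (h4 : S_r4I n) (hrp : S_rpI n) (hhp : S_hpI n) (I : Finset (Fin n))
    (p : ℝ) (hp : 2 ≤ p) (σ : ℝ) (hσ : σ < ((I.card : ℝ) - 1) * min (1 / 2 - 1 / p) (1 / p)) :
    ∃ C : ℝ, 0 < C ∧ ∀ g₀ ∈ box n, ∀ u₀ u₁ : SchwartzMap (E n) ℂ,
      ∫⁻ g in box n, ∫⁻ t in Set.Icc (1 : ℝ) 2, ∫⁻ x : E n,
        ‖LS5.wave (FourierTransform.fourier fun x => u₀ (dilm (mix I g₀ g) x))
          (FourierTransform.fourier fun x => u₁ (dilm (mix I g₀ g) x)) t x‖ₑ ^ p ≤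
      ENNReal.ofReal C *
        ((∫⁻ x : E n, ‖inv (fun ξ => bes (((n : ℝ) - 1) / 2 - ((n : ℝ) - 1) / p - σ) ξ *
          FourierTransform.fourier (u₀ : E n → ℂ) ξ) x‖ₑ ^ p) +
        ∫⁻ x : E n, ‖inv (fun ξ => bes (((n : ℝ) - 1) / 2 - ((n : ℝ) - 1) / p - σ - 1) ξ *
          FourierTransform.fourier (u₁ : E n → ℂ) ξ) x‖ₑ ^ p) := by
  obtain ⟨ε, hε, he⟩ := exI_lt n I.card p σ hp hσ
  obtain ⟨M₀, hM₀⟩ := h4 hn ε hε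
  have h1 := hM₀ (M₀ + 1) (by omega) I
  have h2 := hrp hn (M₀ + 1) I _ (by omega) h1 p hp
  have h3 := hhp hn (M₀ + 1) I p _ hp h2
  exact finalJ I p hp σ _ he h3

end Pool.Agent.T9h44.LG
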