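import Pool.Agent.T9h44.LG.Top0
import Pool.Agent.T9h44.LG.Spec5
import Pool.Agent.T9h69.LG.Fx
import Pool.Agent.T9h71.LG.ItI
import Pool.Agent.T9h71.LG.KfJ
import Pool.Agent.T9h81.LG.FuI
import Pool.Agent.T9h29.LG.TrJ
import Pool.Agent.T9h70.LG.SmJ
import Pool.Agent.T9h70.LG.Hm
import Pool.Agent.T9h70.LG.HpI
import Pool.Agent.T9h8.LG.R4J
import Pool.Agent.T9h69.LG.Kh
import Pool.Agent.T9h69.LG.Lk
import Pool.Agent.T9h41.LG.Po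
import Pool.Agent.T9h41.LG.RpI
import Pool.Agent.T9h73.LG.L1

/-!
# Sharp local smoothing in the mean over dilations (helper44): the theorem
-/

set_option autoImplicit false

namespace Pool.Agent.T9h44.LG

open MeasureTheory Real Pool.Agent.N303.LS Pool.Agent.T9h44.LS4 Pool.Agent.T9h44.LS5
open scoped ENNReal

theorem s_r4J (n : ℕ) : S_r4J n :=
  Pool.Agent.T9h8.LG.s_r4J n (Pool.Agent.T9h70.LG.s_smJ n
    (Pool.Agent.T9h71.LG.s_itI s_gen Pool.Agent.T9h69.LG.s_fx n)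
    (Pool.Agent.T9h71.LG.s_itJ s_gen Pool.Agent.T9h69.LG.s_fx n)
    (Pool.Agent.T9h81.LG.s_fuI n) (Pool.Agent.T9h41.LG.s_po n) (Pool.Agent.T9h29.LG.s_trJ n)
    (Pool.Agent.T9h71.LG.s_kfJ n))

/-- sharp local smoothing in the mean over the dilations of some variables -/
theorem main {n : ℕ} (hn : 1 ≤ n) (I : Finset (Fin n))
    (p : ℝ) (hp : 2 ≤ p) (σ : ℝ)
    (hσ : σ < ((min I.card (n - 1) : ℕ) : ℝ) * min (1 / 2 - 1 / p) (1 / p)) :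
    ∃ C : ℝ, 0 < C ∧ ∀ g₀ ∈ box n, ∀ u₀ u₁ : SchwartzMap (E n) ℂ,
      ∫⁻ g in box n, ∫⁻ t in Set.Icc (1 : ℝ) 2, ∫⁻ x : E n,
        ‖LS5.wave (FourierTransform.fourier fun x => u₀ (dilm (mix I g₀ g) x))
          (FourierTransform.fourier fun x => u₁ (dilm (mix I g₀ g) x)) t x‖ₑ ^ p ≤
      ENNReal.ofReal C *
        ((∫⁻ x : E n, ‖inv (fun ξ => bes (((n : ℝ) - 1) / 2 - ((n : ℝ) - 1) / p - σ) ξ *
          FourierTransform.fourier (u₀ : E n → ℂ) ξ) x‖ₑ ^ p) +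
        ∫⁻ x : E n, ‖inv (fun ξ => bes (((n : ℝ) - 1) / 2 - ((n : ℝ) - 1) / p - σ - 1) ξ *
          FourierTransform.fourier (u₁ : E n → ℂ) ξ) x‖ₑ ^ p) :=
  finalM hn (s_r4J n)
    (Pool.Agent.T9h41.LG.s_rpI n (Pool.Agent.T9h41.LG.s_r2I n (Pool.Agent.T9h69.LG.Kh.s_kh n))
      (Pool.Agent.T9h73.LG.s_l1 n))
    (Pool.Agent.T9h70.LG.s_hpI n (Pool.Agent.T9h70.LG.s_hm n)
      (Pool.Agent.T9h69.LG.Lk.s_lk n (Pool.Agent.T9h69.LG.Kh.s_kh n))) I p hp σ hσ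

end Pool.Agent.T9h44.LG
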