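import Pool.Agent.T9h44.LG.Pa4
import Pool.Agent.T9h89.LG.Fin
import Pool.Agent.T9h89.LG.Rec
import Pool.Agent.T9h31.LG.Bs
import Pool.Agent.T9h31.LG.Gen3
import Pool.Agent.T9h69.LG.S4
import Pool.Agent.T9h69.LG.Fr
import Pool.Agent.T9h69.LG.Lc
import Pool.Agent.T9h71.LG.Cw

/-!
# Sharp local smoothing in 2+1 dimensions (helper44): the theorem
-/

set_option autoImplicit false

namespace Pool.Agent.T9h44.LG

theorem s_fin : S_fin :=
  Pool.Agent.T9h89.LG.s_fin (Pool.Agent.T9h89.LG.s_rec s_pa Pool.Agent.T9h71.LG.s_tm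
    Pool.Agent.T9h69.LG.s_fr Pool.Agent.T9h69.LG.s_s4) Pool.Agent.T9h31.LG.s_bs

theorem s_gen : S_gen :=
  Pool.Agent.T9h31.LG.s_gen s_fin Pool.Agent.T9h69.LG.s_lc Pool.Agent.T9h31.LG.s_bs

end Pool.Agent.T9h44.LG
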