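import Pool.Agent.T9h44.LG.Top0
import Pool.Agent.T9h44.LG.C7
import Pool.Agent.T9h71.LG.It
import Pool.Agent.T9h71.LG.Kf
import Pool.Agent.T9h29.LG.Tr
import Pool.Agent.T9h70.LG.Sm
import Pool.Agent.T9h70.LG.Hm
import Pool.Agent.T9h70.LG.Hp
import Pool.Agent.T9h8.LG.R4
import Pool.Agent.T9h69.LG.Kh
import Pool.Agent.T9h69.LG.Lk
import Pool.Agent.T9h41.LG.R2
import Pool.Agent.T9h41.LG.Rp
import Pool.Agent.T9h73.LG.L1

/-!
# Sharp local smoothing in the mean over all dilations (helper44): the shells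
-/

set_option autoImplicit false

namespace Pool.Agent.T9h44.LG

theorem s_r4 (n : ℕ) : S_r4 n :=
  Pool.Agent.T9h8.LG.s_r4 n (Pool.Agent.T9h70.LG.s_sm n (Pool.Agent.T9h71.LG.s_it s_gen n)
    (Pool.Agent.T9h71.LG.s_fu n) (Pool.Agent.T9h29.LG.s_tr n) (Pool.Agent.T9h71.LG.s_kf n))

theorem hiP {n : ℕ} (hn : 1 ≤ n) (p : ℝ) (hp : 2 ≤ p) (ε : ℝ) (hε : 0 < ε) :
    HiP n p (exs n p + ε) := by
  obtain ⟨M₀, h⟩ := s_r4 n hn ε hε
  have h1 := h (M₀ + 1) (by omega)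
  have h2 := Pool.Agent.T9h41.LG.s_rp n (Pool.Agent.T9h41.LG.s_r2 n (Pool.Agent.T9h69.LG.Kh.s_kh n))
    (Pool.Agent.T9h73.LG.s_l1 n) hn (M₀ + 1) ε (by omega) hε h1 p hp
  have e : exs n p + ε = ε + if p ≤ 4 then 0 else (p - 4) * (((n : ℝ) - 1) / 2) := by
    unfold exs
    ring
  rw [e]
  exact Pool.Agent.T9h70.LG.s_hp n (Pool.Agent.T9h70.LG.s_hm n)
    (Pool.Agent.T9h69.LG.Lk.s_lk n (Pool.Agent.T9h69.LG.Kh.s_kh n)) hn (M₀ + 1) p _ hp h2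

end Pool.Agent.T9h44.LG
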